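import Mathlib
import Pool.Agent.H20.W.SDef
import Pool.Agent.H47.W.Room3
import Pool.Agent.H73.W.Tangle7
import Pool.Agent.H61.W.WSum

set_option autoImplicit false
open Finset

/-! # The functional of the junction world as a sum of planar functionals: names and order

`Na C c0` : the moving end (`none`) and the marks of the room. `RIn` : the ends of the room graph are joined in
pairs, without crossings off the strand of the moving end. `py c` : position of the marks counterclockwise
from the cut `c` (foot of the slit). `OutY` : the outside of the junction world. `ins_of` : 73's axioms `Ins`. -/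

namespace Pool.Agent.H25.W

open Pool.Agent.H13.W Pool.Agent.H33.Q1 Pool.Agent.H21.W Pool.Agent.H20.W Pool.Agent.H99.W
open Pool.Agent.H54.W (CD)
open Pool.Agent.H74.W (tau tau_eq tau_cube)
open Pool.Agent.H73.W (ph ph_inv ph_sq ph_ne NX Rt Outs Ins VU VP Fam VU_expand)
open Pool.Agent.H47.W (sgp Act)

variable (C : CD) (c0 : Bool)

/-- the marks of the room -/
noncomputable def MkF : Finset ℤ := (Icc (-1) (C.H + 1)).filter fun k => Pool.Agent.H20.W.col C c0 k ≠
  Pool.Agent.H20.W.col C c0 (k + 1)

lemma mem_MkF {k : ℤ} : k ∈ MkF C c0 ↔ Mk C c0 k := by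
  unfold MkF Mk
  rw [mem_filter, mem_Icc, and_assoc]

/-- the marks as names -/
abbrev Nm := {k : ℤ // k ∈ MkF C c0}

/-- **names** of the ends: the moving end `none`, the marks -/
abbrev Na := Option (Nm C c0)

/-- the corner with a given name -/
def crn (n : ℤ) (v : ℤ × ℤ) : Na C c0 → ℤ × ℤ
  | none => eW (lt v)
  | some k => nm C c0 n k.1

/-- order along the walls, clockwise from the exit -/
def pk : Na C c0 → ℤ
  | none => 0
  | some k => k.1

/-- order along the walls, counterclockwise from the cut `c` -/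
def py (c : ℤ) : Na C c0 → ℤ
  | none => 0
  | some k => if k.1 ≤ c then -k.1 else C.H + 3 - k.1

/-- the pairing of the ends of the room -/
noncomputable def sg (n : ℤ) (v : ℤ × ℤ) (ω : Finset (ℤ × ℤ)) : Na C c0 → Na C c0 :=
  sgp (GR C c0 n v ω) (fun _ => True) (crn C c0 n v)

/-- **The room**: its ends are joined in pairs, off the strand of the moving end without crossings. -/
structure RIn (n : ℤ) (v : ℤ × ℤ) (ω : Finset (ℤ × ℤ)) : Prop where
  act : Act (GR C c0 n v ω) (fun _ => True) (crn C c0 n v)
  nc : ∀ x y : Na C c0, x ≠ none → x ≠ sg C c0 n v ω none → y ≠ none → y ≠ sg C c0 n v ω none →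
    NX (pk C c0) (sg C c0 n v ω) x y

variable {C c0} {n c : ℤ} {v : ℤ × ℤ} {ω : Finset (ℤ × ℤ)}

lemma nm_range (k : Nm C c0) : -1 ≤ k.1 ∧ k.1 ≤ C.H + 1 := by
  have := (mem_MkF C c0).1 k.2
  exact ⟨this.1, this.2.1⟩

lemma pk_inj {x y : Na C c0} (hx : x ≠ none) (hy : y ≠ none) (h : pk C c0 x = pk C c0 y) : x = y := by
  cases x with
  | none => exact absurd rfl hx
  | some k =>
    cases y with
    | none => exact absurd rfl hy
    | some l =>
      have : k.1 = l.1 := h
      rw [Subtype.ext this]

lemma py_inj {x y : Na C c0} (hx : x ≠ none) (hy : y ≠ none) (h : py C c0 c x = py C c0 c y) :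
    x = y := by
  cases x with
  | none => exact absurd rfl hx
  | some k =>
    cases y with
    | none => exact absurd rfl hy
    | some l =>
      have h1 := nm_range k
      have h2 := nm_range l
      have : k.1 = l.1 := by
        simp only [py] at h
        split_ifs at h <;> omega
      rw [Subtype.ext this]

/-- four positions in the order of `py` -/
lemma py_lt {x y : Na C c0} (hx : x ≠ none) (hy : y ≠ none) : py C c0 c x < py C c0 c y ↔
    (pk C c0 x ≤ c ∧ pk C c0 y ≤ c ∧ pk C c0 y < pk C c0 x) ∨
      (pk C c0 x ≤ c ∧ c < pk C c0 y) ∨ (c < pk C c0 x ∧ c < pk C c0 y ∧ pk C c0 y < pk C c0 x) := by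
  cases x with
  | none => exact absurd rfl hx
  | some k =>
    cases y with
    | none => exact absurd rfl hy
    | some l =>
      have h1 := nm_range k
      have h2 := nm_range l
      simp only [py, pk]
      split_ifs <;> omega

/-- **A noncrossing pairing is noncrossing after a rotation and a reversal of the order.** -/
lemma nx_py {σ : Na C c0 → Na C c0} (hi : ∀ x, σ (σ x) = x)
    (h : ∀ x y : Na C c0, x ≠ none → x ≠ σ none → y ≠ none → y ≠ σ none → NX (pk C c0) σ x y)
    {x y : Na C c0} (h1 : x ≠ none) (h2 : x ≠ σ none) (h3 : y ≠ none) (h4 : y ≠ σ none) :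
    NX (py C c0 c) σ x y := by
  have e1 : σ x ≠ none := fun e => h2 (by rw [← e, hi])
  have e2 : σ x ≠ σ none := fun e => h1 (by rw [← hi x, e, hi])
  have e3 : σ y ≠ none := fun e => h4 (by rw [← e, hi])
  have e4 : σ y ≠ σ none := fun e => h3 (by rw [← hi y, e, hi])
  have n1 := h _ _ e3 e4 e1 e2
  have n2 := h _ _ h1 h2 e3 e4
  have n3 := h _ _ h3 h4 h1 h2
  have n4 := h _ _ e1 e2 h3 h4
  unfold NX at n1 n2 n3 n4 ⊢
  rw [hi] at n1 n2 n4
  rw [hi] at n1
  rintro ⟨k1, k2, k3⟩
  rw [py_lt h1 h3] at k1
  rw [py_lt h3 e1] at k2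
  rw [py_lt e1 e3] at k3
  omega

/-- **The outside of the junction world.** Every mark is linked, except the mark `m` of `P` and the far marks
`x3`, `x4`; the linked marks and `m` are between the far marks and the cut. -/
structure OutY (c : ℤ) (m x3 x4 : Nm C c0) (θ : Na C c0 → Na C c0) : Prop where
  out : Outs (py C c0 c) (some m) (some x3) (some x4) θ
  z : θ none = none
  al : ∀ y, θ y = y → y = none ∨ y = some m ∨ y = some x3 ∨ y = some x4
  blk : ∀ k : Nm C c0, (θ (some k) ≠ some k ∨ k = m) → k.1 ≤ c

/-- **73's axioms of the inside.** -/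
theorem ins_of (R : RIn C c0 n v ω) {m x3 x4 : Nm C c0} {θ : Na C c0 → Na C c0}
    (O : OutY c m x3 x4 θ) :
    Ins (py C c0 c) none (some m) (some x3) (some x4) (sg C c0 n v ω) θ where
  inv := R.act.inv
  inj x y hx hy h := py_inj hx hy h
  nc x y h1 h2 h3 h4 := nx_py R.act.inv R.nc h1 h2 h3 h4
  zθ := O.z
  zσ := (R.act.alive none).2 trivial
  zm := by simp
  z3 := by simp
  z4 := by simp
  act y := by
    have h1 : sg C c0 n v ω y ≠ y := (R.act.alive y).2 trivial
    have h2 := O.al y
    tauto

end Pool.Agent.H25.W
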