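import Mathlib
import Pool.Agent.H25.W.JY0

set_option autoImplicit false
open Finset

/-! # A planar outside of 73's family as a matching `Th` of the S-property

`PlO` : a planar outside (marks `M`, `x3`, `x4` not linked, all other marks linked). `PlO.th` : the matching
`Th C c0`. `PlO.reach` : the room graph with the arcs joins two names iff the link structure does.
`PlO.conj_VP` : the conjugate of 73's plane functional (values `ph, 1, 0`) is `a + b * ∑ τ ^ j 1[joined to x j]`. -/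

namespace Pool.Agent.H25.W

open Pool.Agent.H13.W Pool.Agent.H33.Q1 Pool.Agent.H21.W Pool.Agent.H20.W Pool.Agent.H99.W
open Pool.Agent.H54.W (CD)
open Pool.Agent.H74.W (tau tau_eq tau_cube)
open Pool.Agent.H73.W (ph ph_inv ph_sq ph_ne NX Rt Outs Ins VU VP Fam VU_expand)
open Pool.Agent.H47.W (sgp Act)

variable {C : CD} {c0 : Bool} {n c : ℤ} {v : ℤ × ℤ} {ω : Finset (ℤ × ℤ)}

/-- **Planar outside.** -/
structure PlO (c : ℤ) (M x3 x4 : Nm C c0) (Θ : Na C c0 → Na C c0) : Prop where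
  out : Outs (py C c0 c) (some M) (some x3) (some x4) Θ
  z : Θ none = none
  al : ∀ y, Θ y = y → y = none ∨ y = some M ∨ y = some x3 ∨ y = some x4
  blk : ∀ k : Nm C c0, (Θ (some k) ≠ some k ∨ k = M) → k.1 ≤ c
  pl : ∀ y, ¬ Rt (py C c0 c) Θ (some M) y

/-- the family of 73 consists of planar outsides -/
lemma plO_of {m x3 x4 : Nm C c0} {θ Θ : Na C c0 → Na C c0} {M : Na C c0} (O : OutY c m x3 x4 θ)
    (out : Outs (py C c0 c) M (some x3) (some x4) Θ) (pl : ∀ y, ¬ Rt (py C c0 c) Θ M y)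
    (al : ∀ y, (θ y ≠ y ∨ y = some m) ↔ (Θ y ≠ y ∨ y = M)) :
    ∃ k : Nm C c0, M = some k ∧ PlO c k x3 x4 Θ := by
  have h0 : M ≠ none := by
    rintro rfl
    rcases (al none).2 (Or.inr rfl) with h | h
    · exact h O.z
    · simp at h
  have hz : Θ none = none := by
    by_contra h
    rcases (al none).2 (Or.inl h) with h | h
    · exact h O.z
    · simp at h
  cases M with
  | none => exact absurd rfl h0
  | some k =>
    refine ⟨k, rfl, out, hz, ?_, ?_, pl⟩
    · intro y hy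
      by_cases hM : y = some k
      · exact Or.inr (Or.inl hM)
      have h1 : ¬ (θ y ≠ y ∨ y = some m) := by
        rw [al]
        rintro (h | h)
        · exact h hy
        · exact hM h
      push Not at h1
      rcases O.al y h1.1 with h | h | h | h
      · exact Or.inl h
      · exact absurd h h1.2
      · exact Or.inr (Or.inr (Or.inl h))
      · exact Or.inr (Or.inr (Or.inr h))
    · intro l hl
      have h1 : Θ (some l) ≠ some l ∨ (some l : Na C c0) = some k := by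
        rcases hl with h | h
        · exact Or.inl h
        · exact Or.inr (by rw [h])
      rcases (al (some l)).2 h1 with h | h
      · exact O.blk l (Or.inl h)
      · exact O.blk l (Or.inr (by simpa using h))

namespace PlO

variable {M x3 x4 : Nm C c0} {Θ : Na C c0 → Na C c0}

/-- the partner of a mark -/
noncomputable def pm (Θ : Na C c0 → Na C c0) (k : ℤ) : ℤ :=
  if h : k ∈ MkF C c0 then (Θ (some ⟨k, h⟩)).elim k Subtype.val else k

lemma pm_mem (Θ : Na C c0 → Na C c0) {k : ℤ} (h : k ∈ MkF C c0) : pm Θ k ∈ MkF C c0 := by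
  unfold pm
  rw [dif_pos h]
  cases Θ (some ⟨k, h⟩) with
  | none => exact h
  | some l => exact l.2

/-- the unlinked marks, counterclockwise from the exit -/
def xs (c : ℤ) (M x3 x4 : Nm C c0) : Fin 3 → ℤ :=
  if x4.1 ≤ c then ![M.1, x3.1, x4.1] else if x3.1 ≤ c then ![x4.1, M.1, x3.1]
  else ![x3.1, x4.1, M.1]

variable (P : PlO c M x3 x4 Θ)

include P

lemma ne_none (k : Nm C c0) : Θ (some k) ≠ none := by
  intro h
  have h1 := P.out.inv (some k)
  rw [h, P.z] at h1
  exact absurd h1 (by simp)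

lemma pm_some (k : Nm C c0) : Θ (some k) = some ⟨pm Θ k.1, pm_mem Θ k.2⟩ := by
  have h0 := P.ne_none k
  cases h : Θ (some k) with
  | none => exact absurd h h0
  | some l =>
    congr 1
    apply Subtype.ext
    show l.1 = pm Θ k.1
    unfold pm
    rw [dif_pos k.2]
    show l.1 = (Θ (some k)).elim k.1 Subtype.val
    rw [h]
    rfl

lemma pm_pm {k : ℤ} (h : k ∈ MkF C c0) : pm Θ (pm Θ k) = k := by
  have h1 := P.pm_some ⟨k, h⟩
  have h2 := P.out.inv (some ⟨k, h⟩)
  rw [h1, P.pm_some] at h2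
  simpa using h2

lemma pm_fix {k : ℤ} (h : k ∈ MkF C c0) : pm Θ k = k ↔ k = M.1 ∨ k = x3.1 ∨ k = x4.1 := by
  have h1 := P.pm_some ⟨k, h⟩
  constructor
  · intro e
    have h2 : Θ (some ⟨k, h⟩) = some ⟨k, h⟩ := by
      rw [h1]; simp [e]
    rcases P.al _ h2 with h3 | h3 | h3 | h3
    · simp at h3
    · left; rw [← (Option.some.inj h3)]
    · right; left; rw [← (Option.some.inj h3)]
    · right; right; rw [← (Option.some.inj h3)]
  · have key : ∀ l : Nm C c0, Θ (some l) = some l → pm Θ l.1 = l.1 := by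
      intro l hl
      have h3 := hl.symm.trans (P.pm_some l)
      exact (congrArg Subtype.val (Option.some.inj h3)).symm
    rintro (e | e | e)
    · rw [e]; exact key M P.out.fm
    · rw [e]; exact key x3 P.out.f3
    · rw [e]; exact key x4 P.out.f4

lemma ordM : py C c0 c (some M) < py C c0 c (some x3) := P.out.m3
lemma ord34 : py C c0 c (some x3) < py C c0 c (some x4) := P.out.o34

lemma Mc : M.1 ≤ c := P.blk M (Or.inr rfl)

/-- the linked marks -/
lemma lk {k : ℤ} (h : k ∈ MkF C c0) (hf : pm Θ k ≠ k) : k ≤ c ∧ pm Θ k ≤ c ∧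
    py C c0 c (some ⟨k, h⟩) < py C c0 c (some x3) := by
  have h1 := P.pm_some ⟨k, h⟩
  have h2 : Θ (some ⟨k, h⟩) ≠ some ⟨k, h⟩ := by
    rw [h1]; intro e
    exact hf (congrArg Subtype.val (Option.some.inj e))
  have h3 : Θ (some ⟨pm Θ k, pm_mem Θ h⟩) ≠ some ⟨pm Θ k, pm_mem Θ h⟩ := by
    have := P.out.inv (some ⟨k, h⟩)
    rw [h1] at this
    rw [this]
    intro e
    exact hf (congrArg Subtype.val (Option.some.inj e)).symm
  exact ⟨P.blk _ (Or.inl h2), P.blk _ (Or.inl h3), P.out.lt3 _ h2⟩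

omit P in
lemma py_le {k : ℤ} (h : k ∈ MkF C c0) (hk : k ≤ c) : py C c0 c (some ⟨k, h⟩) = -k := by
  simp only [py]; rw [if_pos hk]

omit P in
lemma py_gt {k : ℤ} (h : k ∈ MkF C c0) (hk : ¬ k ≤ c) : py C c0 c (some ⟨k, h⟩) = C.H + 3 - k := by
  simp only [py]; rw [if_neg hk]

omit P in
/-- `x 0, x 1, x 2` are `M, x3, x4` -/
lemma mem_xs {k : ℤ} : (∃ j, k = xs c M x3 x4 j) ↔ k = M.1 ∨ k = x3.1 ∨ k = x4.1 := by
  simp only [Fin.exists_fin_succ, xs, Fin.exists_fin_zero]
  split_ifs <;> simp <;> tauto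

lemma ord : xs c M x3 x4 2 < xs c M x3 x4 1 ∧ xs c M x3 x4 1 < xs c M x3 x4 0 := by
  have h1 := P.ordM
  have h2 := P.ord34
  have h3 := P.Mc
  have r1 := nm_range M
  have r3 := nm_range x3
  have r4 := nm_range x4
  simp only [py] at h1 h2
  rw [if_pos h3] at h1
  unfold xs
  by_cases e4 : x4.1 ≤ c
  · rw [if_pos e4] at h2 ⊢
    show x4.1 < x3.1 ∧ x3.1 < M.1
    split_ifs at h1 h2 <;> omega
  · rw [if_neg e4] at h2 ⊢
    by_cases e3 : x3.1 ≤ c
    · rw [if_pos e3] at h1 h2 ⊢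
      show x3.1 < M.1 ∧ M.1 < x4.1
      omega
    · rw [if_neg e3] at h1 h2 ⊢
      show M.1 < x4.1 ∧ x4.1 < x3.1
      omega

/-- **The matching of the S-property.** -/
noncomputable def th : Th C c0 where
  m := pm Θ
  x := xs c M x3 x4
  mm k hk := (mem_MkF C c0).1 (pm_mem Θ ((mem_MkF C c0).2 hk))
  inv k hk := P.pm_pm ((mem_MkF C c0).2 hk)
  xm j := by
    have : ∃ j', xs c M x3 x4 j = xs c M x3 x4 j' := ⟨j, rfl⟩
    rw [mem_xs] at this
    rcases this with h | h | h <;> rw [h] <;> exact (mem_MkF C c0).1 (Subtype.property _)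
  fx k hk := by rw [P.pm_fix ((mem_MkF C c0).2 hk), mem_xs]
  ord := P.ord
  nc a b ha hb h1 h2 := by
    have ha' := (mem_MkF C c0).2 ha
    have hb' := (mem_MkF C c0).2 hb
    by_cases hfb : pm Θ b = b
    · rw [hfb]; exact ⟨h1, h2⟩
    have hfa : pm Θ a ≠ a := by omega
    obtain ⟨a1, a2, -⟩ := P.lk ha' hfa
    obtain ⟨b1, b2, -⟩ := P.lk hb' hfb
    -- crossings are excluded
    have n1 := P.out.nc (some ⟨pm Θ a, pm_mem Θ ha'⟩) (some ⟨b, hb'⟩)
    have n2 := P.out.nc (some ⟨b, hb'⟩) (some ⟨pm Θ a, pm_mem Θ ha'⟩)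
    have n3 := P.out.nc (some ⟨pm Θ b, pm_mem Θ hb'⟩) (some ⟨pm Θ a, pm_mem Θ ha'⟩)
    have n4 := P.out.nc (some ⟨pm Θ a, pm_mem Θ ha'⟩) (some ⟨pm Θ b, pm_mem Θ hb'⟩)
    have i1 : Θ (some ⟨pm Θ a, pm_mem Θ ha'⟩) = some ⟨a, ha'⟩ := by
      have := P.out.inv (some ⟨a, ha'⟩)
      rwa [P.pm_some] at this
    have i2 : Θ (some ⟨b, hb'⟩) = some ⟨pm Θ b, pm_mem Θ hb'⟩ := P.pm_some _
    have i3 : Θ (some ⟨pm Θ b, pm_mem Θ hb'⟩) = some ⟨b, hb'⟩ := by
      have := P.out.inv (some ⟨b, hb'⟩)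
      rwa [P.pm_some] at this
    unfold NX at n1 n2 n3 n4
    rw [i1, i2] at n1
    rw [i1, i2] at n2
    rw [i1, i3] at n3 n4
    rw [py_le _ a1, py_le _ a2, py_le _ b1, py_le _ b2] at n1 n2 n3 n4
    have d1 : pm Θ b ≠ a := by
      intro e
      have := P.pm_pm hb'
      rw [e] at this
      omega
    have d2 : pm Θ b ≠ pm Θ a := by
      intro e
      have e1 := P.pm_pm hb'
      have e2 := P.pm_pm ha'
      rw [e] at e1
      omega
    omega
  un a j ha := by
    have ha' := (mem_MkF C c0).2 ha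
    rintro ⟨h1, h2⟩
    have hfa : pm Θ a ≠ a := by omega
    obtain ⟨a1, a2, a3⟩ := P.lk ha' hfa
    have hfb : pm Θ (pm Θ a) ≠ pm Θ a := by rw [P.pm_pm ha']; exact hfa.symm
    obtain ⟨-, -, b3⟩ := P.lk (pm_mem Θ ha') hfb
    have hx : ∃ j', xs c M x3 x4 j = xs c M x3 x4 j' := ⟨j, rfl⟩
    rw [mem_xs] at hx
    rw [py_le _ a1] at a3
    rw [py_le _ a2] at b3
    have o1 := P.ordM
    have o2 := P.ord34
    have o3 := P.Mc
    have r3 := nm_range x3
    have r4 := nm_range x4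
    have p1 := P.pl (some ⟨a, ha'⟩)
    unfold Rt at p1
    rw [P.pm_some] at p1
    rw [py_le _ a1, py_le _ a2] at p1
    have eM : py C c0 c (some M) = -M.1 := py_le M.2 o3
    rw [eM] at p1 o1
    rcases hx with h | h | h <;> rw [h] at h1 h2
    · omega
    · simp only [py] at a3 b3
      split_ifs at a3 <;> omega
    · simp only [py] at a3 o2
      split_ifs at a3 o2 <;> omega

end PlO

end Pool.Agent.H25.W
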