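import Mathlib
import Pool.Agent.H25.W.JY1
import Pool.Agent.H29.W.RoomG

set_option autoImplicit false
open Finset

/-! # The functional of the junction world as a sum of planar functionals

`lko R O` : the link structure of a configuration of the room. `PlO.reach` : the room graph with the arcs.
`mn E f` : mean over the subsets of `E`. `mean_eq` : **the conjugate of the mean of 73's functional `VU` is a sum
of affine functions of the values `FT` of the S-property**; the matchings and the coefficients depend only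
on the outside. `wlim_VU` : its box averages converge to a holomorphic function. -/

namespace Pool.Agent.H25.W

open Pool.Agent.H13.W Pool.Agent.H33.Q1 Pool.Agent.H21.W Pool.Agent.H20.W Pool.Agent.H99.W
open Pool.Agent.H54.W (CD)
open Pool.Agent.H74.W (tau)
open Pool.Agent.H75.Perc (Pr Pr_eq)
open Pool.Agent.H73.W (ph ph_inv ph_sq ph_ne ph_norm NX Rt Outs Ins VU VP Fam VU_expand)
open Pool.Agent.H47.W (sgp Act)
open Pool.Agent.H29.W (reach_sup_iff)

variable {C : CD} {c0 : Bool} {n c : ℤ} {v : ℤ × ℤ} {ω : Finset (ℤ × ℤ)}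

/-- the link structure of a configuration of the room with the links `Θ` -/
noncomputable def lko (R : RIn C c0 n v ω) {Θ : Na C c0 → Na C c0} (h : ∀ e, Θ (Θ e) = e) :
    Lk (Na C c0) := ⟨sg C c0 n v ω, Θ, R.act.inv, h⟩

namespace PlO

variable {M x3 x4 : Nm C c0} {Θ : Na C c0 → Na C c0} (P : PlO c M x3 x4 Θ) (R : RIn C c0 n v ω)

lemma th_adj {a b : ℤ × ℤ} (h : (P.th.G n).Adj a b) : ∃ k : Nm C c0,
    a = crn C c0 n v (some k) ∧ b = crn C c0 n v (Θ (some k)) := by
  unfold Th.G at h
  rw [SimpleGraph.fromRel_adj] at h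
  obtain ⟨-, ⟨k, h1, h2, h3⟩ | ⟨k, h1, h2, h3⟩⟩ := h
  · have hk := (mem_MkF C c0).2 h1
    refine ⟨⟨k, hk⟩, h2, ?_⟩
    rw [P.pm_some]
    exact h3
  · have hk := (mem_MkF C c0).2 h1
    refine ⟨⟨pm Θ k, pm_mem Θ hk⟩, h3, ?_⟩
    have := P.out.inv (some ⟨k, hk⟩)
    rw [P.pm_some] at this
    rw [this]
    exact h2

lemma adj_th {k : Nm C c0} (hne : crn C c0 n v (some k) ≠ crn C c0 n v (Θ (some k))) :
    (P.th.G n).Adj (crn C c0 n v (some k)) (crn C c0 n v (Θ (some k))) := by
  unfold Th.G
  rw [SimpleGraph.fromRel_adj]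
  refine ⟨hne, Or.inl ⟨k.1, (mem_MkF C c0).1 k.2, rfl, ?_⟩⟩
  rw [P.pm_some]
  rfl

include R in
lemma crn_inj {x y : Na C c0} (h : crn C c0 n v x = crn C c0 n v y) : x = y :=
  R.act.inj x y trivial trivial h

lemma th_reach {x : Na C c0} {b : ℤ × ℤ} (h : (P.th.G n).Reachable (crn C c0 n v x) b) :
    ∃ y, b = crn C c0 n v y ∧ (lko R P.out.inv).G.Reachable x y := by
  obtain ⟨p⟩ := h
  have key : ∀ (a b : ℤ × ℤ) (_ : (P.th.G n).Walk a b) (x : Na C c0), a = crn C c0 n v x →
      ∃ y, b = crn C c0 n v y ∧ (lko R P.out.inv).G.Reachable x y := by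
    intro a b p
    induction p with
    | nil => exact fun x hx => ⟨x, hx, SimpleGraph.Reachable.refl _⟩
    | @cons a d b h _ ih =>
      intro x hx
      obtain ⟨k, h1, h2⟩ := P.th_adj (v := v) h
      have hxk : x = some k := crn_inj R (hx.symm.trans h1)
      obtain ⟨y, h3, h4⟩ := ih _ h2
      refine ⟨y, h3, SimpleGraph.Reachable.trans ?_ h4⟩
      rw [hxk]
      by_cases he : Θ (some k) = some k
      · rw [he]
      · have : (lko R P.out.inv).G.Adj (some k) (Θ (some k)) :=
          ⟨fun e => he e.symm, Or.inr rfl⟩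
        exact this.reachable
  exact key _ _ p x rfl

/-- **The room graph with the arcs.** -/
theorem reach (x y : Na C c0) : (GT P.th n v ω).Reachable (crn C c0 n v x) (crn C c0 n v y) ↔
    (lko R P.out.inv).G.Reachable x y := by
  unfold GT
  rw [reach_sup_iff (S := Set.range (crn C c0 n v))
    (fun u a b _ hb => by obtain ⟨k, h1, -⟩ := P.th_adj (v := v) hb; exact ⟨_, h1.symm⟩)
    ⟨x, rfl⟩ ⟨y, rfl⟩]
  constructor
  · intro h
    have key : ∀ a b : ℤ × ℤ, Relation.ReflTransGen (fun a b => a ∈ Set.range (crn C c0 n v) ∧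
        b ∈ Set.range (crn C c0 n v) ∧ ((GR C c0 n v ω).Reachable a b ∨
        (P.th.G n).Reachable a b)) a b → ∀ x, a = crn C c0 n v x →
        ∃ y, b = crn C c0 n v y ∧ (lko R P.out.inv).G.Reachable x y := by
      intro a b h
      induction h with
      | refl => exact fun x hx => ⟨x, hx, SimpleGraph.Reachable.refl _⟩
      | @tail d e _ hs ih =>
        intro x hx
        obtain ⟨y, h1, h2⟩ := ih x hx
        obtain ⟨-, ⟨u, hu⟩, h3⟩ := hs
        rcases h3 with h3 | h3
        · refine ⟨u, hu.symm, h2.trans ?_⟩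
          rw [h1, ← hu] at h3
          rcases (R.act.reach trivial trivial).1 h3 with h4 | h4
          · rw [h4]
          · have h5 : sg C c0 n v ω y ≠ y := (R.act.alive y).2 trivial
            have h6 : (lko R P.out.inv).G.Adj y u := by
              refine ⟨fun e => h5 ?_, Or.inl h4.symm⟩
              show sgp _ _ _ y = y
              rw [← h4, e]
            exact h6.reachable
        · rw [h1] at h3
          obtain ⟨y', h4, h5⟩ := P.th_reach R h3
          exact ⟨y', h4, h2.trans h5⟩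
    obtain ⟨y', h1, h2⟩ := key _ _ h x rfl
    rw [crn_inj R h1]
    exact h2
  · rintro ⟨p⟩
    induction p with
    | nil => exact Relation.ReflTransGen.refl
    | @cons a d b h _ ih =>
      refine Relation.ReflTransGen.head ⟨⟨a, rfl⟩, ⟨d, rfl⟩, ?_⟩ ih
      obtain ⟨h1, h2 | h2⟩ := h
      · left
        have := (R.act.sgp_mem (a := a) trivial).2.2
        have e : sgp (GR C c0 n v ω) (fun _ => True) (crn C c0 n v) a = d := h2
        rwa [e] at this
      · right
        have e : Θ a = d := h2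
        cases a with
        | none => exact absurd (e.symm.trans P.z).symm h1
        | some k =>
          rw [← e]
          exact (P.adj_th (v := v) (fun h' => h1 (e ▸ crn_inj R h'))).reachable

/-! ### The value -/

lemma far_mem : (lko R P.out.inv).far none = some M ∨ (lko R P.out.inv).far none = some x3 ∨
    (lko R P.out.inv).far none = some x4 := by
  have hz : (lko R P.out.inv).θ none = none := P.z
  have hz' : (lko R P.out.inv).σ none ≠ none := (R.act.alive none).2 trivial
  have h1 := Lk.far_θ hz hz' (fun e _ => (R.act.alive e).2 trivial)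
  have h2 := (Lk.far_spec hz hz').1
  rcases P.al _ h1 with h | h | h | h
  · exact absurd h h2
  · exact Or.inl h
  · exact Or.inr (Or.inl h)
  · exact Or.inr (Or.inr h)

lemma reach_far {k : Nm C c0} (hk : Θ (some k) = some k) :
    (lko R P.out.inv).G.Reachable none (some k) ↔ (lko R P.out.inv).far none = some k := by
  have hz : (lko R P.out.inv).θ none = none := P.z
  have hz' : (lko R P.out.inv).σ none ≠ none := (R.act.alive none).2 trivial
  constructor
  · exact fun h => Lk.far_eq hz hz' (by simp) (Or.inr hk) h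
  · intro h
    rw [← h]
    exact (Lk.far_spec hz hz').2.2

end PlO

lemma ph_pow_two : ph ^ 2 = ph - 1 := by rw [sq]; exact ph_sq

lemma tau_ph : tau = ph - 1 := by
  have : tau = ph ^ 2 := by
    unfold tau ph
    rw [← Complex.exp_nat_mul]
    congr 1
    push_cast
    ring
  rw [this, ph_pow_two]

lemma tau_sq_ph : tau ^ 2 = -ph := by
  rw [tau_ph]
  linear_combination ph_pow_two

lemma tau_cu : tau ^ 3 = 1 := Pool.Agent.H74.W.tau_cube

lemma conj_ph : (starRingEnd ℂ) ph = 1 - ph := by
  have h := ph_norm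
  have h1 : ph * (starRingEnd ℂ) ph = 1 := by
    rw [Complex.mul_conj, Complex.normSq_eq_norm_sq, h]
    norm_num
  rw [← ph_inv]
  exact eq_inv_of_mul_eq_one_right h1

/-- slope -/
noncomputable def yb : ℂ := (1 - 2 * ph) / 3
/-- intercept -/
noncomputable def ya : ℂ := (2 - ph) / 3

/-- exponent of the rotation -/
def rr (c : ℤ) (x3 x4 : Nm C c0) : ℕ := if x4.1 ≤ c then 0 else if x3.1 ≤ c then 2 else 1

open Classical in
/-- **The plane functional of 73 and the value of the S-property.** -/
theorem PlO.conj_VP {M x3 x4 : Nm C c0} {Θ : Na C c0 → Na C c0} (P : PlO c M x3 x4 Θ)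
    (R : RIn C c0 n v ω) :
    (starRingEnd ℂ) (VP (lko R P.out.inv) (some x3) (some x4) (ph * 1 + ph⁻¹ * 0) 1 0 none) =
      ya + yb * tau ^ rr c x3 x4 * ∑ j : Fin 3, tau ^ (j : ℕ) *
        (if (GT P.th n v ω).Reachable (eW (lt v)) (nm C c0 n (P.th.x j)) then 1 else 0) := by
  have r1 := P.reach R none (some M)
  have r3 := P.reach R none (some x3)
  have r4 := P.reach R none (some x4)
  rw [P.reach_far R P.out.fm] at r1
  rw [P.reach_far R P.out.f3] at r3
  rw [P.reach_far R P.out.f4] at r4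
  have d1 : (some M : Na C c0) ≠ some x3 := fun e => by
    have := P.out.m3; rw [e] at this; omega
  have d2 : (some M : Na C c0) ≠ some x4 := fun e => by
    have := P.out.m3; have := P.out.o34; rw [e] at *; omega
  have d3 : (some x3 : Na C c0) ≠ some x4 := fun e => by
    have := P.out.o34; rw [e] at this; omega
  have t1 := tau_ph
  have t2 := tau_sq_ph
  have t3 := tau_cu
  have p2 := ph_pow_two
  have q1 : (GT P.th n v ω).Reachable (eW (lt v)) (nm C c0 n M.1) ↔
      (lko R P.out.inv).far none = some M := r1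
  have q3 : (GT P.th n v ω).Reachable (eW (lt v)) (nm C c0 n x3.1) ↔
      (lko R P.out.inv).far none = some x3 := r3
  have q4 : (GT P.th n v ω).Reachable (eW (lt v)) (nm C c0 n x4.1) ↔
      (lko R P.out.inv).far none = some x4 := r4
  have hsum : tau ^ rr c x3 x4 * ∑ j : Fin 3, tau ^ (j : ℕ) *
      (if (GT P.th n v ω).Reachable (eW (lt v)) (nm C c0 n (P.th.x j)) then 1 else 0) =
      (if (lko R P.out.inv).far none = some M then 1 else 0) +
      tau * (if (lko R P.out.inv).far none = some x3 then 1 else 0) +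
      tau ^ 2 * (if (lko R P.out.inv).far none = some x4 then (1 : ℂ) else 0) := by
    have hx : P.th.x = xs c M x3 x4 := rfl
    rw [hx]
    simp only [Fin.sum_univ_three]
    unfold xs rr
    by_cases e4 : x4.1 ≤ c
    · simp only [if_pos e4, Matrix.cons_val_zero, Matrix.cons_val_one, Matrix.cons_val_two,
        Matrix.head_cons, Matrix.tail_cons, q1, q3, q4]
      simp
    · by_cases e3 : x3.1 ≤ c
      · simp only [if_neg e4, if_pos e3, Matrix.cons_val_zero, Matrix.cons_val_one,
          Matrix.cons_val_two, Matrix.head_cons, Matrix.tail_cons, q1, q3, q4]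
        simp only [Fin.val_zero, Fin.val_one, Fin.val_two, pow_zero, pow_one]
        linear_combination ((if (lko R P.out.inv).far none = some M then (1:ℂ) else 0) +
          tau * (if (lko R P.out.inv).far none = some x3 then 1 else 0)) * t3
      · simp only [if_neg e4, if_neg e3, Matrix.cons_val_zero, Matrix.cons_val_one,
          Matrix.cons_val_two, Matrix.head_cons, Matrix.tail_cons, q1, q3, q4]
        simp only [Fin.val_zero, Fin.val_one, Fin.val_two, pow_zero, pow_one]
        linear_combination (if (lko R P.out.inv).far none = some M then (1:ℂ) else 0) * t3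
  rw [mul_assoc, hsum]
  unfold VP
  rcases P.far_mem R with h | h | h
  · rw [h, if_neg d1, if_neg d2, if_pos rfl, if_neg d1, if_neg d2]
    simp only [mul_one, mul_zero, add_zero]
    rw [conj_ph]
    unfold ya yb
    ring
  · rw [h, if_pos rfl, if_neg d1.symm, if_pos rfl, if_neg d3]
    simp only [map_one, mul_one, mul_zero, add_zero, zero_add]
    unfold ya yb
    rw [t1]
    linear_combination (2 / 3 : ℂ) * p2
  · rw [h, if_neg d3.symm, if_pos rfl, if_neg d2.symm, if_neg d3.symm, if_pos rfl]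
    simp only [map_zero, mul_one, mul_zero, add_zero, zero_add]
    unfold ya yb
    rw [t2]
    linear_combination (-2 / 3 : ℂ) * p2

/-! ### Means -/

/-- mean over the subsets of `E` -/
noncomputable def mn (E : Finset (ℤ × ℤ)) (f : Finset (ℤ × ℤ) → ℂ) : ℂ :=
  (∑ ω ∈ E.powerset, f ω) / 2 ^ E.card

open Classical in
lemma Pr_mn (E : Finset (ℤ × ℤ)) (A : Finset (ℤ × ℤ) → Prop) :
    (Pr E A : ℂ) = mn E (fun ω => if A ω then 1 else 0) := by
  unfold mn
  rw [Pr_eq]
  push_cast
  rw [Finset.sum_boole]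

lemma mn_congr {E : Finset (ℤ × ℤ)} {f g : Finset (ℤ × ℤ) → ℂ} (h : ∀ ω ⊆ E, f ω = g ω) :
    mn E f = mn E g := by
  unfold mn
  rw [Finset.sum_congr rfl fun ω hω => h ω (mem_powerset.1 hω)]

lemma mn_const (E : Finset (ℤ × ℤ)) (a : ℂ) : mn E (fun _ => a) = a := by
  unfold mn
  rw [sum_const, card_powerset, nsmul_eq_mul]
  push_cast
  field_simp

lemma mn_add (E : Finset (ℤ × ℤ)) (f g : Finset (ℤ × ℤ) → ℂ) :
    mn E (fun ω => f ω + g ω) = mn E f + mn E g := by
  unfold mn
  rw [sum_add_distrib, add_div]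

lemma mn_mul (E : Finset (ℤ × ℤ)) (a : ℂ) (f : Finset (ℤ × ℤ) → ℂ) :
    mn E (fun ω => a * f ω) = a * mn E f := by
  unfold mn
  rw [← mul_sum, mul_div_assoc]

lemma mn_sum {ι : Type*} (s : Finset ι) (E : Finset (ℤ × ℤ)) (f : ι → Finset (ℤ × ℤ) → ℂ) :
    mn E (fun ω => ∑ i ∈ s, f i ω) = ∑ i ∈ s, mn E (f i) := by
  unfold mn
  rw [sum_comm, sum_div]

lemma mn_conj (E : Finset (ℤ × ℤ)) (f : Finset (ℤ × ℤ) → ℂ) :
    (starRingEnd ℂ) (mn E f) = mn E (fun ω => (starRingEnd ℂ) (f ω)) := by
  unfold mn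
  rw [map_div₀, map_sum, map_pow, map_ofNat]

/-- **The mean of the junction functional**, conjugated. -/
theorem mean_eq {m x3 x4 : Nm C c0} {θ : Na C c0 → Na C c0} (O : OutY c m x3 x4 θ) :
    ∃ (ι : Type) (_ : Fintype ι) (θ' : ι → Th C c0) (a b : ι → ℂ), ∀ (n : ℤ) (v : ℤ × ℤ),
      (∀ ω ⊆ ER C n, RIn C c0 n v ω) → ∀ f : Finset (ℤ × ℤ) → ℂ,
      (∀ ω ⊆ ER C n, ∀ R : RIn C c0 n v ω,
        f ω = VU (lko R O.out.inv) (py C c0 c) (some m) (some x3) (some x4) 1 0 none) →
      (starRingEnd ℂ) (mn (ER C n) f) = ∑ i, (a i + b i * FT (θ' i) n v) := by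
  classical
  set A : Set (Na C c0) := {y | θ y ≠ y ∨ y = some m} with hA
  have hnz : ∀ y ∈ A, y ≠ none := by
    rintro y (h | h) e
    · exact h (e ▸ O.z)
    · rw [e] at h; simp at h
  have hinj : Set.InjOn (py C c0 c) A := fun x hx y hy h => py_inj (hnz x hx) (hnz y hy) h
  obtain ⟨F, hF⟩ := VU_expand hinj (univ.filter fun y => Rt (py C c0 c) θ (some m) y).card
    (some m) θ O.out (fun y => Iff.rfl) rfl
  have hP : ∀ i : F.ι, ∃ k : Nm C c0, F.M i = some k ∧ PlO c k x3 x4 (F.Θ i) := fun i =>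
    plO_of O (F.out i) (F.pl i) (fun y => F.al i y)
  choose k hk P using hP
  refine ⟨F.ι, F.fin, fun i => (P i).th, fun i => (starRingEnd ℂ) (F.c i) * ya,
    fun i => (starRingEnd ℂ) (F.c i) * (yb * tau ^ rr c x3 x4), ?_⟩
  intro n v hR f hf
  rw [mn_conj]
  have e1 : ∀ ω ⊆ ER C n, (starRingEnd ℂ) (f ω) = ∑ i, (starRingEnd ℂ) (F.c i) *
      (ya + yb * tau ^ rr c x3 x4 * ∑ j : Fin 3, tau ^ (j : ℕ) *
        (if (GT (P i).th n v ω).Reachable (eW (lt v)) (nm C c0 n ((P i).th.x j)) then 1 else 0)) := by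
    intro ω hω
    have R := hR ω hω
    rw [hf ω hω R]
    have h1 := hF (sg C c0 n v ω) none (ins_of R O) 1 0
    have h2 : VU (lko R O.out.inv) (py C c0 c) (some m) (some x3) (some x4) 1 0 none =
        ∑ i, F.c i * VP (lko R (P i).out.inv) (some x3) (some x4) (ph * 1 + ph⁻¹ * 0) 1 0 none := h1
    rw [h2, map_sum]
    refine Finset.sum_congr rfl fun i _ => ?_
    rw [map_mul, (P i).conj_VP R]
  rw [mn_congr e1, mn_sum]
  refine Finset.sum_congr rfl fun i _ => ?_
  have e2 : mn (ER C n) (fun ω => ∑ j : Fin 3, tau ^ (j : ℕ) *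
      (if (GT (P i).th n v ω).Reachable (eW (lt v)) (nm C c0 n ((P i).th.x j)) then 1 else 0)) =
      FT (P i).th n v := by
    rw [mn_sum]
    unfold FT
    refine Finset.sum_congr rfl fun j _ => ?_
    rw [mn_mul, Pr_mn]
  rw [mn_mul, mn_add, mn_const, mn_mul, e2]
  ring

end Pool.Agent.H25.W
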