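import Mathlib
import Pool.Agent.H25.W.JY2
import Pool.Agent.H61.W.Avg

set_option autoImplicit false

/-! # The box averages of the junction functional

`wlim_VU` : from the S-property `StS`, the box averages of the conjugate of the mean of 73's functional `VU` converge
to a holomorphic function, for a fixed outside `OutY`. -/

namespace Pool.Agent.H25.W

open Filter Topology
open Pool.Agent.H13.W Pool.Agent.H33.Q1 Pool.Agent.H21.W Pool.Agent.H20.W Pool.Agent.H99.W
open Pool.Agent.H54.W (CD)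
open Pool.Agent.H44.W (WLim)
open Pool.Agent.H61.W (wlim_const)
open Pool.Agent.Q1.M4 (lat)
open Pool.Agent.H73.W (VU)

variable {C : CD} {c0 : Bool} {c : ℤ}

/-- **Limit of the junction functional.** -/
theorem wlim_VU (H : StS) {m x3 x4 : Nm C c0} {θ : Na C c0 → Na C c0} (O : OutY c m x3 x4 θ)
    (n : ℕ → ℤ) (he : ∀ j, n j % 2 = 0) (hn : Tendsto n atTop atTop) (U : Ultrafilter ℕ)
    (hU : (U : Filter ℕ) ≤ atTop) : ∃ g : ℂ → ℂ, DifferentiableOn ℂ g (OmC C) ∧
      ∀ f : ℕ → ℤ × ℤ → Finset (ℤ × ℤ) → ℂ,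
      (∀ K ⊆ OmC C, IsCompact K → ∀ᶠ j in (U : Filter ℕ), ∀ v : ℤ × ℤ,
        lat v / ((n j : ℝ) : ℂ) ∈ K → (∀ ω ⊆ ER C (n j), RIn C c0 (n j) v ω) ∧
          ∀ ω ⊆ ER C (n j), ∀ R : RIn C c0 (n j) v ω,
            f j v ω = VU (lko R O.out.inv) (py C c0 c) (some m) (some x3) (some x4) 1 0 none) →
      WLim (fun j => (n j : ℝ)) U (OmC C)
        (fun j v => (starRingEnd ℂ) (mn (ER C (n j)) (f j v))) g := by
  obtain ⟨ι, hι, θ', a, b, hab⟩ := mean_eq O
  have hg : ∀ i, ∃ g : ℂ → ℂ, DifferentiableOn ℂ g (OmC C) ∧ (∀ z ∈ OmC C, ‖g z‖ ≤ 1) ∧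
      WLim (fun j => (n j : ℝ)) U (OmC C) (fun j => FT (θ' i) (n j)) g := fun i =>
    H C c0 (θ' i) n he hn U hU
  choose g g1 g2 g3 using hg
  have hR : Tendsto (fun j => (n j : ℝ)) (U : Filter ℕ) atTop :=
    (tendsto_intCast_atTop_atTop.comp hn).mono_left hU
  refine ⟨fun z => ∑ i, (a i + b i * g i z), ?_, ?_⟩
  · exact DifferentiableOn.fun_sum fun i _ => ((g1 i).const_mul (b i)).const_add (a i)
  · intro f hf
    have h1 : WLim (fun j => (n j : ℝ)) U (OmC C) (fun _ _ => ∑ i, a i) (fun _ => ∑ i, a i) :=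
      wlim_const hR tendsto_const_nhds
    have h2 := Pool.Agent.H61.W.WLim.sum (Finset.univ : Finset ι) b (f := fun i j => FT (θ' i) (n j)) (g := g)
      (R := fun j => (n j : ℝ)) (F := U) (Ω := OmC C) (fun i _ => g3 i)
    have h3 := Pool.Agent.H61.W.WLim.sum (Finset.univ : Finset Bool) (fun _ => 1)
      (f := fun s j v => if s then ∑ i, a i else ∑ i, b i * FT (θ' i) (n j) v)
      (g := fun s z => if s then ∑ i, a i else ∑ i, b i * g i z)
      (R := fun j => (n j : ℝ)) (F := U) (Ω := OmC C) (fun s _ => by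
        cases s
        · simpa using h2
        · simpa using h1)
    have h4 : WLim (fun j => (n j : ℝ)) U (OmC C) (fun j v => ∑ i, (a i + b i * FT (θ' i) (n j) v))
        (fun z => ∑ i, (a i + b i * g i z)) := by
      simp only [Fintype.sum_bool, one_mul, if_true, Bool.false_eq_true, if_false] at h3
      simpa only [Finset.sum_add_distrib] using h3
    refine Pool.Agent.H61.W.WLim.congr_small hR (OmC_open C) h4 ?_
    intro K hK hKc ε hε
    filter_upwards [hf K hK hKc] with j hj v hv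
    obtain ⟨h5, h6⟩ := hj v hv
    rw [hab (n j) v h5 (f j v) h6, sub_self, norm_zero]
    exact hε.le

end Pool.Agent.H25.W
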