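import Mathlib
import Pool.Agent.H25.W.JY3
import Pool.Agent.H61.W.JX
import Pool.Agent.H21.W.JInst

set_option autoImplicit false
open Finset

/-! # J4: the marks of the `Y` worlds, `KeyY`, the outside `OutY`

`CY`, `c0Y` : coarse data of the room of the `Y` worlds (mark between the plates `k - 1` and `k` on the bank `s` of
`P`, `x1 = - k M n`). `mk1 b s k` : the corner of this gap which is a mark, `mmY b s k` : the links of the marks
(upper corner ~ lower corner of a gap with two colours; the corners `kn q` and `mk1` are not linked).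
`GM mm` : the room graph with the arcs `mm` (`GT θ = GM θ.m`). `KeyY σ` : pointwise key of the `Y` worlds.
`RInAll` : the ends of a room are joined in pairs without crossings. `mkY_iff` : list of the marks. `outY` : the
outside of the `Y` worlds. -/

namespace Pool.Agent.H25.W

open Pool.Agent.Q1.M4 (lat)
open Pool.Agent.H6.W Pool.Agent.H21.W Pool.Agent.H20.W Pool.Agent.H33.Q1 Pool.Agent.H61.W
open Pool.Agent.H54.W (CD)
open Pool.Agent.H73.W (NX Rt Outs)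
open Pool.Agent.H13.W

/-- the room graph with the arcs `mm` -/
noncomputable def GM (C : CD) (c0 : Bool) (mm : ℤ → ℤ) (n : ℤ) (v : ℤ × ℤ) (ω : Finset (ℤ × ℤ)) :
    SimpleGraph (ℤ × ℤ) :=
  GR C c0 n v ω ⊔ SimpleGraph.fromRel fun a b => ∃ k, Mk C c0 k ∧ a = nm C c0 n k ∧ b = nm C c0 n (mm k)

lemma GM_th {C : CD} {c0 : Bool} (θ : Th C c0) : GM C c0 θ.m = GT θ := rfl

/-- **The ends of a room are joined in pairs, without crossings** (`v` in the room with a margin). -/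
def RInAll : Prop := ∀ (C : CD) (c0 : Bool), ∃ n0 : ℤ, ∀ n : ℤ, n0 ≤ n → n % 2 = 0 → ∀ v : ℤ × ℤ,
  (∀ u : ℤ × ℤ, |u.1 - v.1| ≤ 3 → |u.2 - v.2| ≤ 3 → lt u ∈ ER C n) → ∀ ω ⊆ ER C n, RIn C c0 n v ω

variable {b : JBox} {δ σ : ℝ} {h : ℕ} {w s o : Bool} {cl : Fin (nP b) → Bool} {M : Finset (Bool × ℕ)} {k : ℕ}

/-- coarse data of the room of the `Y` worlds -/
def CY (b : JBox) (w s o : Bool) (cl : Fin (nP b) → Bool) (M : Finset (Bool × ℕ)) (hb : b.Ok δ σ) (hd : δ ≤ 1)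
    {k : ℕ} (hk : 1 ≤ k) : CD := cdY hb hd w s hk M 0 o cl

/-- colour of the right wall below the exit -/
def c0Y (w s : Bool) (M : Finset (Bool × ℕ)) : Bool :=
  bsP w s ^^ par (M.filter fun c => c.1 = true).card ^^ true

/-- the corner with the mark of `P` -/
def mk1 (b : JBox) (s : Bool) (k : ℕ) : ℤ := if s then gapU b (k - 1) else gapL b (k - 1)

/-- the links of the marks -/
def mmY (b : JBox) (s : Bool) (k : ℕ) (x : ℤ) : ℤ :=
  if Ht b - b.H < x ∧ x < Ht b + b.H ∧ x ≠ mk1 b s k then 2 * Ht b - x else x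

/-- the room graph of the `Y` worlds with the arcs -/
noncomputable def GMY (b : JBox) (w s o : Bool) (cl : Fin (nP b) → Bool) (c3 c4 : Bool × ℕ)
    (hb : b.Ok δ σ) (hd : δ ≤ 1) {k : ℕ} (hk : 1 ≤ k) (h : ℕ) (v : ℤ × ℤ) (ω : Finset (ℤ × ℤ)) :
    SimpleGraph (ℤ × ℤ) :=
  GM (CY b w s o cl {c3, c4} hb hd hk) (c0Y w s {c3, c4}) (mmY b s k) (2 * h) (upv b h v) ω

/-- names in the `Y` worlds -/
def nmY (b : JBox) (w s o : Bool) (cl : Fin (nP b) → Bool) (c3 c4 : Bool × ℕ)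
    (hb : b.Ok δ σ) (hd : δ ≤ 1) {k : ℕ} (hk : 1 ≤ k) (h : ℕ) (x : ℤ) : ℤ × ℤ :=
  nm (CY b w s o cl {c3, c4} hb hd hk) (c0Y w s {c3, c4}) (2 * h) x

/-- **Pointwise key of the `Y` worlds.** (`b.m ≤ nP b` : the chunk `P` does not reach through the left wall.) -/
def KeyY (σ : ℝ) : Prop := ∀ (b : JBox) (δ : ℝ) (hb : b.Ok δ σ) (hd : δ ≤ 1), b.m ≤ nP b → ∀ (w s o : Bool)
  (cl : Fin (nP b) → Bool) (k : ℕ) (hk : 1 ≤ k), k < b.m → ∀ c3 c4 : Bool × ℕ, c3 ≠ c4 → c3.2 < b.K →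
  c4.2 < b.K → ∀ K : Set ℂ, K ⊆ Ur b → IsCompact K → ∃ h0 : ℕ, ∀ h : ℕ, h0 ≤ h → ∀ v : ℤ × ℤ,
    lat v / ((2 * h * b.H : ℝ) : ℂ) ∈ K → ∀ x1 : ℤ, x1 = -(k * b.M * (2 * h)) →
    ∀ ω ⊆ ER (CY b w s o cl {c3, c4} hb hd hk) (2 * h),
      (∀ q : Bool × ℕ, q = c3 ∨ q = c4 →
        (RF b (2 * h) (GY b h w s x1 c3 c4 v o (shR b h ω ∪ plt b h cl)) (zc v) q ↔
          (GMY b w s o cl c3 c4 hb hd hk h v ω).Reachable (eW (lt (upv b h v)))
            (nmY b w s o cl c3 c4 hb hd hk h (kn b q)))) ∧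
      ((GY b h w s x1 c3 c4 v o (shR b h ω ∪ plt b h cl)).Reachable (zc v) (mc s x1) ↔
        (GMY b w s o cl c3 c4 hb hd hk h v ω).Reachable (eW (lt (upv b h v)))
          (nmY b w s o cl c3 c4 hb hd hk h (mk1 b s k))) ∧
      ((GMY b w s o cl c3 c4 hb hd hk h v ω).Reachable (eW (lt (upv b h v)))
          (nmY b w s o cl c3 c4 hb hd hk h (mk1 b s k)) →
        ¬ (GMY b w s o cl c3 c4 hb hd hk h v ω).Reachable
          (nmY b w s o cl c3 c4 hb hd hk h (kn b (fst2 b c3 c4)))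
          (nmY b w s o cl c3 c4 hb hd hk h (mk1 b s k)) →
        cntY b h s x1 c3 c4 (GY b h w s x1 c3 c4 v o (shR b h ω ∪ plt b h cl)) =
          Set.ncard {i : ℕ | k ≤ i ∧ i < nP b ∧
            Mk (CY b w s o cl {c3, c4} hb hd hk) (c0Y w s {c3, c4}) (gapU b i) ∧
            (GMY b w s o cl c3 c4 hb hd hk h v ω).Reachable
              (nmY b w s o cl c3 c4 hb hd hk h (kn b (fst2 b c3 c4)))
              (nmY b w s o cl c3 c4 hb hd hk h (gapU b i))})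

end Pool.Agent.H25.W
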