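import Mathlib
import Pool.Agent.H25.W.JY4
import Pool.Agent.H29.W.RoomP

set_option autoImplicit false
open Finset

/-! # J4: the field `act` of `RIn`

`act_of` : in the room graph every name is joined to exactly one other name (29's `act_room` with the names
`Na C c0`). `rIn_of_nc` : `RIn` from the absence of crossings. -/

namespace Pool.Agent.H25.W

open Pool.Agent.H13.W Pool.Agent.H33.Q1 Pool.Agent.H21.W Pool.Agent.H20.W Pool.Agent.H29.W
open Pool.Agent.H54.W (CD)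
open Pool.Agent.H73.W (NX)
open Pool.Agent.H47.W (sgp Act)

variable {C : CD} {c0 : Bool} {n : ℤ} {v : ℤ × ℤ} {ω : Finset (ℤ × ℤ)}

/-- **The field `act`.** -/
theorem act_of (hn : 8 ≤ n) (he : n % 2 = 0) (hr0 : 0 < v.2) (hr1 : v.2 + 1 < n * C.H)
    (hx0 : n * C.A (v.2 / n) ≤ v.1) (hx1 : v.1 ≤ n * C.W) (hω : ω ⊆ ER C n) :
    Act (GR C c0 n v ω) (fun _ => True) (crn C c0 n v) := by
  have hc : CrOk (crz c0 v.2) c0 v.2 := by
    constructor
    · intro y hy; unfold crz; rw [if_pos hy]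
    · intro y hy; unfold crz; rw [if_neg (by omega)]
  have A := act_room hn he hc hr0 hr1 hx0 hx1 hω
  -- the map of names
  set f : Na C c0 → Option ℤ := Option.map Subtype.val with hf
  have hA : ∀ a, An C c0 (f a) := by
    rintro (_ | k)
    · exact trivial
    · exact (mem_MkF C c0).1 k.2
  have hcn : ∀ a, cn C n v.1 v.2 c0 (f a) = crn C c0 n v a := by
    rintro (_ | k) <;> rfl
  have hinj : Function.Injective f := Option.map_injective Subtype.val_injective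
  have hsur : ∀ b, An C c0 b → ∃ a, f a = b := by
    rintro (_ | k) hb
    · exact ⟨none, rfl⟩
    · exact ⟨some ⟨k, (mem_MkF C c0).2 hb⟩, rfl⟩
  exact {
    deg := A.deg
    ie := fun a _ => hcn a ▸ A.ie _ (hA a)
    inj := fun a b _ _ h => hinj (A.inj _ _ (hA a) (hA b) (by rw [hcn, hcn, h]))
    pt := fun a _ => by
      obtain ⟨b, h1, h2, h3⟩ := A.pt _ (hA a)
      obtain ⟨a', rfl⟩ := hsur b h1
      refine ⟨a', trivial, fun e => h2 (by rw [e]), ?_⟩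
      rw [hcn, hcn] at h3
      exact h3 }

/-- **`RIn` from the absence of crossings.** -/
theorem rIn_of_nc (hn : 8 ≤ n) (he : n % 2 = 0) (hr0 : 0 < v.2) (hr1 : v.2 + 1 < n * C.H)
    (hx0 : n * C.A (v.2 / n) ≤ v.1) (hx1 : v.1 ≤ n * C.W) (hω : ω ⊆ ER C n)
    (nc : ∀ x y : Na C c0, x ≠ none → x ≠ sg C c0 n v ω none → y ≠ none → y ≠ sg C c0 n v ω none →
      NX (pk C c0) (sg C c0 n v ω) x y) : RIn C c0 n v ω :=
  ⟨act_of hn he hr0 hr1 hx0 hx1 hω, nc⟩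

/-- the absence of crossings in a room (helper1) -/
def NCAll : Prop := ∀ (C : CD) (c0 : Bool), ∃ n0 : ℤ, ∀ n : ℤ, n0 ≤ n → n % 2 = 0 → ∀ v : ℤ × ℤ,
  0 < v.2 → v.2 + 1 < n * C.H → n * C.A (v.2 / n) ≤ v.1 → v.1 < n * C.W → ∀ ω ⊆ ER C n,
  ∀ x y : Na C c0, x ≠ none → x ≠ sg C c0 n v ω none → y ≠ none → y ≠ sg C c0 n v ω none →
      NX (pk C c0) (sg C c0 n v ω) x y

/-- a tile with a margin is far from the boundary of the room -/
lemma margin (hn : 0 < n) (h : ∀ u : ℤ × ℤ, |u.1 - v.1| ≤ 3 → |u.2 - v.2| ≤ 3 → lt u ∈ ER C n) :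
    0 < v.2 ∧ v.2 + 1 < n * C.H ∧ n * C.A (v.2 / n) ≤ v.1 ∧ v.1 < n * C.W := by
  have h0 := (mem_ER hn).1 (h (v.1, v.2) (by simp) (by simp))
  have h1 := (mem_ER hn).1 (h (v.1, v.2 - 1) (by simp) (by simp))
  have h2 := (mem_ER hn).1 (h (v.1, v.2 + 1) (by simp) (by simp))
  obtain ⟨a1, a2, a3, a4⟩ := h0
  obtain ⟨b1, b2, b3, b4⟩ := h1
  obtain ⟨c1, c2, c3, c4⟩ := h2
  exact ⟨by omega, by omega, a3, a4⟩

theorem rInAll_of (H : NCAll) : RInAll := by
  intro C c0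
  obtain ⟨n0, H0⟩ := H C c0
  refine ⟨max n0 8, fun n hn he v hv ω hω => ?_⟩
  have h1 : n0 ≤ n := (le_max_left _ _).trans hn
  have h2 : 8 ≤ n := (le_max_right _ _).trans hn
  obtain ⟨a1, a2, a3, a4⟩ := margin (by omega) hv
  exact rIn_of_nc h2 he a1 a2 a3 a4.le hω (H0 n h1 he v a1 a2 a3 a4 ω hω)

end Pool.Agent.H25.W
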