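import Mathlib
import Pool.Agent.Q1.M6a.WClosed
import Pool.Agent.H75.Four.FRot
import Pool.Agent.H33.Q1.Tile

set_option autoImplicit false
open Finset

/-! # Rotation of an environment by a right angle

`rotE X` : the environment `X` rotated by a right angle (`rotL` on labels, `rotc` on corners). The increments of
`rotE X` with the rotated weights are those of `X` (`incW_rot`). In the tile frame the tile `(x,y)` goes to
`(-y-1, x)` (`rotL_lt`), so horizontal lines (heading E) become vertical lines (heading N). -/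

namespace Pool.Agent.H25.W

open Pool.Agent.H75.Perc Pool.Agent.H75.TwoArm Pool.Agent.Q1
open Pool.Agent.H75.TwoArm.SymmAux (lab_rot nxC_rot nxO_rot)

/-- the inverse rotation on corners -/
def rotcI (c : ℤ × ℤ) : ℤ × ℤ := (c.2, 1 - c.1)

/-- the inverse rotation on labels -/
def rotLI (e : ℤ × ℤ) : ℤ × ℤ := (e.2, -e.1)

@[simp] lemma rotcI_rotc (c : ℤ × ℤ) : rotcI (rotc c) = c := by
  unfold rotcI rotc; exact Prod.ext rfl (by simp)

@[simp] lemma rotc_rotcI (c : ℤ × ℤ) : rotc (rotcI c) = c := by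
  unfold rotcI rotc; exact Prod.ext (by simp) rfl

lemma rotc_injective : Function.Injective rotc :=
  Function.LeftInverse.injective rotcI_rotc

lemma rotL_apply (e : ℤ × ℤ) : rotL e = (-e.2, e.1) := rfl

@[simp] lemma rotLI_rotL (e : ℤ × ℤ) : rotLI (rotL e) = e := by
  rw [rotL_apply]; unfold rotLI; exact Prod.ext rfl (neg_neg _)

@[simp] lemma rotL_rotLI (e : ℤ × ℤ) : rotL (rotLI e) = e := by
  rw [rotL_apply]; unfold rotLI; exact Prod.ext (neg_neg _) rfl

lemma mem_map_rotL {A : Finset (ℤ × ℤ)} {e : ℤ × ℤ} : rotL e ∈ A.map rotL ↔ e ∈ A := by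
  simp

/-- rotation on corners as an embedding -/
def rotcE : (ℤ × ℤ) ↪ (ℤ × ℤ) := ⟨rotc, rotc_injective⟩

@[simp] lemma rotcE_apply (c : ℤ × ℤ) : rotcE c = rotc c := rfl

lemma mem_map_rotc {A : Finset (ℤ × ℤ)} {c : ℤ × ℤ} : rotc c ∈ A.map rotcE ↔ c ∈ A := by
  rw [← rotcE_apply, mem_map']

lemma ty_rot (c : ℤ × ℤ) : (ty (rotc c)) % 4 = (ty c + 1) % 4 := by
  obtain ⟨a, b⟩ := c
  unfold ty rotc
  simp only
  split_ifs <;> first | (exfalso; omega) | norm_num

section maps

variable {E S ω : Finset (ℤ × ℤ)} {out : ℤ × ℤ → ℤ × ℤ} {dout : ℤ × ℤ → ℤ}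

lemma stp_rot (c : ℤ × ℤ) :
    stp (E.map rotL) (S.map rotcE) (fun c => rotc (out (rotcI c))) (ω.map rotL) (rotc c) =
      rotc (stp E S out ω c) := by
  unfold stp
  simp only [mem_map_rotc, lab_rot, mem_map_rotL]
  split_ifs
  · rw [nx_rot]
  · rw [rotcI_rotc]
  · rfl

lemma del_rot (c : ℤ × ℤ) : del (ω.map rotL) (rotc c) = del ω c := by
  unfold del; simp only [lab_rot, mem_map_rotL]

lemma tur_rot (c : ℤ × ℤ) :
    tur (E.map rotL) (S.map rotcE) (fun c => dout (rotcI c)) (ω.map rotL) (rotc c) =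
      tur E S dout ω c := by
  unfold tur
  simp only [mem_map_rotc, lab_rot, mem_map_rotL]
  split_ifs
  · rw [del_rot]
  · simp only [rotcI_rotc]
  · rfl

lemma iter_rot {f g : ℤ × ℤ → ℤ × ℤ} (h : ∀ c, g (rotc c) = rotc (f c)) (n : ℕ) (c : ℤ × ℤ) :
    g^[n] (rotc c) = rotc (f^[n] c) := by
  induction n with
  | zero => rfl
  | succ n ih => rw [Function.iterate_succ_apply', Function.iterate_succ_apply', ih, h]

lemma Orb_rot {f g : ℤ × ℤ → ℤ × ℤ} (h : ∀ c, g (rotc c) = rotc (f c)) {c : ℤ × ℤ} {L : ℕ} :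
    Orb g (rotc c) L ↔ Orb f c L := by
  constructor
  · intro H
    refine ⟨H.pos, ?_, ?_⟩
    · have := H.per
      rw [iter_rot h] at this
      exact rotc_injective this
    · intro i j hij hj hh
      apply H.inj i j hij hj
      rw [iter_rot h, iter_rot h, hh]
  · intro H
    refine ⟨H.pos, ?_, ?_⟩
    · rw [iter_rot h, H.per]
    · intro i j hij hj hh
      apply H.inj i j hij hj
      rw [iter_rot h, iter_rot h] at hh
      exact rotc_injective hh

lemma KK_rot {f g : ℤ × ℤ → ℤ × ℤ} {d d' : ℤ × ℤ → ℤ} (h : ∀ c, g (rotc c) = rotc (f c))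
    (hd : ∀ c, d' (rotc c) = d c) (c : ℤ × ℤ) (k0 : ℤ) (n : ℕ) :
    KK g d' (rotc c) (k0 + 1) n = KK f d c k0 n + 1 := by
  unfold KK
  have : ∑ j ∈ range n, d' (g^[j] (rotc c)) = ∑ j ∈ range n, d (f^[j] c) := by
    apply Finset.sum_congr rfl
    intro j _
    rw [iter_rot h, hd]
  rw [this]; ring

end maps

lemma exists_map {E ω : Finset (ℤ × ℤ)} (h : ω ⊆ E.map rotL) : ∃ ω' ⊆ E, ω = ω'.map rotL := by
  obtain ⟨u, hu, rfl⟩ := Finset.subset_map_iff.1 h
  exact ⟨u, hu, rfl⟩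

variable (X : Env)

/-- **The rotated environment.** -/
def rotE : Env where
  E := X.E.map rotL
  S := X.S.map rotcE
  out := fun c => rotc (X.out (rotcI c))
  dout := fun c => X.dout (rotcI c)
  c0 := rotc X.c0
  k0 := X.k0 + 1
  T := X.T
  odd := by
    intro e he
    obtain ⟨e', he', rfl⟩ := mem_map.1 he
    have := X.odd e' he'
    show (-e'.2 + e'.1) % 2 = 1
    omega
  c0_mem := mem_map_rotc.2 X.c0_mem
  in_mem := by
    intro c hc
    rw [← rotc_rotcI c] at hc ⊢
    rw [lab_rot, mem_map_rotL] at hc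
    exact mem_map_rotc.2 (X.in_mem _ hc)
  maps := by
    intro ω hω c hc
    obtain ⟨ω, hω', rfl⟩ := exists_map hω
    rw [← rotc_rotcI c] at hc ⊢
    rw [stp_rot]
    exact mem_map_rotc.2 (X.maps ω hω' _ (mem_map_rotc.1 hc))
  inj := by
    intro ω hω a ha b hb hab
    obtain ⟨ω, hω', rfl⟩ := exists_map hω
    rw [← rotc_rotcI a, ← rotc_rotcI b] at hab ⊢
    rw [← rotc_rotcI a, mem_coe] at ha
    rw [← rotc_rotcI b, mem_coe] at hb
    rw [stp_rot, stp_rot] at hab
    exact congrArg rotc (X.inj ω hω' (mem_coe.2 (mem_map_rotc.1 ha)) (mem_coe.2 (mem_map_rotc.1 hb))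
      (rotc_injective hab))
  hk0 := by
    have := X.hk0
    have h2 := ty_rot X.c0
    have h3 : ty (rotc X.c0) % 4 = ty (rotc X.c0) := by
      rcases ty_cases (rotc X.c0) with h | h | h | h <;> rw [h.1] <;> norm_num
    omega
  typed := by
    intro c hc h
    rw [← rotc_rotcI c] at hc h ⊢
    rw [lab_rot, mem_map_rotL] at h
    have h1 := X.typed _ (mem_map_rotc.1 hc) h
    have h2 := ty_rot (rotcI c)
    have h3 := ty_rot (X.out (rotcI c))
    have h4 : ty (rotc (X.out (rotcI c))) % 4 = ty (rotc (X.out (rotcI c))) := by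
      rcases ty_cases (rotc (X.out (rotcI c))) with h | h | h | h <;> rw [h.1] <;> norm_num
    simp only [rotcI_rotc]
    omega
  root := by
    intro c hc h
    rw [← rotc_rotcI c] at hc h
    rw [lab_rot, mem_map_rotL] at hc
    rw [nxC_rot] at h
    exact X.root _ hc (rotc_injective h)
  total := by
    intro ω hω L hL
    obtain ⟨ω, hω', rfl⟩ := exists_map hω
    have h1 := X.total ω hω' L ((Orb_rot (fun c => stp_rot c)).1 hL)
    have h2 := KK_rot (f := stp X.E X.S X.out ω) (d := tur X.E X.S X.dout ω)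
      (fun c => stp_rot (E := X.E) (S := X.S) (out := X.out) (ω := ω) c)
      (fun c => tur_rot (E := X.E) (S := X.S) (dout := X.dout) (ω := ω) c) X.c0 X.k0 L
    rw [h2, h1]; ring

variable {X}

@[simp] lemma rotE_E : (rotE X).E = X.E.map rotL := rfl
@[simp] lemma rotE_c0 : (rotE X).c0 = rotc X.c0 := rfl
@[simp] lemma rotE_k0 : (rotE X).k0 = X.k0 + 1 := rfl
@[simp] lemma rotE_T : (rotE X).T = X.T := rfl

lemma f_rot (ω : Finset (ℤ × ℤ)) (c : ℤ × ℤ) :
    (rotE X).f (ω.map rotL) (rotc c) = rotc (X.f ω c) := stp_rot c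

lemma d_rot (ω : Finset (ℤ × ℤ)) (c : ℤ × ℤ) :
    (rotE X).d (ω.map rotL) (rotc c) = X.d ω c := tur_rot c

lemma z_rot (ω : Finset (ℤ × ℤ)) (i : ℕ) : (rotE X).z (ω.map rotL) i = rotc (X.z ω i) :=
  iter_rot (f_rot ω) i X.c0

lemma K_rot (ω : Finset (ℤ × ℤ)) (i : ℕ) : (rotE X).K (ω.map rotL) i = X.K ω i + 1 :=
  KK_rot (f_rot ω) (d_rot ω) X.c0 X.k0 i

lemma len_rot {ω : Finset (ℤ × ℤ)} (hω : ω ⊆ X.E) : (rotE X).len (ω.map rotL) = X.len ω := by
  have h1 : Orb ((rotE X).f (ω.map rotL)) (rotc X.c0) (X.len ω) :=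
    (Orb_rot (f_rot ω)).2 (Env.orb hω)
  have h2 := Env.orb (X := rotE X) (ω := ω.map rotL) (by rw [rotE_E]; exact map_subset_map.2 hω)
  exact h2.unique h1

lemma incO_rot {ω : Finset (ℤ × ℤ)} (hω : ω ⊆ X.E) (c : ℤ × ℤ) :
    (rotE X).incO (ω.map rotL) (rotc c) = w6 * X.incO ω c := by
  unfold Env.incO
  rw [len_rot hω, mul_sum]
  apply Finset.sum_congr rfl
  intro i _
  rw [z_rot, K_rot]
  by_cases h : X.z ω i = c
  · rw [if_pos (by rw [h]), if_pos h, ph_add, ph_one, mul_comm]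
  · rw [if_neg (fun h' => h (rotc_injective h')), if_neg h, mul_zero]

lemma Ec_map (q : ℤ × ℤ → ℂ) (E : Finset (ℤ × ℤ)) (F : Finset (ℤ × ℤ) → ℂ) :
    Ec q (E.map rotL) F = Ec (fun e => q (rotL e)) E (fun ω => F (ω.map rotL)) := by
  classical
  induction E using Finset.induction_on generalizing F with
  | empty => simp
  | insert e E he ih =>
    rw [map_insert, Ec_insert q (by rw [mem_map_rotL]; exact he), Ec_insert _ he, ih, ih]
    simp only [map_insert]

/-- **Rotation of the increments.** -/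
theorem incW_rot (q : ℤ × ℤ → ℂ) (c : ℤ × ℤ) :
    (rotE X).incW q (rotc c) = w6 * X.incW (fun e => q (rotL e)) c := by
  unfold Env.incW
  rw [rotE_E, Ec_map, ← Ec_smul]
  exact Ec_congr fun ω hω => incO_rot hω c

theorem incW_rot' (q : ℤ × ℤ → ℂ) (c : ℤ × ℤ) :
    (rotE X).incW (fun e => q (rotLI e)) (rotc c) = w6 * X.incW q c := by
  rw [incW_rot]
  simp only [rotLI_rotL]

/-! ### The inverse rotation -/

variable (X)

/-- the environment `X` rotated by minus a right angle: `rotLI` on labels, `rotcI` on corners -/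
def rotEI : Env := rotE (rotE (rotE X))

variable {X}

lemma rotcI_eq (c : ℤ × ℤ) : rotcI c = rotc (rotc (rotc c)) := by
  unfold rotcI rotc; exact Prod.ext (by simp) (by simp)

lemma rotLI_eq (e : ℤ × ℤ) : rotLI e = rotL (rotL (rotL e)) := by
  simp only [rotL_apply, rotLI, neg_neg]

lemma rotLI_injective : Function.Injective rotLI := fun a b h => by
  rw [← rotL_rotLI a, h, rotL_rotLI]

/-- the inverse rotation on labels as an embedding -/
def rotLIe : (ℤ × ℤ) ↪ (ℤ × ℤ) := ⟨rotLI, rotLI_injective⟩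

@[simp] lemma rotLIe_apply (e : ℤ × ℤ) : rotLIe e = rotLI e := rfl

lemma map_rotLIe (A : Finset (ℤ × ℤ)) : ((A.map rotL).map rotL).map rotL = A.map rotLIe := by
  ext e
  simp only [mem_map, exists_exists_and_eq_and, rotLIe_apply, rotLI_eq]

@[simp] lemma rotEI_E : (rotEI X).E = X.E.map rotLIe := map_rotLIe X.E

@[simp] lemma rotEI_c0 : (rotEI X).c0 = rotcI X.c0 := (rotcI_eq _).symm

@[simp] lemma rotEI_k0 : (rotEI X).k0 = X.k0 + 3 := by
  show X.k0 + 1 + 1 + 1 = _
  ring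

@[simp] lemma rotEI_T : (rotEI X).T = X.T := rfl

/-- **Inverse rotation of the increments.** -/
theorem incW_rotI (q : ℤ × ℤ → ℂ) (c : ℤ × ℤ) :
    (rotEI X).incW q (rotcI c) = -X.incW (fun e => q (rotLI e)) c := by
  rw [rotcI_eq]
  unfold rotEI
  rw [incW_rot, incW_rot, incW_rot]
  have h : (fun e => q (rotL (rotL (rotL e)))) = fun e => q (rotLI e) := by
    funext e; rw [rotLI_eq]
  rw [h]
  have hw : w6 * (w6 * w6) = (-1 : ℂ) := by
    have := w6_cube
    linear_combination this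
  linear_combination (X.incW (fun e => q (rotLI e)) c) * hw

/-- the tile frame -/
lemma rotLI_lt (x y : ℤ) :
    rotLI (Pool.Agent.H33.Q1.lt (x, y)) = Pool.Agent.H33.Q1.lt (y, -x - 1) := by
  unfold Pool.Agent.H33.Q1.lt rotLI
  exact Prod.ext (by simp only; ring) (by simp only; ring)

/-- the tile frame -/
lemma rotL_lt (x y : ℤ) : rotL (Pool.Agent.H33.Q1.lt (x, y)) = Pool.Agent.H33.Q1.lt (-y - 1, x) := by
  rw [rotL_apply]
  unfold Pool.Agent.H33.Q1.lt
  exact Prod.ext (by simp only; ring) (by simp only; ring)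

end Pool.Agent.H25.W
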