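import Mathlib
import Pool.Agent.H25.W.RotEnv

set_option autoImplicit false
open Finset

/-! # Rotation of a plane environment

`plane_incW_rot`, `plane_incW_rotI` : the increments of two plane environments whose data correspond by a
rotation by a right angle agree up to the factors `w6`, `-1`. The lower faces `g` of the two environments are
arbitrary. -/

namespace Pool.Agent.H25.W

open Pool.Agent.H75.Perc Pool.Agent.H75.TwoArm Pool.Agent.Q1
open Pool.Agent.H75.TwoArm.SymmAux (lab_rot)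

/-- **Two environments with corresponding paths.** `r` on corners, `l` on labels. -/
theorem incW_of {X Y : Env} {r : ℤ × ℤ → ℤ × ℤ} (hr : Function.Injective r) (l : (ℤ × ℤ) ↪ (ℤ × ℤ))
    (hE : Y.E = X.E.map l) (n : ℤ)
    (hz : ∀ ω ⊆ X.E, ∀ i, Y.z (ω.map l) i = r (X.z ω i))
    (hK : ∀ ω ⊆ X.E, ∀ i, Y.K (ω.map l) i = X.K ω i + n) (q : ℤ × ℤ → ℂ) (c : ℤ × ℤ) :
    Y.incW q (r c) = w6 ^ n * X.incW (fun e => q (l e)) c := by
  have hEc : ∀ (E : Finset (ℤ × ℤ)) (F : Finset (ℤ × ℤ) → ℂ),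
      Ec q (E.map l) F = Ec (fun e => q (l e)) E (fun ω => F (ω.map l)) := by
    classical
    intro E
    induction E using Finset.induction_on with
    | empty => intro F; simp
    | insert e E he ih =>
      intro F
      rw [map_insert, Ec_insert q (by rw [mem_map']; exact he), Ec_insert _ he, ih, ih]
      simp only [map_insert]
  unfold Env.incW
  rw [hE, hEc, ← Ec_smul]
  refine Ec_congr fun ω hω => ?_
  have hω' : ω.map l ⊆ Y.E := by rw [hE]; exact map_subset_map.2 hω
  have hlen : Y.len (ω.map l) = X.len ω := by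
    have h1 : Orb (Y.f (ω.map l)) Y.c0 (X.len ω) := by
      have h2 := Env.orb (X := X) hω
      refine ⟨h2.pos, ?_, ?_⟩
      · have := hz ω hω (X.len ω)
        unfold Env.z at this
        rw [this, h2.per]
        exact (hz ω hω 0).symm
      · intro i j hij hj h
        apply h2.inj i j hij hj
        have e1 := hz ω hω i
        have e2 := hz ω hω j
        unfold Env.z at e1 e2
        rw [e1, e2] at h
        exact hr h
    exact (Env.orb hω').unique h1
  unfold Env.incO
  rw [hlen, mul_sum]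
  apply Finset.sum_congr rfl
  intro i _
  rw [hz ω hω, hK ω hω]
  by_cases h : X.z ω i = c
  · rw [if_pos (by rw [h]), if_pos h, ph_add, mul_comm]
    rfl
  · rw [if_neg (fun h' => h (hr h')), if_neg h, mul_zero]

section plane

variable {E W E' W' : Finset (ℤ × ℤ)} {c0 c0' : ℤ × ℤ} {k0 k0' : ℤ} {g g' : ℤ × ℤ}
    {hE : ∀ e ∈ E, (e.1 + e.2) % 2 = 1} {hd : Disjoint E W} {hk : k0 % 4 = ty c0}
    {hroot : plab c0 ∉ E} {hg : DCo (E ∪ W) (fi c0) g}
    {hlow : ∀ v, Co (E ∪ W) (vx c0) v → g.2 < v.2}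
    {hE' : ∀ e ∈ E', (e.1 + e.2) % 2 = 1} {hd' : Disjoint E' W'} {hk' : k0' % 4 = ty c0'}
    {hroot' : plab c0' ∉ E'} {hg' : DCo (E' ∪ W') (fi c0') g'}
    {hlow' : ∀ v, Co (E' ∪ W') (vx c0') v → g'.2 < v.2}

/-- **Rotation of a plane environment by a right angle.** -/
theorem plane_incW_rot (h1 : E' = E.map rotL) (h2 : W' = W.map rotL) (h3 : c0' = rotc c0)
    (q : ℤ × ℤ → ℂ) (c : ℤ × ℤ) :
    (Env.plane E' W' c0' k0' g' hE' hd' hk' hroot' hg' hlow').incW q (rotc c) =
      w6 ^ (k0' - k0) * (Env.plane E W c0 k0 g hE hd hk hroot hg hlow).incW (fun e => q (rotL e)) c := by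
  subst h1 h2 h3
  refine incW_of rotc_injective rotL rfl _ ?_ ?_ q c
  · intro ω hω i
    have hω : ω ⊆ E := hω
    rw [plane_z (map_subset_map.2 hω), plane_z hω, ← map_union]
    exact iter_rot (fun c => nx_rot _ c) i c0
  · intro ω hω i
    have hω : ω ⊆ E := hω
    rw [plane_K (map_subset_map.2 hω), plane_K hω, ← map_union]
    have := KK_rot (f := nx (ω ∪ W)) (g := nx ((ω ∪ W).map rotL)) (d := del (ω ∪ W))
      (d' := del ((ω ∪ W).map rotL)) (fun c => nx_rot _ c) (fun c => del_rot c) c0 k0 i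
    unfold KK at this ⊢
    linarith

lemma nx_rotI (A : Finset (ℤ × ℤ)) (c : ℤ × ℤ) : nx (A.map rotLIe) (rotcI c) = rotcI (nx A c) := by
  rw [rotcI_eq, rotcI_eq, ← map_rotLIe, nx_rot, nx_rot, nx_rot]

lemma del_rotI (A : Finset (ℤ × ℤ)) (c : ℤ × ℤ) : del (A.map rotLIe) (rotcI c) = del A c := by
  rw [rotcI_eq, ← map_rotLIe, del_rot, del_rot, del_rot]

lemma rotcI_injective : Function.Injective rotcI := fun a b h => by
  rw [← rotc_rotcI a, h, rotc_rotcI]

lemma iter_rotI {A : Finset (ℤ × ℤ)} (n : ℕ) (c : ℤ × ℤ) :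
    (nx (A.map rotLIe))^[n] (rotcI c) = rotcI ((nx A)^[n] c) := by
  induction n with
  | zero => rfl
  | succ n ih => rw [Function.iterate_succ_apply', Function.iterate_succ_apply', ih, nx_rotI]

/-- **Rotation of a plane environment by minus a right angle.** -/
theorem plane_incW_rotI (h1 : E' = E.map rotLIe) (h2 : W' = W.map rotLIe) (h3 : c0' = rotcI c0)
    (q : ℤ × ℤ → ℂ) (c : ℤ × ℤ) :
    (Env.plane E' W' c0' k0' g' hE' hd' hk' hroot' hg' hlow').incW q (rotcI c) =
      w6 ^ (k0' - k0) * (Env.plane E W c0 k0 g hE hd hk hroot hg hlow).incW (fun e => q (rotLI e)) c := by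
  subst h1 h2 h3
  refine incW_of rotcI_injective rotLIe rfl _ ?_ ?_ q c
  · intro ω hω i
    have hω : ω ⊆ E := hω
    rw [plane_z (map_subset_map.2 hω), plane_z hω, ← map_union]
    exact iter_rotI i c0
  · intro ω hω i
    have hω : ω ⊆ E := hω
    rw [plane_K (map_subset_map.2 hω), plane_K hω, ← map_union]
    unfold KK
    have : ∑ j ∈ range i, del ((ω ∪ W).map rotLIe) ((nx ((ω ∪ W).map rotLIe))^[j] (rotcI c0)) =
        ∑ j ∈ range i, del (ω ∪ W) ((nx (ω ∪ W))^[j] c0) := by
      apply Finset.sum_congr rfl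
      intro j _
      rw [iter_rotI, del_rotI]
    rw [this]; ring

end plane

end Pool.Agent.H25.W
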