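import Mathlib
import Pool.Agent.H25.W.RotPlane
import Pool.Agent.H54.W.DefH

set_option autoImplicit false
open Finset

/-! # Identification of the environments of a window and of the rotated window

`EH_toH`, `WH_toH` : the labels of `D.toH` are the labels of `D` rotated by a right angle.
`incW_toH` : the increments of `HWin.XH O' (rt τ)` (weights `qH a b c`) are the increments of `Win.XJ O τ`
(weights `qJ (1 - a) (1 - c) (1 - b)`), up to a sixth root of unity. `incW_toH'` : the same with the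
weights of the window given. -/

namespace Pool.Agent.H25.W

open Pool.Agent.H75.Perc Pool.Agent.H75.TwoArm Pool.Agent.Q1
open Pool.Agent.H33.Q1 (lt tt lt_inj tt_lt lt_odd)
open Pool.Agent.H54.W
open Pool.Agent.H74.R45 (exists_lt)

/-- the tile `(x, y)` of the rotated picture is the tile `(y, -x-1)` -/
lemma lt_rotL (x y : ℤ) : lt (x, y) = rotL (lt (y, -x - 1)) := by
  rw [rotL_lt]
  congr 1
  ext
  · simp only; ring
  · rfl

lemma mem_rotL {A : Finset (ℤ × ℤ)} {x y : ℤ} : lt (x, y) ∈ A.map rotL ↔ lt (y, -x - 1) ∈ A := by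
  rw [lt_rotL, mem_map_rotL]

/-- members of a rotated set of labels -/
lemma odd_rotL {A : Finset (ℤ × ℤ)} (h : ∀ e ∈ A, (e.1 + e.2) % 2 = 1) {e : ℤ × ℤ}
    (he : e ∈ A.map rotL) : (e.1 + e.2) % 2 = 1 := by
  obtain ⟨f, hf, rfl⟩ := mem_map.1 he
  have := h f hf
  rw [rotL_apply]
  simp only
  omega

variable {D : Win} {τ : ℤ → ℤ}

/-- **Random labels of the rotated window.** -/
theorem EH_toH (H : Pos D τ) : D.toH.EH (Win.rt τ) = (D.EJ τ).map rotL := by
  ext e
  constructor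
  · intro h
    obtain ⟨x, y, rfl⟩ := exists_lt (HWin.odd_EH h)
    rw [HWin.mem_EH (Win.pos_toH H), Win.toH_InE] at h
    rwa [mem_rotL, Win.mem_EJ H]
  · intro h
    obtain ⟨x, y, rfl⟩ := exists_lt (odd_rotL (fun _ he => Win.odd_EJ he) h)
    rw [mem_rotL, Win.mem_EJ H] at h
    rwa [HWin.mem_EH (Win.pos_toH H), Win.toH_InE]

/-- open labels near the rotated window -/
theorem WR_toH : D.toH.WR (Win.rt τ) = (D.WR τ).map rotL := by
  ext e
  constructor
  · intro h
    obtain ⟨x, y, rfl⟩ := exists_lt (HWin.odd_WR h)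
    rw [HWin.mem_WR, Win.toH_InO] at h
    rwa [mem_rotL, Win.mem_WR]
  · intro h
    obtain ⟨x, y, rfl⟩ := exists_lt (odd_rotL (fun _ he => Win.odd_WR he) h)
    rw [mem_rotL, Win.mem_WR] at h
    rwa [HWin.mem_WR, Win.toH_InO]

/-- the labels of the rotated box -/
theorem GA_toH : D.toH.GA = D.GA.map rotL := by
  ext e
  constructor
  · intro h
    obtain ⟨x, y, rfl⟩ := exists_lt (HWin.odd_GA h)
    rw [HWin.mem_GA, Win.toH_InZ] at h
    rwa [mem_rotL, Win.mem_GA]
  · intro h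
    obtain ⟨x, y, rfl⟩ := exists_lt (odd_rotL (fun _ he => Win.odd_GA he) h)
    rw [mem_rotL, Win.mem_GA] at h
    rwa [HWin.mem_GA, Win.toH_InZ]

/-- **Open labels of the rotated window.** -/
theorem WH_toH {Wo Wo' : Finset (ℤ × ℤ)} (h : Wo' = Wo.map rotL) :
    D.toH.WH (Win.rt τ) Wo' = (D.WJ τ Wo).map rotL := by
  unfold HWin.WH Win.WJ
  rw [WR_toH, h, map_union]

/-- the weights of the rotated window on its random labels -/
lemma qH_toH (H : Pos D τ) (a b c : ℂ) {e : ℤ × ℤ} (he : e ∈ D.EJ τ) :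
    D.toH.qH (Win.rt τ) a b c (rotL e) = D.qJ τ (1 - a) (1 - c) (1 - b) e := by
  obtain ⟨x, y, rfl⟩ := exists_lt (Win.odd_EJ he)
  rw [Win.mem_EJ H] at he
  rw [rotL_lt]
  unfold HWin.qH Win.qJ
  rw [tt_lt, tt_lt]
  simp only
  have hy : - (-y - 1) - 1 = y := by ring
  have he' : D.InE τ x (-(-y - 1) - 1) := by rwa [hy]
  rw [Win.toH_wA H he', hy]
  unfold Win.wal
  by_cases h : (x + y) % 2 = 0
  · rw [if_neg (by omega), if_pos h]; ring
  · rw [if_pos (by omega), if_neg h]

/-- the increments depend only on the weights of the random labels -/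
lemma incW_congr_q {X : Env} {q q' : ℤ × ℤ → ℂ} (h : ∀ e ∈ X.E, q e = q' e) (c : ℤ × ℤ) :
    X.incW q c = X.incW q' c := by
  unfold Env.incW
  exact Ec_congr_q h _

/-- **Transfer of the increments to the rotated window.** -/
theorem incW_toH (H : Pos D τ) (O : Out D) (O' : HOut D.toH) (hW : O'.Wo = O.Wo.map rotL)
    (hc : O'.c0 = rotc O.c0) (a b c : ℂ) (ct : ℤ × ℤ) :
    (HWin.XH O' (Win.rt τ)).incW (D.toH.qH (Win.rt τ) a b c) (rotc ct) =
      w6 ^ (O'.k0 - O.k0) * (Win.XJ O τ).incW (D.qJ τ (1 - a) (1 - c) (1 - b)) ct := by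
  have h := incW_congr_q (X := Win.XJ O τ) (fun e he => qH_toH H a b c he) ct
  rw [← h]
  exact plane_incW_rot (EH_toH H) (WH_toH hW) hc _ _

/-- **Transfer of the increments to the rotated window**, weights of the window given. -/
theorem incW_toH' (H : Pos D τ) (O : Out D) (O' : HOut D.toH) (hW : O'.Wo = O.Wo.map rotL)
    (hc : O'.c0 = rotc O.c0) (a b c : ℂ) (ct : ℤ × ℤ) :
    (Win.XJ O τ).incW (D.qJ τ a b c) ct = w6 ^ (O.k0 - O'.k0) *
      (HWin.XH O' (Win.rt τ)).incW (D.toH.qH (Win.rt τ) (1 - a) (1 - c) (1 - b)) (rotc ct) := by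
  rw [incW_toH H O O' hW hc, ← mul_assoc, ← zpow_add₀ w6_ne]
  simp only [sub_sub_cancel, sub_add_sub_cancel, sub_self, zpow_zero, one_mul]

end Pool.Agent.H25.W
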