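import Mathlib
import Pool.Agent.H34.W.WtsH
import Pool.Agent.H85.W.Tile

set_option autoImplicit false
open Finset

/-! # The track identity for windows, abstract form (horizontal frame)

`D : HWin`. The string is the column `x0`, frozen from a row `s` upwards, weight `κ` of {W-N, S-E}.
`VF D F τ α` : mean of the functional `F τ` over the states of the random tiles, line at the position `τ`, `α` =
weights of the state {W-N, S-E}. `ExF D F x0 s κ a b c` : the mean is invariant under the steps of the line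
which do not cross the end of the string. `exch` : the mean is the same for all positions of the line on the
same side of the end of the string. `track` : the line below the end of the string (`τL`) against the line above
it (`τR`): the difference is `(a - κ)` times the difference of the values with the first tile of the
string in the state {W-N, S-E} and in the state {W-S, N-E}, line at the position `τz` through this tile. -/

namespace Pool.Agent.H25.W

open Pool.Agent.H75.Perc Pool.Agent.H75.TwoArm Pool.Agent.Q1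
open Pool.Agent.H33.Q1 (lt tt lt_inj tt_lt)
open Pool.Agent.H54.W Pool.Agent.H21.W.Tau Pool.Agent.H21.W.TauPos Pool.Agent.H34.W
open Pool.Agent.H85.W (upd upd_self upd_ne Ec_tile)

variable {D : HWin}

/-! ### Positions which agree on the columns of the window -/

section congr

variable {τ τ' : ℤ → ℤ}

lemma InE_congr (h : ∀ x, D.p ≤ x → x < D.q → τ' x = τ x) (x y : ℤ) :
    D.InE τ' x y ↔ D.InE τ x y := by
  have hh := D.hh
  have e1 : D.RS τ' x y ↔ D.RS τ x y := by
    unfold HWin.RS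
    constructor <;> rintro ⟨h1, h2, h3, h4⟩
    · rw [h (x + 1) (by omega) h2] at h3
      rw [h x h1 (by omega)] at h4
      exact ⟨h1, h2, h3, h4⟩
    · refine ⟨h1, h2, ?_, ?_⟩
      · rw [h (x + 1) (by omega) h2]; exact h3
      · rw [h x h1 (by omega)]; exact h4
  have e2 : D.RN τ' x y ↔ D.RN τ x y := by
    unfold HWin.RN
    constructor <;> rintro ⟨h1, h2, h3, h4⟩
    · rw [h (x - 1) (by omega) (by omega)] at h3
      rw [h x (by omega) h2] at h4
      exact ⟨h1, h2, h3, h4⟩
    · refine ⟨h1, h2, ?_, ?_⟩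
      · rw [h (x - 1) (by omega) (by omega)]; exact h3
      · rw [h x (by omega) h2]; exact h4
  have e3 : D.RL τ' x y ↔ D.RL τ x y := by
    unfold HWin.RL
    rw [h D.p le_rfl (by omega)]
  have e4 : D.RR τ' x y ↔ D.RR τ x y := by
    unfold HWin.RR
    rw [h (D.q - 1) (by omega) (by omega)]
  unfold HWin.InE
  rw [e1, e2, e3, e4]

lemma EH_congr (h : ∀ x, D.p ≤ x → x < D.q → τ' x = τ x) : D.EH τ' = D.EH τ := by
  have : D.InE τ' = D.InE τ := by
    funext x y
    exact propext (InE_congr h x y)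
  unfold HWin.EH
  rw [this]

lemma TA_congr (h : ∀ x, D.p ≤ x → x < D.q → τ' x = τ x) (x y : ℤ) :
    D.TA τ' x y ↔ D.TA τ x y := by
  have hh := D.hh
  unfold HWin.TA
  rw [h (D.q - 1) (by omega) (by omega)]
  constructor
  · rintro (⟨h1, h2, h3, h4⟩ | h1)
    · rw [h (x - 1) (by omega) (by omega), h x (by omega) h2] at h3
      rw [h (x - 1) (by omega) (by omega)] at h4
      exact Or.inl ⟨h1, h2, h3, h4⟩
    · exact Or.inr h1
  · rintro (⟨h1, h2, h3, h4⟩ | h1)
    · refine Or.inl ⟨h1, h2, ?_, ?_⟩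
      · rw [h (x - 1) (by omega) (by omega), h x (by omega) h2]; exact h3
      · rw [h (x - 1) (by omega) (by omega)]; exact h4
    · exact Or.inr h1

lemma TB_congr (h : ∀ x, D.p ≤ x → x < D.q → τ' x = τ x) (x y : ℤ) :
    D.TB τ' x y ↔ D.TB τ x y := by
  have hh := D.hh
  unfold HWin.TB
  rw [h D.p le_rfl (by omega)]
  constructor
  · rintro (⟨h1, h2, h3, h4⟩ | h1)
    · rw [h (x + 1) (by omega) h2, h x h1 (by omega)] at h3
      rw [h (x + 1) (by omega) h2] at h4
      exact Or.inl ⟨h1, h2, h3, h4⟩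
    · exact Or.inr h1
  · rintro (⟨h1, h2, h3, h4⟩ | h1)
    · refine Or.inl ⟨h1, h2, ?_, ?_⟩
      · rw [h (x + 1) (by omega) h2, h x h1 (by omega)]; exact h3
      · rw [h (x + 1) (by omega) h2]; exact h4
    · exact Or.inr h1

lemma WR_congr (h : ∀ x, D.p ≤ x → x < D.q → τ' x = τ x) : D.WR τ' = D.WR τ := by
  have : D.InO τ' = D.InO τ := by
    funext x y
    unfold HWin.InO
    rw [eq_iff_iff, InE_congr h, TA_congr h, TB_congr h]
  unfold HWin.WR
  rw [this]

lemma aH_congr (h : ∀ x, D.p ≤ x → x < D.q → τ' x = τ x) (a b c : ℂ) :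
    aH D τ' a b c = aH D τ a b c := by
  have hh := D.hh
  funext ⟨x, y⟩
  unfold aH HWin.wA
  simp only
  by_cases c1 : x < D.p
  · rw [if_pos c1, if_pos c1]
  by_cases c2 : D.q ≤ x
  · rw [if_neg c1, if_pos c2, if_neg c1, if_pos c2]
  rw [if_neg c1, if_neg c2, if_neg c1, if_neg c2, h x (by omega) (by omega)]
  have e1 : (x + 1 < D.q ∧ τ' (x + 1) < τ x) ↔ (x + 1 < D.q ∧ τ (x + 1) < τ x) := by
    constructor
    · rintro ⟨h1, h2⟩
      rw [h (x + 1) (by omega) h1] at h2
      exact ⟨h1, h2⟩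
    · rintro ⟨h1, h2⟩
      refine ⟨h1, ?_⟩
      rw [h (x + 1) (by omega) h1]
      exact h2
  have e2 : (D.p < x ∧ τ' (x - 1) < τ x) ↔ (D.p < x ∧ τ (x - 1) < τ x) := by
    constructor
    · rintro ⟨h1, h2⟩
      rw [h (x - 1) (by omega) (by omega)] at h2
      exact ⟨h1, h2⟩
    · rintro ⟨h1, h2⟩
      refine ⟨h1, ?_⟩
      rw [h (x - 1) (by omega) (by omega)]
      exact h2
  simp only [e1, e2]

end congr

/-! ### Exchange -/

/-- the mean of the functional `F τ`, weights `α` of the state {W-N, S-E} -/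
noncomputable def VF (D : HWin) (F : (ℤ → ℤ) → Finset (ℤ × ℤ) → ℂ) (τ : ℤ → ℤ) (α : ℤ × ℤ → ℂ) : ℂ :=
  Ec (opw α) (D.EH τ) (F τ)

/-- weights with the string: column `x0`, frozen from the row `s` upwards -/
noncomputable def aS (D : HWin) (τ : ℤ → ℤ) (a b c κ : ℂ) (x0 s : ℤ) : ℤ × ℤ → ℂ :=
  str x0 s κ (aH D τ a b c)

/-- **Exchangeable functionals**: the mean is invariant under the steps of the line which do not cross
the end of the string. -/
structure ExF (D : HWin) (F : (ℤ → ℤ) → Finset (ℤ × ℤ) → ℂ) (x0 s : ℤ) (a b c κ : ℂ) : Prop where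
  congr : ∀ τ τ' : ℤ → ℤ, (∀ x, D.p ≤ x → x < D.q → τ' x = τ x) → F τ' = F τ
  step : ∀ (τ : ℤ → ℤ) (i x₁ x₂ : ℤ), HPos D τ → HStep D τ i x₁ x₂ →
    (τ x0 ≤ s ∨ s < push τ i x₁ x₂ x0) →
    VF D F (push τ i x₁ x₂) (aS D (push τ i x₁ x₂) a b c κ x0 s) = VF D F τ (aS D τ a b c κ x0 s)

variable {F : (ℤ → ℤ) → Finset (ℤ × ℤ) → ℂ} {x0 s : ℤ} {a b c κ : ℂ}

lemma VF_congr (hF : ExF D F x0 s a b c κ) {τ τ' : ℤ → ℤ}
    (h : ∀ x, D.p ≤ x → x < D.q → τ' x = τ x) :
    VF D F τ' (aS D τ' a b c κ x0 s) = VF D F τ (aS D τ a b c κ x0 s) := by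
  unfold VF aS
  rw [hF.congr τ τ' h, EH_congr h, aH_congr h]

/-- comparable positions -/
theorem exch_le (hF : ExF D F x0 s a b c κ) (hp : D.p ≤ x0) (hq : x0 < D.q) {τ σ : ℤ → ℤ}
    (hτ : HPos D τ) (hσ : HPos D σ) (hle : ∀ x, D.p ≤ x → x < D.q → σ x ≤ τ x)
    (h : τ x0 ≤ s ∨ s < σ x0) :
    VF D F σ (aS D σ a b c κ x0 s) = VF D F τ (aS D τ a b c κ x0 s) := by
  refine hpos_induction (P := fun ρ => VF D F ρ (aS D ρ a b c κ x0 s) =
    VF D F τ (aS D τ a b c κ x0 s)) hτ hσ hle rfl ?_ ?_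
  · intro ρ ρ' he hP
    rw [VF_congr hF he, hP]
  · intro ρ i x₁ x₂ hρ hb hP hS hs
    rw [← hP]
    refine hF.step ρ i x₁ x₂ hρ hS ?_
    have hb0 := hb x0 hp hq
    rcases h with h | h
    · left; omega
    · right
      by_cases hx : x₁ ≤ x0 ∧ x0 < x₂
      · rw [push_in hx.1 hx.2]
        have := hs x0 hx.1 hx.2
        omega
      · rw [push_out (by omega)]
        omega

/-- **Exchange**: positions on the same side of the end of the string. -/
theorem exch (hF : ExF D F x0 s a b c κ) (hp : D.p ≤ x0) (hq : x0 < D.q) {τ σ : ℤ → ℤ}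
    (hτ : HPos D τ) (hσ : HPos D σ) (h : (τ x0 ≤ s ∧ σ x0 ≤ s) ∨ (s < τ x0 ∧ s < σ x0)) :
    VF D F σ (aS D σ a b c κ x0 s) = VF D F τ (aS D τ a b c κ x0 s) := by
  have hm : HPos D (fun x => min (τ x) (σ x)) := hpos_iff.2 ((hpos_iff.1 hτ).min (hpos_iff.1 hσ))
  rw [← exch_le hF hp hq hσ hm (fun x _ _ => min_le_right _ _) (by omega),
    exch_le hF hp hq hτ hm (fun x _ _ => min_le_left _ _) (by omega)]

/-! ### The track identity -/

/-- one weight changed -/
noncomputable def put (t : ℤ × ℤ) (v : ℂ) (α : ℤ × ℤ → ℂ) (q : ℤ × ℤ) : ℂ := if q = t then v else α q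

lemma opw_lt (α : ℤ × ℤ → ℂ) (x y : ℤ) : opw α (lt (x, y)) = Win.wal x y (α (x, y)) := by
  unfold opw
  rw [tt_lt]

/-- the mean is an affine function of the weight of one tile -/
lemma VF_put {τ : ℤ → ℤ} {α : ℤ × ℤ → ℂ} {x y : ℤ} (h : lt (x, y) ∈ D.EH τ) (v w : ℂ) :
    VF D F τ (put (x, y) v α) - VF D F τ (put (x, y) w α) =
      (v - w) * (VF D F τ (put (x, y) 1 α) - VF D F τ (put (x, y) 0 α)) := by
  have e : ∀ t : ℂ, VF D F τ (put (x, y) t α) =
      Ec (upd (opw α) (lt (x, y)) (Win.wal x y t)) (D.EH τ) (F τ) := by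
    intro t
    unfold VF
    refine Ec_congr_q (fun e he => ?_) _
    by_cases h1 : e = lt (x, y)
    · rw [h1, upd_self, opw_lt]
      unfold put
      rw [if_pos rfl]
    · rw [upd_ne _ _ h1]
      unfold opw put
      rw [if_neg]
      intro h2
      obtain ⟨x', y', rfl⟩ := Pool.Agent.H74.R45.exists_lt (HWin.odd_EH he)
      rw [tt_lt] at h2
      exact h1 (by rw [h2])
  have key : ∀ t : ℂ, VF D F τ (put (x, y) t α) = (1 - Win.wal x y t) *
      Ec (opw α) ((D.EH τ).erase (lt (x, y))) (F τ) + Win.wal x y t *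
      Ec (opw α) ((D.EH τ).erase (lt (x, y))) (fun ω => F τ (insert (lt (x, y)) ω)) := fun t => by
    rw [e, Pool.Agent.H85.W.Ec_upd _ h]
  rw [key, key, key, key]
  unfold Win.wal
  split_ifs <;> ring

/-- **The track identity.** The line below the end of the string (position `τL`, string from the row `s + 1`)
against the line above the end of the string (position `τR`, string from the row `s`); `τz` : the line goes
through the tile `(x0, s)`. -/
theorem track (h0 : ExF D F x0 s a b c κ) (h1 : ExF D F x0 (s + 1) a b c κ)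
    (hp : D.p ≤ x0) (hq : x0 < D.q) {τL τz τR : ℤ → ℤ}
    (hL : HPos D τL) (hz : HPos D τz) (hR : HPos D τR)
    (L : τL x0 ≤ s + 1) (Z : τz x0 = s + 1) (R : s + 1 ≤ τR x0) (hs : D.a x0 ≤ s)
    (hd : x0 + 1 < D.q → s + 1 ≤ τz (x0 + 1)) (hu : D.p < x0 → s + 1 ≤ τz (x0 - 1)) :
    VF D F τL (aS D τL a b c κ x0 (s + 1)) - VF D F τR (aS D τR a b c κ x0 s) =
      (a - κ) * (VF D F τz (put (x0, s) 1 (aS D τz a b c κ x0 (s + 1))) -
        VF D F τz (put (x0, s) 0 (aS D τz a b c κ x0 (s + 1)))) := by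
  rw [← exch h1 hp hq hL hz (Or.inl ⟨L, by omega⟩), ← exch h0 hp hq hR hz (Or.inr ⟨by omega, by omega⟩)]
  have he : lt (x0, s) ∈ D.EH τz := by
    rw [HWin.mem_EH hz]
    left
    have := hz.hi x0 hp hq
    exact ⟨hp, hq, by omega, by omega⟩
  have e1 : aS D τz a b c κ x0 (s + 1) = put (x0, s) a (aS D τz a b c κ x0 (s + 1)) := by
    funext q
    unfold put
    split_ifs with h
    · subst h
      unfold aS
      rw [str_no (fun g => by have := g.2; simp only at this; omega), aH_in hp hq,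
        if_pos (by omega), if_neg (fun g => by have := hd g.1; have := g.2; omega),
        if_neg (fun g => by have := hu g.1; have := g.2; omega)]
    · rfl
  have e2 : aS D τz a b c κ x0 s = put (x0, s) κ (aS D τz a b c κ x0 (s + 1)) := by
    funext q
    unfold put
    split_ifs with h
    · subst h
      unfold aS
      exact str_of rfl le_rfl
    · unfold aS str
      by_cases h2 : q.1 = x0 ∧ s + 1 ≤ q.2
      · rw [if_pos ⟨h2.1, by omega⟩, if_pos h2]
      · rw [if_neg h2, if_neg]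
        rintro ⟨h3, h4⟩
        apply h
        have h5 : q.2 = s := by
          by_contra h6
          exact h2 ⟨h3, by omega⟩
        exact Prod.ext h3 h5
  have h3 := VF_put (F := F) (α := aS D τz a b c κ x0 (s + 1)) he a κ
  rw [← e1, ← e2] at h3
  exact h3

/-! ### The position through one component -/

/-- the line at the height `i` on the columns `[x₁, x₂)`, the rest on the floor -/
def hseg (D : HWin) (i x₁ x₂ : ℤ) : ℤ → ℤ := fun x => if x₁ ≤ x ∧ x < x₂ then i else D.a x

/-- `[x₁, x₂)` is a maximal interval of columns which reach the height `i` -/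
def HComp (D : HWin) (i x₁ x₂ : ℤ) : Prop := CompT D.a D.p D.q i x₁ x₂

lemma hpos_seg {i x₁ x₂ : ℤ} (hi : i ≤ D.w) (C : HComp D i x₁ x₂) : HPos D (hseg D i x₁ x₂) := by
  have c0 := C.y0
  have c1 := C.y12
  have c2 := C.yh
  refine ⟨?_, ?_, ?_, ?_⟩
  · intro x h1 h2
    unfold hseg
    split_ifs with h
    · exact C.room x h.1 h.2
    · exact le_rfl
  · intro x h1 h2
    have := D.aw x h1 h2
    unfold hseg
    split_ifs with h
    · exact hi
    · omega
  · intro x h1 h2 h
    unfold hseg at h ⊢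
    by_cases d : x₁ ≤ x ∧ x < x₂
    · rw [if_pos d] at h
      by_cases e : x₁ ≤ x + 1 ∧ x + 1 < x₂
      · rw [if_pos e] at h; omega
      · rw [if_neg e] at h
        have e' : x + 1 = x₂ := by omega
        have := C.top (by omega)
        rw [← e'] at this
        omega
    · rw [if_neg d]
  · intro x h1 h2 h
    unfold hseg at h ⊢
    by_cases d : x₁ ≤ x + 1 ∧ x + 1 < x₂
    · rw [if_pos d] at h
      by_cases e : x₁ ≤ x ∧ x < x₂
      · rw [if_pos e] at h; omega
      · rw [if_neg e] at h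
        have e' : x = x₁ - 1 := by omega
        have := C.bot (by omega)
        rw [← e'] at this
        omega
    · rw [if_neg d]

/-- the line on the floor -/
lemma hpos_floor (D : HWin) : HPos D D.a :=
  ⟨fun _ _ _ => le_rfl, fun x h1 h2 => by have := D.aw x h1 h2; omega, fun _ _ _ _ => rfl,
    fun _ _ _ _ => rfl⟩

/-- the line on the ceiling -/
lemma hpos_ceil (D : HWin) : HPos D (fun _ => D.w) :=
  ⟨fun x h1 h2 => by have := D.aw x h1 h2; omega, fun _ _ _ => le_rfl, fun _ _ _ h => by omega,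
    fun _ _ _ h => by omega⟩

/-- the component of a tile of the window -/
lemma exists_hcomp {i x : ℤ} (h0 : D.p ≤ x) (h1 : x < D.q) (ha : D.a x ≤ i) :
    ∃ x₁ x₂, HComp D i x₁ x₂ ∧ x₁ ≤ x ∧ x < x₂ := exists_comp h0 h1 ha

/-- **The track identity for a window**: the line on the floor (string from `s + 1`) against the line on
the ceiling (string from `s`); `τz` = the line at the height `s + 1` on the component of `x0`, on the floor
elsewhere. -/
theorem track_win (h0 : ExF D F x0 s a b c κ) (h1 : ExF D F x0 (s + 1) a b c κ)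
    (hp : D.p ≤ x0) (hq : x0 < D.q) (hs : D.a x0 ≤ s) (hw : s + 1 ≤ D.w) {x₁ x₂ : ℤ}
    (C : HComp D (s + 1) x₁ x₂) (c1 : x₁ ≤ x0) (c2 : x0 < x₂) :
    VF D F D.a (aS D D.a a b c κ x0 (s + 1)) - VF D F (fun _ => D.w) (aS D (fun _ => D.w) a b c κ x0 s) =
      (a - κ) * (VF D F (hseg D (s + 1) x₁ x₂)
          (put (x0, s) 1 (aS D (hseg D (s + 1) x₁ x₂) a b c κ x0 (s + 1))) -
        VF D F (hseg D (s + 1) x₁ x₂)
          (put (x0, s) 0 (aS D (hseg D (s + 1) x₁ x₂) a b c κ x0 (s + 1)))) := by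
  have f0 := C.y0
  have f2 := C.yh
  refine track h0 h1 hp hq (hpos_floor D) (hpos_seg hw C) (hpos_ceil D) (by omega) ?_ (by omega) hs ?_ ?_
  · unfold hseg
    rw [if_pos ⟨c1, c2⟩]
  · intro h
    unfold hseg
    by_cases d : x₁ ≤ x0 + 1 ∧ x0 + 1 < x₂
    · rw [if_pos d]
    · rw [if_neg d]
      have := C.top (by omega)
      rw [show x₂ = x0 + 1 by omega] at this
      omega
  · intro h
    unfold hseg
    by_cases d : x₁ ≤ x0 - 1 ∧ x0 - 1 < x₂
    · rw [if_pos d]
    · rw [if_neg d]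
      have := C.bot (by omega)
      rw [show x₁ - 1 = x0 - 1 by omega] at this
      omega

end Pool.Agent.H25.W
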