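import Mathlib
import Pool.Agent.H25.W.Track
import Pool.Agent.H64.W.StripH
import Pool.Agent.H93.W.StripPat

set_option autoImplicit false
open Finset

/-! # The track identity for functions of the link pattern

`Z` : a zone which contains the box `GA` of the window, `Wo` : far open labels. `FP D Z Wo Ψ` : the functional
`Ψ` of the link pattern `EPat Z` of the zone (93). `exF_pat` : it is exchangeable. `track_pat` : the track
identity, `a = wa u`, `κ = 1 - ζ` the frozen weight. -/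

namespace Pool.Agent.H25.W

open Pool.Agent.H75.Perc Pool.Agent.H75.TwoArm Pool.Agent.Q1
open Pool.Agent.H33.Q1 (lt tt lt_inj tt_lt)
open Pool.Agent.H54.W Pool.Agent.H21.W.Tau Pool.Agent.H21.W.TauPos Pool.Agent.H34.W
open Pool.Agent.H64.Win (Kb)
open Pool.Agent.H64.W (exH exH_in exH_out nuH strip_of_hstep)
open Pool.Agent.H64.Q1 (wa)
open Pool.Agent.H93.W (EPat strip_pat)

/-- far data with given far labels -/
theorem exists_hout (D : HWin) {Wo : Finset (ℤ × ℤ)} (hW : ∀ x y, lt (x, y) ∈ Wo → ¬ D.InZ x y) :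
    ∃ O : HOut D, O.Wo = Wo := by
  obtain ⟨B, hB⟩ := ((D.GA ∪ Wo).image Prod.fst).exists_le
  have hB' : ∀ e ∈ D.GA ∪ Wo, e.1 ≤ B := fun e he => hB _ (mem_image_of_mem _ he)
  obtain ⟨N, hN⟩ : ∃ N : ℤ, N = |B| + 1 := ⟨_, rfl⟩
  have hN1 : B + 1 ≤ N := by have := le_abs_self B; omega
  have hN0 : 1 ≤ N := by have := abs_nonneg B; omega
  have far : ∀ e : ℤ × ℤ, 2 * N - 1 ≤ e.1 → e ∉ D.GA ∪ Wo := by
    intro e he h
    have := hB' e h
    omega
  have hv : vx (2 * N, 2 * N) = (N, N) := by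
    unfold vx
    simp
  have hf : fi (2 * N, 2 * N) = (N, N) := by
    unfold fi
    simp only [Prod.mk.injEq]
    omega
  have ht : ty (2 * N, 2 * N) = 0 := by
    unfold ty
    simp
  refine ⟨⟨Wo, (2 * N, 2 * N), 0, (N, N - 1), hW, by rw [ht]; rfl, ?_, ?_, ?_⟩, rfl⟩
  · intro h
    refine far _ ?_ (mem_union_left _ h)
    unfold plab
    simp
  · rw [hf]
    refine DCo.step ?_ ?_
    · unfold IsUnit4
      simp
    · apply far
      simp only [Prod.mk_add_mk, Prod.mk_sub_mk]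
      omega
  · rw [hv]
    intro v hv
    have : v = (N, N) := by
      induction hv with
      | refl => rfl
      | @tail u w _ h ih =>
        exfalso
        obtain ⟨h1, h2⟩ := h
        refine far _ ?_ h2
        unfold IsUnit4 at h1
        rw [ih] at h1 ⊢
        obtain ⟨w1, w2⟩ := w
        simp only [Prod.mk_sub_mk, Prod.mk.injEq, Prod.mk_add_mk] at h1 ⊢
        omega
    rw [this]
    simp

variable {D : HWin}

/-- the functional `Ψ` of the link pattern of the zone `Z` -/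
noncomputable def FP (D : HWin) (Z Wo : Finset (ℤ × ℤ)) (Ψ : (ℤ × ℤ → ℤ × ℤ → Prop) → ℂ)
    (τ : ℤ → ℤ) (ω : Finset (ℤ × ℤ)) : ℂ := Ψ (EPat Z (ω ∪ D.WH τ Wo))

lemma lRt_eq {τ : ℤ → ℤ} (H : HPos D τ) {i x₁ x₂ : ℤ} (S : HStep D τ i x₁ x₂) :
    decide (exH D D.a (x₁ - 1) = i + 1) = lRt D i x₁ := by
  have h1 := S.x0
  have h2 := S.x12
  have h3 := S.xq
  have h4 := S.tau x₁ le_rfl h2
  have h5 := H.hi x₁ h1 (by omega)
  unfold lRt
  rw [decide_eq_decide]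
  by_cases h : D.p < x₁
  · rw [exH_in (by omega) (by omega)]
    simp [h]
  · rw [exH_out (by omega)]
    constructor
    · intro h6; omega
    · intro h6; exact absurd h6.1 h

lemma rRt_eq {τ : ℤ → ℤ} (H : HPos D τ) {i x₁ x₂ : ℤ} (S : HStep D τ i x₁ x₂) :
    decide (exH D D.a x₂ = i + 1) = rRt D i x₂ := by
  have h1 := S.x0
  have h2 := S.x12
  have h3 := S.xq
  have h4 := S.tau x₁ le_rfl h2
  have h5 := H.hi x₁ h1 (by omega)
  unfold rRt
  rw [decide_eq_decide]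
  by_cases h : x₂ < D.q
  · rw [exH_in (by omega) h]
    simp [h]
  · rw [exH_out (by omega)]
    constructor
    · intro h6; omega
    · intro h6; exact absurd h6.1 h

/-- the box of a step lies in the box of the window -/
lemma Kb_mem {τ : ℤ → ℤ} (H : HPos D τ) {i x₁ x₂ : ℤ} (S : HStep D τ i x₁ x₂) {cL cR : Bool}
    {q : ℤ × ℤ} (h : Kb x₁ x₂ i cL cR q) : lt q ∈ D.GA := by
  obtain ⟨x, y⟩ := q
  obtain ⟨h1, h2, h3⟩ := h
  have e1 := S.x0
  have e2 := S.x12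
  have e3 := S.xq
  have e4 := S.tau x₁ le_rfl e2
  have e5 := H.hi x₁ e1 (by omega)
  have e6 := S.room x₁ le_rfl e2
  have e7 := D.hlo x₁ e1 (by omega)
  have b1 := Pool.Agent.H64.Win.bi_le cL
  have b2 := Pool.Agent.H64.Win.bi_le cR
  rw [HWin.mem_GA]
  unfold HWin.InZ
  simp only at h1 h2 h3
  omega

/-- **Functions of the link pattern are exchangeable.** -/
theorem exF_pat {Z Wo : Finset (ℤ × ℤ)} (hZ : D.GA ⊆ Z)
    (hW : ∀ x y, lt (x, y) ∈ Wo → ¬ D.InZ x y) {u ζ : ℂ} (hu : Complex.sin (2 * u) ≠ 0)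
    (hζ : Pool.Agent.H11.W.Fz ζ) {x0 s : ℤ} (hp : D.p ≤ x0) (hq : x0 < D.q) (hs : D.a x0 ≤ s)
    (Ψ : (ℤ × ℤ → ℤ × ℤ → Prop) → ℂ) :
    ExF D (FP D Z Wo Ψ) x0 s (wa u) (wa (u + Real.pi / 2)) (wa (u - Real.pi / 2)) (1 - ζ) where
  congr τ τ' h := by
    funext ω
    unfold FP HWin.WH
    rw [WR_congr h]
  step τ i x₁ x₂ H S h := by
    obtain ⟨O, hO⟩ := exists_hout D hW
    subst hO
    have St := strip_of_hstep O H S
    rw [lRt_eq H S, rRt_eq H S] at St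
    exact strip_pat St (fun q hq' => hZ (Kb_mem H S hq'))
      (fun _ he => HWin.odd_EH he) (fun _ he => HWin.odd_EH he) (HWin.disj_EW _ O)
      (HWin.disj_EW _ O) (EH_mem (S.pos H)) (EH_mem H) (cwS_str hu hζ x₁ x₂ x0 s i)
      (wtS H S _ _ _ hp hq hs h) (hasW_opw _ _) (hasW_opw _ _) Ψ

/-- **The track identity for functions of the link pattern.** -/
theorem track_pat {Z Wo : Finset (ℤ × ℤ)} (hZ : D.GA ⊆ Z)
    (hW : ∀ x y, lt (x, y) ∈ Wo → ¬ D.InZ x y) {u ζ : ℂ} (hu : Complex.sin (2 * u) ≠ 0)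
    (hζ : Pool.Agent.H11.W.Fz ζ) {x0 s : ℤ} (hp : D.p ≤ x0) (hq : x0 < D.q) (hs : D.a x0 ≤ s)
    (hw : s + 1 ≤ D.w) {x₁ x₂ : ℤ} (C : HComp D (s + 1) x₁ x₂) (c1 : x₁ ≤ x0) (c2 : x0 < x₂)
    (Ψ : (ℤ × ℤ → ℤ × ℤ → Prop) → ℂ) :
    VF D (FP D Z Wo Ψ) D.a
        (aS D D.a (wa u) (wa (u + Real.pi / 2)) (wa (u - Real.pi / 2)) (1 - ζ) x0 (s + 1)) -
      VF D (FP D Z Wo Ψ) (fun _ => D.w)
        (aS D (fun _ => D.w) (wa u) (wa (u + Real.pi / 2)) (wa (u - Real.pi / 2)) (1 - ζ) x0 s) =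
      (wa u - (1 - ζ)) * (VF D (FP D Z Wo Ψ) (hseg D (s + 1) x₁ x₂) (put (x0, s) 1
          (aS D (hseg D (s + 1) x₁ x₂) (wa u) (wa (u + Real.pi / 2)) (wa (u - Real.pi / 2)) (1 - ζ)
            x0 (s + 1))) -
        VF D (FP D Z Wo Ψ) (hseg D (s + 1) x₁ x₂) (put (x0, s) 0
          (aS D (hseg D (s + 1) x₁ x₂) (wa u) (wa (u + Real.pi / 2)) (wa (u - Real.pi / 2)) (1 - ζ)
            x0 (s + 1)))) :=
  track_win (exF_pat hZ hW hu hζ hp hq hs Ψ) (exF_pat hZ hW hu hζ hp hq (by omega) Ψ) hp hq hs hw C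
    c1 c2

end Pool.Agent.H25.W
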