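import Mathlib
import Pool.Agent.H25.W.TrackPat
import Pool.Agent.H25.W.Ident

set_option autoImplicit false
open Finset

/-! # The track identity, vertical frame

`D : Win`. The string is the row `r`, frozen from a column `s` to the right, weight `κ` of {W-N, S-E}.
`VJ D F τ α` : mean of the functional `F τ`, line at the position `τ`, `α` = weights of the state {W-N, S-E}.
`ExJ D F r s a b c κ` : the functional is exchangeable (`ExF` for the rotated window). `exchV` : the mean is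
the same for all positions of the line on the same side of the end of the string. `track_V` : the line on the
left arc (string from `s + 1`) against the line on the right wall (string from `s`). `exJ_pat`, `trackV_pat` :
the same for functions of the link pattern of a zone (`FJ`). -/

namespace Pool.Agent.H25.W

open Pool.Agent.H75.Perc Pool.Agent.H75.TwoArm Pool.Agent.Q1
open Pool.Agent.H75.TwoArm.SymmAux (lab_rot nxO_rot nxC_rot nx_rot_iter rotc_inj)
open Pool.Agent.H33.Q1 (lt tt lt_inj tt_lt)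
open Pool.Agent.H54.W Pool.Agent.H21.W.Tau Pool.Agent.H21.W.TauPos Pool.Agent.H34.W
open Pool.Agent.H74.R45 (exists_lt)
open Pool.Agent.H64.Q1 (wa one_sub_wa)
open Pool.Agent.H93.W (EPat)
open H80.W (Pat Entry Ex)

/-! ### Rotation of the link pattern -/

lemma nxO_rotcI (c : ℤ × ℤ) : rotc (nxO (rotcI c)) = nxO c := by
  rw [← nxO_rot, rotc_rotcI]

lemma nxC_rotcI (c : ℤ × ℤ) : rotc (nxC (rotcI c)) = nxC c := by
  rw [← nxC_rot, rotc_rotcI]

theorem Pat_rot (Z w : Finset (ℤ × ℤ)) (c d : ℤ × ℤ) :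
    Pat (Z.map rotL) (w.map rotL) (rotc c) (rotc d) ↔ Pat Z w c d := by
  unfold Pat Ex
  simp only [nx_rot_iter, lab_rot, mem_map_rotL, rotc_inj]

theorem Entry_rot (Z : Finset (ℤ × ℤ)) (c : ℤ × ℤ) : Entry (Z.map rotL) (rotc c) ↔ Entry Z c := by
  unfold Entry
  constructor
  · intro h x hx
    have := h (rotc x) (by rw [lab_rot, mem_map_rotL]; exact hx)
    rw [nxO_rot, nxC_rot] at this
    exact ⟨fun e => this.1 (by rw [e]), fun e => this.2 (by rw [e])⟩
  · intro h x hx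
    have hx' : lab (rotcI x) ∈ Z := by
      rw [← rotc_rotcI x, lab_rot, mem_map_rotL] at hx
      exact hx
    have := h (rotcI x) hx'
    constructor
    · intro e
      rw [← nxO_rotcI, rotc_inj] at e
      exact this.1 e
    · intro e
      rw [← nxC_rotcI, rotc_inj] at e
      exact this.2 e

/-- **Rotation of the link pattern.** -/
theorem EPat_rot (Z w : Finset (ℤ × ℤ)) (c d : ℤ × ℤ) :
    EPat (Z.map rotL) (w.map rotL) (rotc c) (rotc d) ↔ EPat Z w c d := by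
  unfold EPat
  rw [Entry_rot, Pat_rot, lab_rot, mem_map_rotL]

/-! ### Means in the vertical frame -/

/-- the mean of the functional `F τ`, weights `α` of the state {W-N, S-E} -/
noncomputable def VJ (D : Win) (F : (ℤ → ℤ) → Finset (ℤ × ℤ) → ℂ) (τ : ℤ → ℤ) (α : ℤ × ℤ → ℂ) : ℂ :=
  Ec (opw α) (D.EJ τ) (F τ)

/-- weights with the string: row `r`, frozen from the column `s` to the right -/
noncomputable def aV (D : Win) (τ : ℤ → ℤ) (a b c κ : ℂ) (r s : ℤ) (q : ℤ × ℤ) : ℂ :=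
  if q.2 = r ∧ s ≤ q.1 then κ else D.wA τ a b c q.1 q.2

/-- the functional in the rotated frame -/
noncomputable def rotF (F : (ℤ → ℤ) → Finset (ℤ × ℤ) → ℂ) (τ : ℤ → ℤ) (ω : Finset (ℤ × ℤ)) : ℂ :=
  F (Win.rt τ) (ω.map rotLIe)

lemma rt_rt (τ : ℤ → ℤ) : Win.rt (Win.rt τ) = τ := by
  funext x
  unfold Win.rt
  congr 1
  ring

lemma map_rot_rotI (A : Finset (ℤ × ℤ)) : (A.map rotL).map rotLIe = A := by
  rw [map_map]
  convert map_refl (s := A)
  ext e : 1
  exact rotLI_rotL e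

lemma map_rotI_rot (A : Finset (ℤ × ℤ)) : (A.map rotLIe).map rotL = A := by
  rw [map_map]
  convert map_refl (s := A)
  ext e : 1
  exact rotL_rotLI e

variable {D : Win} {F : (ℤ → ℤ) → Finset (ℤ × ℤ) → ℂ} {τ : ℤ → ℤ} {r s : ℤ} {a b c κ : ℂ}

/-- **The mean in the rotated window.** -/
theorem VF_rot (H : Pos D τ) {α β : ℤ × ℤ → ℂ}
    (h : ∀ x y, D.InE τ x y → β (-y - 1, x) = 1 - α (x, y)) :
    VF D.toH (rotF F) (Win.rt τ) β = VJ D F τ α := by
  unfold VF VJ
  rw [EH_toH H, Ec_map, Ec_congr_q (q' := opw α)]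
  · refine Ec_congr fun ω _ => ?_
    unfold rotF
    rw [map_rot_rotI, rt_rt]
  · intro e he
    obtain ⟨x, y, rfl⟩ := exists_lt (Win.odd_EJ he)
    rw [Win.mem_EJ H] at he
    rw [rotL_lt, opw_lt, opw_lt, h x y he]
    unfold Win.wal
    by_cases h : (x + y) % 2 = 0
    · rw [if_neg (by omega), if_pos h]; ring
    · rw [if_pos (by omega), if_neg h]

/-- the weights in the rotated window -/
lemma aS_rot (H : Pos D τ) {x y : ℤ} (h : D.InE τ x y) :
    aS D.toH (Win.rt τ) (1 - a) (1 - c) (1 - b) (1 - κ) (-r - 1) s (-y - 1, x) =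
      1 - aV D τ a b c κ r s (x, y) := by
  unfold aS str aV
  simp only
  by_cases g : y = r ∧ s ≤ x
  · rw [if_pos ⟨by omega, g.2⟩, if_pos g]
  · rw [if_neg (fun g' => g ⟨by omega, g'.2⟩), if_neg g]
    unfold aH
    simp only
    have e : -(-y - 1) - 1 = y := by ring
    rw [Win.toH_wA H (by rw [e]; exact h), e, sub_sub_cancel, sub_sub_cancel, sub_sub_cancel]

/-- `put` in the rotated window -/
lemma put_rot {u v : ℂ} {α β : ℤ × ℤ → ℂ} {x0 y0 x y : ℤ} (h : β (-y - 1, x) = 1 - α (x, y))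
    (ht : u = 1 - v) :
    put (-y0 - 1, x0) u β (-y - 1, x) = 1 - put (x0, y0) v α (x, y) := by
  unfold put
  by_cases g : (x, y) = (x0, y0)
  · have g' : (-y - 1, x) = (-y0 - 1, x0) := by
      simp only [Prod.mk.injEq] at g ⊢
      omega
    rw [if_pos g', if_pos g, ht]
  · have g' : ¬ (-y - 1, x) = (-y0 - 1, x0) := by
      intro g'
      apply g
      simp only [Prod.mk.injEq] at g' ⊢
      omega
    rw [if_neg g', if_neg g, h]

/-- **Exchangeable functionals**, vertical frame. -/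
def ExJ (D : Win) (F : (ℤ → ℤ) → Finset (ℤ × ℤ) → ℂ) (r s : ℤ) (a b c κ : ℂ) : Prop :=
  ExF D.toH (rotF F) (-r - 1) s (1 - a) (1 - c) (1 - b) (1 - κ)

/-- **Exchange**: positions on the same side of the end of the string. -/
theorem exchV (hF : ExJ D F r s a b c κ) (hp : 0 ≤ r) (hq : r < D.h) {τ σ : ℤ → ℤ}
    (hτ : Pos D τ) (hσ : Pos D σ) (h : (τ r ≤ s ∧ σ r ≤ s) ∨ (s < τ r ∧ s < σ r)) :
    VJ D F σ (aV D σ a b c κ r s) = VJ D F τ (aV D τ a b c κ r s) := by
  rw [← VF_rot hσ (fun x y h => aS_rot hσ h), ← VF_rot hτ (fun x y h => aS_rot hτ h)]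
  refine exch hF (by simp only [Win.toH]; omega) (by simp only [Win.toH]; omega)
    (Win.pos_toH hτ) (Win.pos_toH hσ) ?_
  unfold Win.rt
  rw [show -(-r - 1) - 1 = r by ring]
  exact h

lemma hcomp_toH {i y1 y2 : ℤ} (C : Comp D i y1 y2) : HComp D.toH i (-y2) (-y1) where
  y0 := by have := C.h2; simp only [Win.toH]; omega
  y12 := by have := C.h1; omega
  yh := by have := C.h0; simp only [Win.toH]; omega
  room x h1 h2 := by simp only [Win.toH]; exact C.le _ (by omega) (by omega)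
  bot h := by
    simp only [Win.toH] at h ⊢
    rw [show -(-y2 - 1) - 1 = y2 by ring]
    exact C.top (by omega)
  top h := by
    simp only [Win.toH] at h ⊢
    rw [show -(-y1) - 1 = y1 - 1 by ring]
    exact C.bot (by omega)

lemma hseg_toH {i y1 y2 : ℤ} : hseg D.toH i (-y2) (-y1) = Win.rt (seg D i y1 y2) := by
  funext x
  unfold hseg Win.rt seg
  by_cases g : y1 ≤ -x - 1 ∧ -x - 1 < y2
  · rw [if_pos (by omega), if_pos g]
  · rw [if_neg (fun g' => g (by omega)), if_neg g]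
    rfl

/-- **The track identity for a window, vertical frame**: the line on the left arc (string from `s + 1`) against
the line on the right wall (string from `s`); `seg` = the line at the column `s + 1` on the component of the
row `r`, on the left arc elsewhere. -/
theorem track_V (h0 : ExJ D F r s a b c κ) (h1 : ExJ D F r (s + 1) a b c κ)
    (hp : 0 ≤ r) (hq : r < D.h) (hs : D.a r ≤ s) (hw : s + 1 ≤ D.w) {y1 y2 : ℤ}
    (C : Comp D (s + 1) y1 y2) (c1 : y1 ≤ r) (c2 : r < y2) :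
    VJ D F D.a (aV D D.a a b c κ r (s + 1)) - VJ D F (fun _ => D.w) (aV D (fun _ => D.w) a b c κ r s) =
      (a - κ) * (VJ D F (seg D (s + 1) y1 y2)
          (put (s, r) 1 (aV D (seg D (s + 1) y1 y2) a b c κ r (s + 1))) -
        VJ D F (seg D (s + 1) y1 y2)
          (put (s, r) 0 (aV D (seg D (s + 1) y1 y2) a b c κ r (s + 1)))) := by
  have Hs : Pos D (seg D (s + 1) y1 y2) := pos_seg D hw C
  have T := track_win h0 h1 (by simp only [Win.toH]; omega) (by simp only [Win.toH]; omega)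
    (by simp only [Win.toH]; rwa [show -(-r - 1) - 1 = r by ring]) (by simp only [Win.toH]; exact hw)
    (hcomp_toH C) (by omega) (by omega)
  rw [hseg_toH] at T
  have e1 : D.toH.a = Win.rt D.a := rfl
  have e2 : (fun _ => D.toH.w : ℤ → ℤ) = Win.rt (fun _ => D.w) := rfl
  rw [e1, e2] at T
  rw [VF_rot (α := aV D D.a a b c κ r (s + 1)) (pos_left D) (fun x y h => aS_rot (pos_left D) h),
    VF_rot (α := aV D (fun _ => D.w) a b c κ r s) (pos_right D)
      (fun x y h => aS_rot (pos_right D) h),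
    VF_rot (α := put (s, r) 0 (aV D (seg D (s + 1) y1 y2) a b c κ r (s + 1))) Hs
      (fun x y h => put_rot (aS_rot Hs h) (by ring)),
    VF_rot (α := put (s, r) 1 (aV D (seg D (s + 1) y1 y2) a b c κ r (s + 1))) Hs
      (fun x y h => put_rot (aS_rot Hs h) (by ring))] at T
  rw [T]
  ring

/-! ### Functions of the link pattern -/

/-- the functional `Ψ` of the link pattern of the zone `Z` -/
noncomputable def FJ (D : Win) (Z Wo : Finset (ℤ × ℤ)) (Ψ : (ℤ × ℤ → ℤ × ℤ → Prop) → ℂ)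
    (τ : ℤ → ℤ) (ω : Finset (ℤ × ℤ)) : ℂ := Ψ (EPat Z (ω ∪ D.WJ τ Wo))

/-- the functional in the rotated frame -/
def rotPsi (Ψ : (ℤ × ℤ → ℤ × ℤ → Prop) → ℂ) (R : ℤ × ℤ → ℤ × ℤ → Prop) : ℂ :=
  Ψ (fun c d => R (rotc c) (rotc d))

lemma rotF_FJ (D : Win) (Z Wo : Finset (ℤ × ℤ)) (Ψ : (ℤ × ℤ → ℤ × ℤ → Prop) → ℂ) :
    rotF (FJ D Z Wo Ψ) = FP D.toH (Z.map rotL) (Wo.map rotL) (rotPsi Ψ) := by
  funext τ ω
  unfold rotF FJ FP rotPsi
  congr 1
  funext c d
  apply propext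
  rw [← EPat_rot Z, map_union, map_rotI_rot, ← WH_toH rfl, rt_rt]

/-- `wa (π - t) = 1 - wa t` -/
lemma wa_pi_sub (t : ℂ) (h : Complex.sin ((t + Real.pi) / 3) ≠ 0) : 1 - wa t = wa (Real.pi - t) := by
  rw [one_sub_wa t h]
  unfold wa
  have : Complex.sin ((Real.pi - t + Real.pi) / 3) = Complex.sin ((t + Real.pi) / 3) := by
    rw [← Complex.sin_pi_sub]
    congr 1
    ring
  rw [this]

lemma sin3_ne {t : ℂ} (h : Complex.sin t ≠ 0) : Complex.sin ((t + Real.pi) / 3) ≠ 0 :=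
  (Pool.Agent.H64.Q1.gen_ne h).2.1

/-- the weights of the rotated window -/
lemma wts_rot {v : ℂ} (hv : Complex.sin (2 * v) ≠ 0) :
    1 - wa v = wa (Real.pi - v) ∧ 1 - wa (v - Real.pi / 2) = wa (Real.pi - v + Real.pi / 2) ∧
      1 - wa (v + Real.pi / 2) = wa (Real.pi - v - Real.pi / 2) := by
  have h2 : Complex.sin (2 * v) = 2 * Complex.sin v * Complex.cos v := Complex.sin_two_mul v
  have hs : Complex.sin v ≠ 0 := fun h => hv (by rw [h2, h]; ring)
  have hc : Complex.cos v ≠ 0 := fun h => hv (by rw [h2, h]; ring)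
  have h3 : Complex.sin (v + Real.pi / 2) ≠ 0 := by rw [Complex.sin_add_pi_div_two]; exact hc
  have h4 : Complex.sin (v - Real.pi / 2) ≠ 0 := by
    rw [Complex.sin_sub_pi_div_two]; exact neg_ne_zero.2 hc
  refine ⟨wa_pi_sub v (sin3_ne hs), ?_, ?_⟩
  · rw [wa_pi_sub _ (sin3_ne h4)]
    congr 1
    ring
  · rw [wa_pi_sub _ (sin3_ne h3)]
    congr 1
    ring

/-- **Functions of the link pattern are exchangeable**, vertical frame. -/
theorem exJ_pat {Z Wo : Finset (ℤ × ℤ)} (hZ : D.GA ⊆ Z)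
    (hW : ∀ x y, lt (x, y) ∈ Wo → ¬ D.InZ x y) {v ζ : ℂ} (hv : Complex.sin (2 * v) ≠ 0)
    (hζ : Pool.Agent.H11.W.Fz ζ) (hp : 0 ≤ r) (hq : r < D.h) (hs : D.a r ≤ s)
    (Ψ : (ℤ × ℤ → ℤ × ℤ → Prop) → ℂ) :
    ExJ D (FJ D Z Wo Ψ) r s (wa v) (wa (v + Real.pi / 2)) (wa (v - Real.pi / 2)) (1 - ζ) := by
  unfold ExJ
  obtain ⟨e1, e2, e3⟩ := wts_rot hv
  rw [rotF_FJ, e1, e2, e3]
  have hv' : Complex.sin (2 * (Real.pi - v)) ≠ 0 := by
    have : 2 * (Real.pi - v) = 2 * Real.pi - 2 * v := by ring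
    rw [this, Complex.sin_two_pi_sub]
    exact neg_ne_zero.2 hv
  refine exF_pat ?_ ?_ hv' hζ.one_sub ?_ ?_ ?_ (rotPsi Ψ)
  · rw [GA_toH]
    exact map_subset_map.2 hZ
  · intro x y h
    rw [mem_rotL] at h
    rw [Win.toH_InZ]
    exact hW _ _ h
  · simp only [Win.toH]; omega
  · simp only [Win.toH]; omega
  · simp only [Win.toH]
    rwa [show -(-r - 1) - 1 = r by ring]

/-- **The track identity for functions of the link pattern**, vertical frame. -/
theorem trackV_pat {Z Wo : Finset (ℤ × ℤ)} (hZ : D.GA ⊆ Z)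
    (hW : ∀ x y, lt (x, y) ∈ Wo → ¬ D.InZ x y) {v ζ : ℂ} (hv : Complex.sin (2 * v) ≠ 0)
    (hζ : Pool.Agent.H11.W.Fz ζ) (hp : 0 ≤ r) (hq : r < D.h) (hs : D.a r ≤ s)
    (hw : s + 1 ≤ D.w) {y1 y2 : ℤ} (C : Comp D (s + 1) y1 y2) (c1 : y1 ≤ r) (c2 : r < y2)
    (Ψ : (ℤ × ℤ → ℤ × ℤ → Prop) → ℂ) :
    VJ D (FJ D Z Wo Ψ) D.a
        (aV D D.a (wa v) (wa (v + Real.pi / 2)) (wa (v - Real.pi / 2)) (1 - ζ) r (s + 1)) -
      VJ D (FJ D Z Wo Ψ) (fun _ => D.w)
        (aV D (fun _ => D.w) (wa v) (wa (v + Real.pi / 2)) (wa (v - Real.pi / 2)) (1 - ζ) r s) =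
      (wa v - (1 - ζ)) * (VJ D (FJ D Z Wo Ψ) (seg D (s + 1) y1 y2) (put (s, r) 1
          (aV D (seg D (s + 1) y1 y2) (wa v) (wa (v + Real.pi / 2)) (wa (v - Real.pi / 2)) (1 - ζ)
            r (s + 1))) -
        VJ D (FJ D Z Wo Ψ) (seg D (s + 1) y1 y2) (put (s, r) 0
          (aV D (seg D (s + 1) y1 y2) (wa v) (wa (v + Real.pi / 2)) (wa (v - Real.pi / 2)) (1 - ζ)
            r (s + 1)))) :=
  track_V (exJ_pat hZ hW hv hζ hp hq hs Ψ) (exJ_pat hZ hW hv hζ hp hq (by omega) Ψ) hp hq hs hw C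
    c1 c2

end Pool.Agent.H25.W
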