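import Mathlib
import Pool.Agent.H25.W.TrackV

set_option autoImplicit false
open Finset

/-! # The track identity for increments, vertical frame

`FI O ct τ ω` = increment of the path of the environment `XJ O τ` at the corner `ct` in the configuration `ω`.
`VJ_FI` : its mean is the increment `incW`. `exJ_of` : if the increments of the rotated window (outside
data `O'` with the rotated root and far labels) are exchangeable, so are those of the window. -/

namespace Pool.Agent.H25.W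

open Pool.Agent.H75.Perc Pool.Agent.H75.TwoArm Pool.Agent.Q1
open Pool.Agent.H75.TwoArm.SymmAux (lab_rot)
open Pool.Agent.H33.Q1 (lt tt lt_inj tt_lt)
open Pool.Agent.H54.W Pool.Agent.H21.W.Tau Pool.Agent.H21.W.TauPos Pool.Agent.H34.W
open Pool.Agent.H74.R45 (exists_lt)

/-! ### Positions which agree on the rows of the window -/

section congr

variable {D : Win} {τ τ' : ℤ → ℤ}

lemma InEJ_congr (h : ∀ y, 0 ≤ y → y < D.h → τ' y = τ y) (x y : ℤ) :
    D.InE τ' x y ↔ D.InE τ x y := by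
  have hh := D.hh
  unfold Win.InE Win.RE Win.RW Win.RB Win.RT
  have e1 := h 0 le_rfl (by omega)
  have e2 := h (D.h - 1) (by omega) (by omega)
  rw [e1, e2]
  refine or_congr Iff.rfl (or_congr ?_ (or_congr ?_ Iff.rfl))
  · constructor
    · rintro ⟨a1, a2, a3, a4⟩
      rw [h y (by omega) a2] at a4
      rw [h (y - 1) (by omega) (by omega)] at a3
      exact ⟨a1, a2, a3, a4⟩
    · rintro ⟨a1, a2, a3, a4⟩
      rw [← h y (by omega) a2] at a4
      rw [← h (y - 1) (by omega) (by omega)] at a3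
      exact ⟨a1, a2, a3, a4⟩
  · constructor
    · rintro ⟨a1, a2, a3, a4⟩
      rw [h y a1 (by omega)] at a4
      rw [h (y + 1) (by omega) a2] at a3
      exact ⟨a1, a2, a3, a4⟩
    · rintro ⟨a1, a2, a3, a4⟩
      rw [← h y a1 (by omega)] at a4
      rw [← h (y + 1) (by omega) a2] at a3
      exact ⟨a1, a2, a3, a4⟩

lemma EJ_congr (h : ∀ y, 0 ≤ y → y < D.h → τ' y = τ y) : D.EJ τ' = D.EJ τ := by
  unfold Win.EJ
  congr 1
  funext x y
  exact propext (InEJ_congr h x y)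

lemma TAJ_congr (h : ∀ y, 0 ≤ y → y < D.h → τ' y = τ y) (x y : ℤ) :
    D.TA τ' x y ↔ D.TA τ x y := by
  have hh := D.hh
  unfold Win.TA
  rw [h (D.h - 1) (by omega) (by omega)]
  refine or_congr ?_ Iff.rfl
  constructor
  · rintro ⟨a1, a2, a3, a4⟩
    rw [h y (by omega) a2, h (y - 1) (by omega) (by omega)] at a3
    rw [h (y - 1) (by omega) (by omega)] at a4
    exact ⟨a1, a2, a3, a4⟩
  · rintro ⟨a1, a2, a3, a4⟩
    rw [← h y (by omega) a2, ← h (y - 1) (by omega) (by omega)] at a3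
    rw [← h (y - 1) (by omega) (by omega)] at a4
    exact ⟨a1, a2, a3, a4⟩

lemma TBJ_congr (h : ∀ y, 0 ≤ y → y < D.h → τ' y = τ y) (x y : ℤ) :
    D.TB τ' x y ↔ D.TB τ x y := by
  have hh := D.hh
  unfold Win.TB
  rw [h 0 le_rfl (by omega)]
  refine or_congr ?_ Iff.rfl
  constructor
  · rintro ⟨a1, a2, a3, a4⟩
    rw [h y a1 (by omega), h (y + 1) (by omega) a2] at a3
    rw [h (y + 1) (by omega) a2] at a4
    exact ⟨a1, a2, a3, a4⟩
  · rintro ⟨a1, a2, a3, a4⟩
    rw [← h y a1 (by omega), ← h (y + 1) (by omega) a2] at a3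
    rw [← h (y + 1) (by omega) a2] at a4
    exact ⟨a1, a2, a3, a4⟩

lemma WRJ_congr (h : ∀ y, 0 ≤ y → y < D.h → τ' y = τ y) : D.WR τ' = D.WR τ := by
  unfold Win.WR
  congr 1
  funext x y
  unfold Win.InO
  rw [InEJ_congr h, TAJ_congr h, TBJ_congr h]

lemma plane_eq {E W E' W' : Finset (ℤ × ℤ)} {c0 : ℤ × ℤ} {k0 : ℤ} {g : ℤ × ℤ}
    {hE : ∀ e ∈ E, (e.1 + e.2) % 2 = 1} {hd : Disjoint E W} {hk : k0 % 4 = ty c0}
    {hroot : plab c0 ∉ E} {hg : DCo (E ∪ W) (fi c0) g}
    {hlow : ∀ v, Co (E ∪ W) (vx c0) v → g.2 < v.2}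
    {hE' : ∀ e ∈ E', (e.1 + e.2) % 2 = 1} {hd' : Disjoint E' W'} {hk' : k0 % 4 = ty c0}
    {hroot' : plab c0 ∉ E'} {hg' : DCo (E' ∪ W') (fi c0) g}
    {hlow' : ∀ v, Co (E' ∪ W') (vx c0) v → g.2 < v.2} (h1 : E = E') (h2 : W = W') :
    Env.plane E W c0 k0 g hE hd hk hroot hg hlow =
      Env.plane E' W' c0 k0 g hE' hd' hk' hroot' hg' hlow' := by
  subst h1 h2
  rfl

lemma XJ_congr (O : Out D) (h : ∀ y, 0 ≤ y → y < D.h → τ' y = τ y) : Win.XJ O τ' = Win.XJ O τ :=
  plane_eq (EJ_congr h) (by unfold Win.WJ; rw [WRJ_congr h])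

/-- positions of the rotated window -/
lemma pos_of_toH (H : HPos D.toH τ) : Pos D (Win.rt τ) where
  lo y h1 h2 := by
    have := H.lo (-y - 1) (by simp only [Win.toH]; omega) (by simp only [Win.toH]; omega)
    simp only [Win.toH] at this
    rwa [show -(-y - 1) - 1 = y by ring] at this
  hi y h1 h2 := H.hi (-y - 1) (by simp only [Win.toH]; omega) (by simp only [Win.toH]; omega)
  up y h1 h2 h3 := by
    unfold Win.rt at h3 ⊢
    have := H.dn (-(y + 1) - 1) (by simp only [Win.toH]; omega) (by simp only [Win.toH]; omega)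
      (by rw [show -(y + 1) - 1 + 1 = -y - 1 by ring]; exact h3)
    simp only [Win.toH] at this
    rwa [show -(-(y + 1) - 1) - 1 = y + 1 by ring] at this
  dn y h1 h2 h3 := by
    unfold Win.rt at h3 ⊢
    have := H.up (-(y + 1) - 1) (by simp only [Win.toH]; omega) (by simp only [Win.toH]; omega)
      (by rw [show -(y + 1) - 1 + 1 = -y - 1 by ring]; exact h3)
    simp only [Win.toH] at this
    rw [show -(y + 1) - 1 + 1 = -y - 1 by ring, show -(-y - 1) - 1 = y by ring] at this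
    exact this

end congr

/-! ### Increments of one configuration -/

/-- **Two environments with corresponding paths**, one configuration. -/
theorem incO_of {X Y : Env} {r : ℤ × ℤ → ℤ × ℤ} (hr : Function.Injective r) (l : (ℤ × ℤ) ↪ (ℤ × ℤ))
    (hE : Y.E = X.E.map l) (n : ℤ) {ω : Finset (ℤ × ℤ)} (hω : ω ⊆ X.E)
    (hz : ∀ i, Y.z (ω.map l) i = r (X.z ω i)) (hK : ∀ i, Y.K (ω.map l) i = X.K ω i + n)
    (c : ℤ × ℤ) : Y.incO (ω.map l) (r c) = w6 ^ n * X.incO ω c := by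
  have hω' : ω.map l ⊆ Y.E := by rw [hE]; exact map_subset_map.2 hω
  have hlen : Y.len (ω.map l) = X.len ω := by
    have h1 : Orb (Y.f (ω.map l)) Y.c0 (X.len ω) := by
      have h2 := Env.orb (X := X) hω
      refine ⟨h2.pos, ?_, ?_⟩
      · have := hz (X.len ω)
        unfold Env.z at this
        rw [this, h2.per]
        exact (hz 0).symm
      · intro i j hij hj h
        apply h2.inj i j hij hj
        have e1 := hz i
        have e2 := hz j
        unfold Env.z at e1 e2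
        rw [e1, e2] at h
        exact hr h
    exact (Env.orb hω').unique h1
  unfold Env.incO
  rw [hlen, mul_sum]
  apply Finset.sum_congr rfl
  intro i _
  rw [hz, hK]
  by_cases h : X.z ω i = c
  · rw [if_pos (by rw [h]), if_pos h, ph_add, mul_comm]
    rfl
  · rw [if_neg (fun h' => h (hr h')), if_neg h, mul_zero]

/-- **Rotation of a plane environment by a right angle**, one configuration. -/
theorem plane_incO_rot {E W E' W' : Finset (ℤ × ℤ)} {c0 c0' : ℤ × ℤ} {k0 k0' : ℤ} {g g' : ℤ × ℤ}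
    {hE : ∀ e ∈ E, (e.1 + e.2) % 2 = 1} {hd : Disjoint E W} {hk : k0 % 4 = ty c0}
    {hroot : plab c0 ∉ E} {hg : DCo (E ∪ W) (fi c0) g}
    {hlow : ∀ v, Co (E ∪ W) (vx c0) v → g.2 < v.2}
    {hE' : ∀ e ∈ E', (e.1 + e.2) % 2 = 1} {hd' : Disjoint E' W'} {hk' : k0' % 4 = ty c0'}
    {hroot' : plab c0' ∉ E'} {hg' : DCo (E' ∪ W') (fi c0') g'}
    {hlow' : ∀ v, Co (E' ∪ W') (vx c0') v → g'.2 < v.2}
    (h1 : E' = E.map rotL) (h2 : W' = W.map rotL) (h3 : c0' = rotc c0) {ω : Finset (ℤ × ℤ)}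
    (hω : ω ⊆ E) (c : ℤ × ℤ) :
    (Env.plane E' W' c0' k0' g' hE' hd' hk' hroot' hg' hlow').incO (ω.map rotL) (rotc c) =
      w6 ^ (k0' - k0) * (Env.plane E W c0 k0 g hE hd hk hroot hg hlow).incO ω c := by
  subst h1 h2 h3
  refine incO_of rotc_injective rotL rfl _ hω ?_ ?_ c
  · intro i
    rw [plane_z (map_subset_map.2 hω), plane_z hω, ← map_union]
    exact iter_rot (fun c => nx_rot _ c) i c0
  · intro i
    rw [plane_K (map_subset_map.2 hω), plane_K hω, ← map_union]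
    have := KK_rot (f := nx (ω ∪ W)) (g := nx ((ω ∪ W).map rotL)) (d := del (ω ∪ W))
      (d' := del ((ω ∪ W).map rotL)) (fun c => nx_rot _ c) (fun c => del_rot c) c0 k0 i
    unfold KK at this ⊢
    linarith

variable {D : Win}

/-- increment of the path at `ct` -/
noncomputable def FI (O : Out D) (ct : ℤ × ℤ) (τ : ℤ → ℤ) (ω : Finset (ℤ × ℤ)) : ℂ :=
  (Win.XJ O τ).incO ω ct

/-- increment of the path at `ct`, horizontal frame -/
noncomputable def FIH {D : HWin} (O : HOut D) (ct : ℤ × ℤ) (τ : ℤ → ℤ) (ω : Finset (ℤ × ℤ)) : ℂ :=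
  (HWin.XH O τ).incO ω ct

/-- the mean of `FI` -/
lemma VJ_FI (O : Out D) (ct : ℤ × ℤ) (τ : ℤ → ℤ) (α : ℤ × ℤ → ℂ) :
    VJ D (FI O ct) τ α = (Win.XJ O τ).incW (opw α) ct := rfl

/-- the mean of `FIH` -/
lemma VF_FIH {D : HWin} (O : HOut D) (ct : ℤ × ℤ) (τ : ℤ → ℤ) (α : ℤ × ℤ → ℂ) :
    VF D (FIH O ct) τ α = (HWin.XH O τ).incW (opw α) ct := rfl

/-- the mean in the rotated window -/
lemma VF_rotF_FI (O : Out D) (O' : HOut D.toH) (hW : O'.Wo = O.Wo.map rotL)
    (hc : O'.c0 = rotc O.c0) (ct : ℤ × ℤ) {τ : ℤ → ℤ} (H : HPos D.toH τ) (β : ℤ × ℤ → ℂ) :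
    VF D.toH (rotF (FI O ct)) τ β = w6 ^ (O.k0 - O'.k0) * VF D.toH (FIH O' (rotc ct)) τ β := by
  have H' := pos_of_toH H
  have e := EH_toH H'
  rw [rt_rt] at e
  have w := WH_toH (D := D) (τ := Win.rt τ) hW
  rw [rt_rt] at w
  unfold VF
  rw [e, Ec_map, Ec_map, ← Ec_smul]
  refine Ec_congr fun ω hω => ?_
  unfold rotF FI FIH
  rw [map_rot_rotI]
  have key := plane_incO_rot (hE := fun _ he => Win.odd_EJ he) (hd := Win.disj_EW (Win.rt τ) O)
    (hk := O.hk) (hroot := fun h => O.hroot (Win.EJ_sub h))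
    (hg := O.hg.anti (Win.EW_sub (Win.rt τ) O))
    (hlow := fun v hv => O.hlow v (hv.mono (Win.EW_sub (Win.rt τ) O)))
    (hE' := fun _ he => HWin.odd_EH he) (hd' := HWin.disj_EW τ O') (hk' := O'.hk)
    (hroot' := fun h => O'.hroot (HWin.EH_sub h)) (hg' := O'.hg.anti (HWin.EW_sub τ O'))
    (hlow' := fun v hv => O'.hlow v (hv.mono (HWin.EW_sub τ O'))) e w hc hω ct
  have key' : (HWin.XH O' τ).incO (ω.map rotL) (rotc ct) =
      w6 ^ (O'.k0 - O.k0) * (Win.XJ O (Win.rt τ)).incO ω ct := key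
  rw [key', ← mul_assoc, ← zpow_add₀ w6_ne]
  simp only [sub_add_sub_cancel, sub_self, zpow_zero, one_mul]

/-- **Exchangeability of the increments**, vertical frame, from the horizontal frame. -/
theorem exJ_of (O : Out D) (O' : HOut D.toH) (hW : O'.Wo = O.Wo.map rotL)
    (hc : O'.c0 = rotc O.c0) {ct : ℤ × ℤ} {r s : ℤ} {a b c κ : ℂ}
    (hF : ExF D.toH (FIH O' (rotc ct)) (-r - 1) s (1 - a) (1 - c) (1 - b) (1 - κ)) :
    ExJ D (FI O ct) r s a b c κ where
  congr τ τ' h := by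
    funext ω
    unfold rotF FI
    rw [XJ_congr O (τ := Win.rt τ) (τ' := Win.rt τ')]
    intro y h1 h2
    exact h _ (by simp only [Win.toH]; omega) (by simp only [Win.toH]; omega)
  step τ i x₁ x₂ H S h := by
    rw [VF_rotF_FI O O' hW hc ct (S.pos H), VF_rotF_FI O O' hW hc ct H, hF.step τ i x₁ x₂ H S h]

end Pool.Agent.H25.W
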