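import Mathlib
import Pool.Agent.H25.W.TrackInc
import Pool.Agent.H64.W.FarH

set_option autoImplicit false
open Finset

/-! # The track identity for increments at outer corners, vertical frame

`exJ_inc` : the increments at a corner which touches a label outside of the box are exchangeable. `trackV_inc` : the
track identity. -/

namespace Pool.Agent.H25.W

open Pool.Agent.H75.Perc Pool.Agent.H75.TwoArm Pool.Agent.Q1
open Pool.Agent.H75.TwoArm.SymmAux (lab_rot)
open Pool.Agent.H33.Q1 (lt tt lt_inj tt_lt)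
open Pool.Agent.H54.W Pool.Agent.H34.W
open Pool.Agent.H64.Q1 (wa)
open Pool.Agent.H64.W (OutC exF_inc)

variable {D : Win} {O : Out D} {ct : ℤ × ℤ} {r s : ℤ} {v ζ : ℂ}

lemma plab_rotc (c : ℤ × ℤ) : plab (rotc c) = rotL (plab c) := by
  obtain ⟨a, b⟩ := c
  unfold plab rotc rotL
  simp only [Function.Embedding.coeFn_mk]
  split_ifs <;> first | (exfalso; omega) | (refine Prod.ext ?_ ?_ <;> simp only <;> omega)

/-- **Increments at outer corners are exchangeable**, vertical frame. -/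
theorem exJ_inc (O' : HOut D.toH) (hW : O'.Wo = O.Wo.map rotL) (hc : O'.c0 = rotc O.c0)
    (hv : Complex.sin (2 * v) ≠ 0) (hζ : Pool.Agent.H11.W.Fz ζ) (hp : 0 ≤ r) (hq : r < D.h)
    (hs : D.a r ≤ s) (ho : lab ct ∉ D.GA ∨ plab ct ∉ D.GA) :
    ExJ D (FI O ct) r s (wa v) (wa (v + Real.pi / 2)) (wa (v - Real.pi / 2)) (1 - ζ) := by
  refine exJ_of O O' hW hc ?_
  obtain ⟨e1, e2, e3⟩ := wts_rot hv
  rw [e1, e2, e3]
  have hv' : Complex.sin (2 * (Real.pi - v)) ≠ 0 := by
    have : 2 * (Real.pi - v) = 2 * Real.pi - 2 * v := by ring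
    rw [this, Complex.sin_two_pi_sub]
    exact neg_ne_zero.2 hv
  have ho' : OutC D.toH (rotc ct) := by
    unfold OutC
    rw [GA_toH, lab_rot, plab_rotc, mem_map_rotL, mem_map_rotL]
    exact ho
  exact exF_inc O' hv' hζ.one_sub (by simp only [Win.toH]; omega) (by simp only [Win.toH]; omega)
    (by simp only [Win.toH]; rwa [show -(-r - 1) - 1 = r by ring]) ho'

/-- **The track identity for increments at outer corners**, vertical frame. -/
theorem trackV_inc (O' : HOut D.toH) (hW : O'.Wo = O.Wo.map rotL) (hc : O'.c0 = rotc O.c0)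
    (hv : Complex.sin (2 * v) ≠ 0) (hζ : Pool.Agent.H11.W.Fz ζ) (hp : 0 ≤ r) (hq : r < D.h)
    (hs : D.a r ≤ s) (hw : s + 1 ≤ D.w) (ho : lab ct ∉ D.GA ∨ plab ct ∉ D.GA) {y1 y2 : ℤ}
    (C : Comp D (s + 1) y1 y2) (c1 : y1 ≤ r) (c2 : r < y2) :
    VJ D (FI O ct) D.a
        (aV D D.a (wa v) (wa (v + Real.pi / 2)) (wa (v - Real.pi / 2)) (1 - ζ) r (s + 1)) -
      VJ D (FI O ct) (fun _ => D.w)
        (aV D (fun _ => D.w) (wa v) (wa (v + Real.pi / 2)) (wa (v - Real.pi / 2)) (1 - ζ) r s) =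
      (wa v - (1 - ζ)) * (VJ D (FI O ct) (seg D (s + 1) y1 y2) (put (s, r) 1
          (aV D (seg D (s + 1) y1 y2) (wa v) (wa (v + Real.pi / 2)) (wa (v - Real.pi / 2)) (1 - ζ)
            r (s + 1))) -
        VJ D (FI O ct) (seg D (s + 1) y1 y2) (put (s, r) 0
          (aV D (seg D (s + 1) y1 y2) (wa v) (wa (v + Real.pi / 2)) (wa (v - Real.pi / 2)) (1 - ζ)
            r (s + 1)))) :=
  track_V (exJ_inc O' hW hc hv hζ hp hq hs ho) (exJ_inc O' hW hc hv hζ hp hq (by omega) ho) hp hq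
    hs hw C c1 c2

end Pool.Agent.H25.W
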