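import Mathlib
import Pool.Agent.H25.W.JY4

set_option autoImplicit false
open Finset

/-! # J4: the marks of the `Y` worlds and the outside `OutY`

`mkY_iff` : the marks are the corners of the gaps with two colours (both corners, except the gap between the
plates `k - 1` and `k`, where only `mk1` is a mark) and the corners `kn q`. `outY` : the outside of the `Y` worlds. -/

namespace Pool.Agent.H25.W

open Pool.Agent.Q1.M4 (lat)
open Pool.Agent.H6.W Pool.Agent.H21.W Pool.Agent.H20.W Pool.Agent.H61.W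
open Pool.Agent.H33.Q1 hiding cf
open Pool.Agent.H54.W (CD)
open Pool.Agent.H73.W (NX Rt Outs)
open Pool.Agent.H13.W

variable {b : JBox} {δ σ : ℝ} {h : ℕ} {w s o : Bool} {cl : Fin (nP b) → Bool} {M : Finset (Bool × ℕ)} {k : ℕ}

/-! ### Colours at the gaps -/

/-- colour of the upper half of the plate `i`, of the wall at the foot -/
def cU (b : JBox) (w s o : Bool) (cl : Fin (nP b) → Bool) (M : Finset (Bool × ℕ)) (k : ℕ) (i : ℕ) : Bool :=
  cf b (cY b o cl s k true) (colM (bsP w s) M (some 0)).u i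

/-- colour of the lower half -/
def cLo (b : JBox) (w s o : Bool) (cl : Fin (nP b) → Bool) (M : Finset (Bool × ℕ)) (k : ℕ) (i : ℕ) : Bool :=
  cf b (cY b o cl s k false) (colM (bsP w s) M (some 0)).l i

lemma cLo_eq (hM : M.card = 2) (hkn : k ≤ nP b) (i : ℕ) :
    cLo b w s o cl M k i = (cU b w s o cl M k i ^^ decide (k ≤ i)) := by
  unfold cLo cU cf
  split_ifs with h
  · unfold cY
    by_cases h1 : k ≤ i <;> cases s <;> simp [h1]
  · rw [decide_eq_true (by omega), colM_foot, hM]
    cases (colM (bsP w s) M (some 0)).u 0 <;> rfl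

/-- away from the mark both corners of a gap have two colours, or none -/
lemma alive_iff (hM : M.card = 2) (hkn : k ≤ nP b) {i : ℕ} (hi : i + 1 ≠ k) :
    cLo b w s o cl M k i ≠ cLo b w s o cl M k (i + 1) ↔
      cU b w s o cl M k i ≠ cU b w s o cl M k (i + 1) := by
  rw [cLo_eq hM hkn, cLo_eq hM hkn]
  have e : decide (k ≤ i) = decide (k ≤ i + 1) := by
    by_cases h : k ≤ i
    · rw [decide_eq_true h, decide_eq_true (by omega)]
    · rw [decide_eq_false h, decide_eq_false (by omega)]
  rw [e]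
  cases cU b w s o cl M k i <;> cases cU b w s o cl M k (i + 1) <;> cases decide (k ≤ i + 1) <;> simp

/-- the two colours at the mark of `P` -/
lemma cU_mark (hk : 1 ≤ k) (hkm : k < b.m) (hm : b.m ≤ nP b) :
    cU b w s o cl M k (k - 1) ≠ cU b w s o cl M k (k - 1 + 1) ↔ s = true := by
  have e : k - 1 + 1 = k := by omega
  unfold cU cf cY cPl
  rw [e, if_pos (by omega), if_pos (by omega), if_pos (by omega), if_pos (by omega),
    decide_eq_false (p := (true = s ∧ k ≤ k - 1)) (by omega)]
  cases s <;> cases o <;> simp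

lemma cLo_mark (hk : 1 ≤ k) (hkm : k < b.m) (hm : b.m ≤ nP b) :
    cLo b w s o cl M k (k - 1) ≠ cLo b w s o cl M k (k - 1 + 1) ↔ s = false := by
  have e : k - 1 + 1 = k := by omega
  unfold cLo cf cY cPl
  rw [e, if_pos (by omega), if_pos (by omega), if_pos (by omega), if_pos (by omega),
    decide_eq_false (p := (false = s ∧ k ≤ k - 1)) (by omega)]
  cases s <;> cases o <;> simp

/-! ### The marks -/

lemma CY_H (hb : b.Ok δ σ) (hd : δ ≤ 1) (hk : 1 ≤ k) : (CY b w s o cl M hb hd hk).H = 2 * Ht b := rfl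

/-- `x` is a corner of a gap with two colours, not the one of the mark -/
def GapY (b : JBox) (w s o : Bool) (cl : Fin (nP b) → Bool) (M : Finset (Bool × ℕ)) (k : ℕ) (x : ℤ) : Prop :=
  ∃ i < nP b, i + 1 ≠ k ∧ (x = gapU b i ∨ x = gapL b i) ∧ cU b w s o cl M k i ≠ cU b w s o cl M k (i + 1)

lemma GapY.range (hb : b.Ok δ σ) (hd : δ ≤ 1) {x : ℤ} (hx : GapY b w s o cl M k x) :
    (Ht b - b.H < x ∧ x < Ht b + b.H) ∧ x ≠ Ht b := by
  obtain ⟨i, h1, -, h2, -⟩ := hx
  have hth := thick hb hd
  have hτ : (0 : ℤ) < b.τ := by exact_mod_cast hb.τ0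
  unfold gapU gapL at h2
  omega

lemma GapY.ne_mk1 (hb : b.Ok δ σ) (hk : 1 ≤ k) {x : ℤ} (hx : GapY b w s o cl M k x) : x ≠ mk1 b s k := by
  obtain ⟨i, h1, h0, h2, -⟩ := hx
  have hτ : (0 : ℤ) < b.τ := by exact_mod_cast hb.τ0
  unfold mk1 gapU gapL at *
  split_ifs <;> omega

lemma GapY.refl {x : ℤ} (hx : GapY b w s o cl M k x) : GapY b w s o cl M k (2 * Ht b - x) := by
  obtain ⟨i, h1, h0, h2, h3⟩ := hx
  refine ⟨i, h1, h0, ?_, h3⟩
  unfold gapU gapL at h2 ⊢
  omega

lemma mk1_range (hb : b.Ok δ σ) (hd : δ ≤ 1) (hk : 1 ≤ k) (hkn : k ≤ nP b) :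
    (Ht b - b.H < mk1 b s k ∧ mk1 b s k < Ht b + b.H) ∧ mk1 b s k ≠ Ht b := by
  have hth := thick hb hd
  have hτ : (0 : ℤ) < b.τ := by exact_mod_cast hb.τ0
  unfold mk1 gapU gapL
  split_ifs <;> omega

theorem mkY_iff (hb : b.Ok δ σ) (hd : δ ≤ 1) (hk : 1 ≤ k) (hkm : k < b.m) (hm : b.m ≤ nP b) (hM : M.card = 2)
    (hi : ∀ q ∈ M, q.2 < b.K) (x : ℤ) : Mk (CY b w s o cl M hb hd hk) (c0Y w s M) x ↔
      GapY b w s o cl M k x ∨ x = mk1 b s k ∨ ∃ q ∈ M, x = kn b q := by
  classical
  have hHt := Ht_pos hb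
  have hHt' : Ht b = b.H + b.K := rfl
  have hH : (0 : ℤ) < b.H := by exact_mod_cast hb.H0
  have hkn : k ≤ nP b := by omega
  have eH := CY_H (w := w) (s := s) (o := o) (cl := cl) (M := M) hb hd hk
  have rng : (GapY b w s o cl M k x ∨ x = mk1 b s k ∨ ∃ q ∈ M, x = kn b q) → 0 ≤ x ∧ x ≤ 2 * Ht b := by
    rintro (h | rfl | ⟨q, h1, rfl⟩)
    · have := h.range hb hd
      omega
    · have := mk1_range (s := s) hb hd hk hkn
      omega
    · have := hi q h1
      unfold kn
      split_ifs <;> omega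
  by_cases hx : 0 ≤ x ∧ x ≤ 2 * Ht b
  · have h1 := col_eq (CY b w s o cl M hb hd hk) (c0Y w s M) hx.1 (by rw [eH]; omega)
    have h2 := col_eq (CY b w s o cl M hb hd hk) (c0Y w s M) (k := x + 1) (by omega) (by rw [eH]; omega)
    rw [add_sub_cancel_right] at h2
    have h3 : colE (CY b w s o cl M hb hd hk) (x - 1) ≠ colE (CY b w s o cl M hb hd hk) x ↔
        (∃ i < nP b, x = gapU b i ∧ cU b w s o cl M k i ≠ cU b w s o cl M k (i + 1)) ∨
        (∃ i < nP b, x = gapL b i ∧ cLo b w s o cl M k i ≠ cLo b w s o cl M k (i + 1)) ∨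
        (∃ i < b.K, x = kn b (true, i) ∧
          (colM (bsP w s) M (some 0)).u i ≠ (colM (bsP w s) M (some 0)).u (i + 1)) ∨
        (∃ i < b.K, x = kn b (false, i) ∧
          (colM (bsP w s) M (some 0)).l i ≠ (colM (bsP w s) M (some 0)).l (i + 1)) :=
      colE_change (c := cY b o cl s k) (u := (colM (bsP w s) M (some 0)).u)
        (l := (colM (bsP w s) M (some 0)).l) hb hd (cY_zero hk) hx.1 (by unfold HJ; exact hx.2)
    unfold Mk
    rw [h1, h2]
    constructor
    · rintro ⟨-, -, h⟩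
      rcases h3.1 h with ⟨i, g1, g2, g3⟩ | ⟨i, g1, g2, g3⟩ | ⟨i, g1, g2, g3⟩ | ⟨i, g1, g2, g3⟩
      · by_cases e : i + 1 = k
        · have e' : i = k - 1 := by omega
          subst e'
          rw [cU_mark hk hkm hm] at g3
          right; left
          unfold mk1
          rw [if_pos g3]
          exact g2
        · exact Or.inl ⟨i, g1, e, Or.inl g2, g3⟩
      · by_cases e : i + 1 = k
        · have e' : i = k - 1 := by omega
          subst e'
          rw [cLo_mark hk hkm hm] at g3
          right; left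
          unfold mk1
          rw [if_neg (by simp [g3])]
          exact g2
        · exact Or.inl ⟨i, g1, e, Or.inr g2, (alive_iff hM hkn e).1 g3⟩
      · exact Or.inr (Or.inr ⟨_, (colM_u i).1 g3, g2⟩)
      · exact Or.inr (Or.inr ⟨_, (colM_l i).1 g3, g2⟩)
    · intro h
      refine ⟨by omega, by rw [eH]; omega, h3.2 ?_⟩
      rcases h with ⟨i, g1, e, g2 | g2, g3⟩ | h | ⟨⟨t, i⟩, g1, g2⟩
      · exact Or.inl ⟨i, g1, g2, g3⟩
      · exact Or.inr (Or.inl ⟨i, g1, g2, (alive_iff hM hkn e).2 g3⟩)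
      · unfold mk1 at h
        by_cases e : s = true
        · rw [if_pos e] at h
          exact Or.inl ⟨k - 1, by omega, h, (cU_mark hk hkm hm).2 e⟩
        · rw [if_neg e] at h
          exact Or.inr (Or.inl ⟨k - 1, by omega, h, (cLo_mark hk hkm hm).2 (by simpa using e)⟩)
      · cases t
        · exact Or.inr (Or.inr (Or.inr ⟨i, hi _ g1, g2, (colM_l i).2 g1⟩))
        · exact Or.inr (Or.inr (Or.inl ⟨i, hi _ g1, g2, (colM_u i).2 g1⟩))
  · constructor
    · rintro ⟨h1, h2, h3⟩
      exfalso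
      rw [eH] at h2
      have : x = -1 ∨ x = 2 * Ht b + 1 := by omega
      rcases this with rfl | rfl
      · apply h3
        have e1 : col (CY b w s o cl M hb hd hk) (c0Y w s M) (-1) = c0Y w s M := by
          unfold col; rw [if_pos (by omega)]
        have e2 : col (CY b w s o cl M hb hd hk) (c0Y w s M) (-1 + 1) =
            (colM (bsP w s) M (some 0)).l b.K := by
          unfold col; rw [if_neg (by omega), if_pos (by omega)]; rfl
        rw [e1, e2]
        have e3 : (M.filter fun c => c.1 = false ∧ b.K ≤ c.2) = ∅ := by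
          rw [filter_eq_empty_iff]
          rintro q hq ⟨-, h⟩
          exact absurd (hi q hq) (not_lt.2 h)
        show _ = (bsP w s ^^ par (M.filter fun c => c.1 = true).card ^^ true ^^
          par (M.filter fun c => c.1 = false ∧ b.K ≤ c.2).card)
        rw [e3]
        unfold c0Y
        cases bsP w s <;> cases par (M.filter fun c => c.1 = true).card <;> rfl
      · apply h3
        have e1 : col (CY b w s o cl M hb hd hk) (c0Y w s M) (2 * Ht b + 1) =
            (colM (bsP w s) M (some 0)).u b.K := by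
          unfold col
          rw [if_neg (by omega), if_neg (by omega), if_neg (by rw [eH]; omega), if_pos (by rw [eH])]
          rfl
        have e2 : col (CY b w s o cl M hb hd hk) (c0Y w s M) (2 * Ht b + 1 + 1) = !c0Y w s M := by
          unfold col
          rw [if_neg (by omega), if_neg (by omega), if_neg (by rw [eH]; omega), if_neg (by rw [eH]; omega)]
        rw [e1, e2]
        have e3 : (M.filter fun c => c.1 = true ∧ c.2 < b.K) = M.filter fun c => c.1 = true := by
          apply filter_congr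
          intro q hq
          exact ⟨fun h => h.1, fun h => ⟨h, hi q hq⟩⟩
        show (bsP w s ^^ par (M.filter fun c => c.1 = true ∧ c.2 < b.K).card) = _
        rw [e3]
        unfold c0Y
        cases bsP w s <;> cases par (M.filter fun c => c.1 = true).card <;> rfl
    · intro h
      exact absurd (rng h) hx

/-! ### The links -/

lemma mmY_gap (hb : b.Ok δ σ) (hd : δ ≤ 1) (hk : 1 ≤ k) {x : ℤ} (hx : GapY b w s o cl M k x) :
    mmY b s k x = 2 * Ht b - x := by
  have h1 := hx.range hb hd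
  have h2 := hx.ne_mk1 hb hk
  unfold mmY
  rw [if_pos ⟨h1.1.1, h1.1.2, h2⟩]

lemma mmY_mk1 : mmY b s k (mk1 b s k) = mk1 b s k := by
  unfold mmY
  rw [if_neg (by simp)]

lemma mmY_kn (hb : b.Ok δ σ) (q : Bool × ℕ) : mmY b s k (kn b q) = kn b q := by
  have := (kn_range hb q).1
  unfold mmY
  rw [if_neg (fun h => this ⟨h.1, h.2.1⟩)]

end Pool.Agent.H25.W
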