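import Mathlib
import Pool.Agent.H25.W.JY5

set_option autoImplicit false
open Finset

/-! # J4: the outside of the `Y` worlds

`YD` : the standing hypotheses. `mY`, `x3Y`, `x4Y` : the mark of `P` and the two fixed marks, `thY` : the links.
`outY : OutY (Ht + H) mY x3Y x4Y thY`. `rtY_iff` : the links which straddle the mark of `P` are those of the gaps to
the left of it. `cnt_eq` : their number in a component. -/

namespace Pool.Agent.H25.W

open Pool.Agent.Q1.M4 (lat)
open Pool.Agent.H6.W Pool.Agent.H21.W Pool.Agent.H20.W Pool.Agent.H61.W Pool.Agent.H99.W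
open Pool.Agent.H33.Q1 hiding cf
open Pool.Agent.H54.W (CD)
open Pool.Agent.H73.W (NX Rt Outs)
open Pool.Agent.H13.W

variable {b : JBox} {δ σ : ℝ} {h : ℕ} {w s o : Bool} {cl : Fin (nP b) → Bool} {k : ℕ} {c3 c4 : Bool × ℕ}

/-- standing hypotheses of the `Y` worlds -/
structure YD (b : JBox) (δ σ : ℝ) (k : ℕ) (c3 c4 : Bool × ℕ) : Prop where
  hb : b.Ok δ σ
  hd : δ ≤ 1
  hk : 1 ≤ k
  hkm : k < b.m
  hm : b.m ≤ nP b
  ne : c3 ≠ c4
  h3 : c3.2 < b.K
  h4 : c4.2 < b.K

namespace YD

variable (D : YD b δ σ k c3 c4)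

/-- coarse data -/
abbrev C (D : YD b δ σ k c3 c4) (w s o : Bool) (cl : Fin (nP b) → Bool) : CD :=
  CY b w s o cl {c3, c4} D.hb D.hd D.hk

/-- colour below the exit -/
abbrev c0 (_ : YD b δ σ k c3 c4) (w s : Bool) : Bool := c0Y w s {c3, c4}

include D in
lemma mem_M {q : Bool × ℕ} (hq : q ∈ ({c3, c4} : Finset (Bool × ℕ))) : q.2 < b.K := by
  simp only [mem_insert, mem_singleton] at hq
  rcases hq with rfl | rfl
  · exact D.h3
  · exact D.h4

include D in
lemma card_M : ({c3, c4} : Finset (Bool × ℕ)).card = 2 := card_pair D.ne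

/-- **the marks** -/
lemma mem_iff (x : ℤ) : x ∈ MkF (D.C w s o cl) (D.c0 w s) ↔
    GapY b w s o cl {c3, c4} k x ∨ x = mk1 b s k ∨ x = kn b c3 ∨ x = kn b c4 := by
  rw [mem_MkF, mkY_iff D.hb D.hd D.hk D.hkm D.hm D.card_M (fun q hq => D.mem_M hq)]
  simp

/-- the mark of `P` -/
def mY (w s o : Bool) (cl : Fin (nP b) → Bool) : Nm (D.C w s o cl) (D.c0 w s) :=
  ⟨mk1 b s k, (D.mem_iff _).2 (Or.inr (Or.inl rfl))⟩

/-- a fixed mark -/
def kY (w s o : Bool) (cl : Fin (nP b) → Bool) (q : Bool × ℕ) (hq : q = c3 ∨ q = c4) :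
    Nm (D.C w s o cl) (D.c0 w s) :=
  ⟨kn b q, (D.mem_iff _).2 (Or.inr (Or.inr (by rcases hq with rfl | rfl <;> simp)))⟩

lemma fst2_or : fst2 b c3 c4 = c3 ∨ fst2 b c3 c4 = c4 := by
  unfold fst2; split_ifs <;> simp

lemma snd2_or : snd2 b c3 c4 = c3 ∨ snd2 b c3 c4 = c4 := by
  unfold snd2; split_ifs <;> simp

def x3Y (w s o : Bool) (cl : Fin (nP b) → Bool) : Nm (D.C w s o cl) (D.c0 w s) :=
  D.kY w s o cl (fst2 b c3 c4) fst2_or

def x4Y (w s o : Bool) (cl : Fin (nP b) → Bool) : Nm (D.C w s o cl) (D.c0 w s) :=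
  D.kY w s o cl (snd2 b c3 c4) snd2_or

include D in
lemma ky_ne : ky b c3 ≠ ky b c4 := fun h => D.ne (ky_inj D.h3 D.h4 h)

include D in
lemma ky_lt : ky b (fst2 b c3 c4) < ky b (snd2 b c3 c4) := by
  have := D.ky_ne
  unfold fst2 snd2
  split_ifs <;> omega

/-- a mark is `x3` or `x4` if it is a fixed mark -/
lemma kn_or {x : ℤ} (hx : x = kn b c3 ∨ x = kn b c4) :
    x = kn b (fst2 b c3 c4) ∨ x = kn b (snd2 b c3 c4) := by
  unfold fst2 snd2
  split_ifs <;> tauto

lemma mm_mem {x : ℤ} (hx : x ∈ MkF (D.C w s o cl) (D.c0 w s)) :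
    mmY b s k x ∈ MkF (D.C w s o cl) (D.c0 w s) := by
  rcases (D.mem_iff x).1 hx with h | h | h | h
  · rw [mmY_gap D.hb D.hd D.hk h, D.mem_iff]
    exact Or.inl h.refl
  · rw [h, mmY_mk1, ← h]; exact hx
  · rw [h, mmY_kn D.hb, ← h]; exact hx
  · rw [h, mmY_kn D.hb, ← h]; exact hx

lemma mm_mm {x : ℤ} (hx : x ∈ MkF (D.C w s o cl) (D.c0 w s)) : mmY b s k (mmY b s k x) = x := by
  rcases (D.mem_iff x).1 hx with h | h | h | h
  · rw [mmY_gap D.hb D.hd D.hk h, mmY_gap D.hb D.hd D.hk h.refl]
    ring
  · rw [h, mmY_mk1, mmY_mk1]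
  · rw [h, mmY_kn D.hb, mmY_kn D.hb]
  · rw [h, mmY_kn D.hb, mmY_kn D.hb]

/-- **the links** -/
def thY (w s o : Bool) (cl : Fin (nP b) → Bool) : Na (D.C w s o cl) (D.c0 w s) →
    Na (D.C w s o cl) (D.c0 w s) := Option.map fun x => ⟨mmY b s k x.1, D.mm_mem x.2⟩

lemma thY_some (x : Nm (D.C w s o cl) (D.c0 w s)) :
    D.thY w s o cl (some x) = some ⟨mmY b s k x.1, D.mm_mem x.2⟩ := rfl

lemma thY_fix {x : Nm (D.C w s o cl) (D.c0 w s)} : D.thY w s o cl (some x) = some x ↔
    mmY b s k x.1 = x.1 := by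
  rw [thY_some]
  constructor
  · intro h; exact congrArg Subtype.val (Option.some.inj h)
  · intro h; congr 1; exact Subtype.ext h

lemma thY_gap {x : Nm (D.C w s o cl) (D.c0 w s)} (h : D.thY w s o cl (some x) ≠ some x) :
    GapY b w s o cl {c3, c4} k x.1 := by
  rw [ne_eq, thY_fix] at h
  rcases (D.mem_iff x.1).1 x.2 with h1 | h1 | h1 | h1
  · exact h1
  · exact absurd (by rw [h1, mmY_mk1]) h
  · exact absurd (by rw [h1, mmY_kn D.hb]) h
  · exact absurd (by rw [h1, mmY_kn D.hb]) h

/-- position of a linked mark -/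
lemma py_gap {x : Nm (D.C w s o cl) (D.c0 w s)} (h : x.1 ≤ Ht b + b.H) :
    py (D.C w s o cl) (D.c0 w s) (Ht b + b.H) (some x) = -x.1 := by
  simp only [py]; rw [if_pos h]

/-- position of a fixed mark -/
lemma py_kn {q : Bool × ℕ} (hq : q = c3 ∨ q = c4) :
    py (D.C w s o cl) (D.c0 w s) (Ht b + b.H) (some (D.kY w s o cl q hq)) =
      if q.1 then ky b q - b.K + 2 else ky b q - b.K + 1 := by
  have hH : (0 : ℤ) < b.H := by exact_mod_cast D.hb.H0
  have eHt : Ht b = b.H + b.K := rfl
  simp only [py]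
  show (if kn b q ≤ Ht b + b.H then -kn b q else 2 * Ht b + 3 - kn b q) = _
  unfold kn ky
  obtain ⟨t, i⟩ := q
  cases t
  · simp only [Bool.false_eq_true, if_false]
    rw [if_pos (by omega)]
    omega
  · simp only [if_true]
    rw [if_neg (by omega)]
    omega

lemma kn_pos {q : Bool × ℕ} (hq : q = c3 ∨ q = c4) {x : Nm (D.C w s o cl) (D.c0 w s)}
    (h : Ht b - b.H < x.1 ∧ x.1 < Ht b + b.H) :
    py (D.C w s o cl) (D.c0 w s) (Ht b + b.H) (some x) <
      py (D.C w s o cl) (D.c0 w s) (Ht b + b.H) (some (D.kY w s o cl q hq)) := by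
  have hH : (0 : ℤ) < b.H := by exact_mod_cast D.hb.H0
  have eHt : Ht b = b.H + b.K := rfl
  have hq2 : q.2 < b.K := by
    rcases hq with rfl | rfl
    · exact D.h3
    · exact D.h4
  rw [D.py_gap (by omega), D.py_kn hq]
  unfold ky
  split_ifs <;> omega

/-- **The outside of the `Y` worlds.** -/
theorem outY : OutY (Ht b + b.H) (D.mY w s o cl) (D.x3Y w s o cl) (D.x4Y w s o cl)
    (D.thY w s o cl) where
  out := {
    inv := by
      rintro (_ | x)
      · rfl
      · rw [thY_some, thY_some]
        congr 1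
        exact Subtype.ext (D.mm_mm x.2)
    nc := by
      intro x y
      unfold NX
      by_cases ex : D.thY w s o cl x = x
      · rw [ex]; rintro ⟨h1, h2, -⟩; omega
      by_cases ey : D.thY w s o cl y = y
      · rw [ey]; rintro ⟨-, h2, h3⟩; omega
      cases x with
      | none => exact absurd rfl ex
      | some x =>
        cases y with
        | none => exact absurd rfl ey
        | some y =>
          have gx := D.thY_gap ex
          have gy := D.thY_gap ey
          have rx := (gx.range D.hb D.hd).1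
          have ry := (gy.range D.hb D.hd).1
          have mx := mmY_gap D.hb D.hd D.hk gx
          have my := mmY_gap D.hb D.hd D.hk gy
          rw [thY_some, thY_some]
          rw [D.py_gap (x := x) (by omega), D.py_gap (x := y) (by omega),
            D.py_gap (x := ⟨mmY b s k x.1, _⟩) (by simp only; omega),
            D.py_gap (x := ⟨mmY b s k y.1, _⟩) (by simp only; omega)]
          simp only
          omega
    fm := (D.thY_fix).2 mmY_mk1
    f3 := (D.thY_fix).2 (mmY_kn D.hb _)
    f4 := (D.thY_fix).2 (mmY_kn D.hb _)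
    m3 := D.kn_pos fst2_or (x := D.mY w s o cl)
      (mk1_range D.hb D.hd D.hk (by have := D.hkm; have := D.hm; omega)).1
    o34 := by
      show py _ _ _ (some (D.kY w s o cl _ fst2_or)) < py _ _ _ (some (D.kY w s o cl _ snd2_or))
      rw [D.py_kn fst2_or, D.py_kn snd2_or]
      have h1 := D.ky_lt
      have h2 : (fst2 b c3 c4).2 < b.K := by
        rcases fst2_or (b := b) (c3 := c3) (c4 := c4) with h | h <;> rw [h]
        · exact D.h3
        · exact D.h4
      have h3 : (snd2 b c3 c4).2 < b.K := by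
        rcases snd2_or (b := b) (c3 := c3) (c4 := c4) with h | h <;> rw [h]
        · exact D.h3
        · exact D.h4
      revert h1 h2 h3
      generalize fst2 b c3 c4 = p
      generalize snd2 b c3 c4 = q
      obtain ⟨t, i⟩ := p
      obtain ⟨t', j⟩ := q
      unfold ky
      intro h1 h2 h3
      cases t <;> cases t' <;> simp only [if_true, Bool.false_eq_true, if_false] at h1 h2 h3 ⊢ <;> omega
    lt3 := by
      intro y hy
      cases y with
      | none => exact absurd rfl hy
      | some y => exact D.kn_pos fst2_or ((D.thY_gap hy).range D.hb D.hd).1 }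
  z := rfl
  al := by
    intro y hy
    cases y with
    | none => exact Or.inl rfl
    | some y =>
      right
      have h1 := D.thY_fix.1 hy
      have key : ∀ z : Nm (D.C w s o cl) (D.c0 w s), y.1 = z.1 → some y = some z := fun z hz => by
        rw [Subtype.ext hz]
      rcases (D.mem_iff y.1).1 y.2 with h | h | h | h
      · exfalso
        rw [mmY_gap D.hb D.hd D.hk h] at h1
        have := (h.range D.hb D.hd).2
        omega
      · left; exact key _ h
      · right
        rcases kn_or (Or.inl h) with h | h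
        · left; exact key _ h
        · right; exact key _ h
      · right
        rcases kn_or (Or.inr h) with h | h
        · left; exact key _ h
        · right; exact key _ h
  blk := by
    intro x hx
    rcases hx with h | rfl
    · have := ((D.thY_gap h).range D.hb D.hd).1
      omega
    · have := (mk1_range (s := s) D.hb D.hd D.hk (by have := D.hkm; have := D.hm; omega)).1
      show mk1 b s k ≤ _
      omega

/-- **The straddling links** are those of the gaps behind the mark. -/
theorem rtY_iff (y : Na (D.C w s o cl) (D.c0 w s)) :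
    Rt (py (D.C w s o cl) (D.c0 w s) (Ht b + b.H)) (D.thY w s o cl) (some (D.mY w s o cl)) y ↔
      ∃ i, k ≤ i ∧ i < nP b ∧ cU b w s o cl {c3, c4} k i ≠ cU b w s o cl {c3, c4} k (i + 1) ∧
        ∃ h : gapL b i ∈ MkF (D.C w s o cl) (D.c0 w s), y = some ⟨gapL b i, h⟩ := by
  have hH : (0 : ℤ) < b.H := by exact_mod_cast D.hb.H0
  have hτ : (0 : ℤ) < b.τ := by exact_mod_cast D.hb.τ0
  have hk := D.hk
  have em : py (D.C w s o cl) (D.c0 w s) (Ht b + b.H) (some (D.mY w s o cl)) = -mk1 b s k :=
    D.py_gap (x := D.mY w s o cl)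
      (mk1_range D.hb D.hd D.hk (by have := D.hkm; have := D.hm; omega)).1.2.le
  unfold Rt
  rw [em]
  constructor
  · rintro ⟨h1, h2⟩
    have hy : D.thY w s o cl y ≠ y := by
      intro e; rw [e] at h2; omega
    cases y with
    | none => exact absurd rfl hy
    | some y =>
      have gy := D.thY_gap hy
      have ry := (gy.range D.hb D.hd).1
      have my := mmY_gap D.hb D.hd D.hk gy
      rw [D.py_gap (x := y) (by omega)] at h1
      rw [thY_some, D.py_gap (x := ⟨mmY b s k y.1, _⟩) (by simp only; omega)] at h2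
      simp only at h2
      obtain ⟨i, i1, i2, i3, i4⟩ := gy
      have i3' := i3
      unfold gapU gapL at i3'
      unfold mk1 gapU gapL at h1 h2
      have hki : k ≤ i := by
        split_ifs at h1 h2 <;> omega
      have e : y.1 = gapL b i := by
        unfold gapL
        rcases i3' with h5 | h5
        · exfalso
          split_ifs at h1 h2 <;> omega
        · exact h5
      refine ⟨i, hki, i1, i4, e ▸ y.2, ?_⟩
      congr 1
      exact Subtype.ext e
  · rintro ⟨i, h1, h2, h3, h4, rfl⟩
    have g : GapY b w s o cl {c3, c4} k (gapL b i) := ⟨i, h2, by omega, Or.inr rfl, h3⟩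
    have rg := (g.range D.hb D.hd).1
    have mg := mmY_gap D.hb D.hd D.hk g
    rw [D.py_gap (x := ⟨gapL b i, h4⟩) (by simp only; omega), thY_some,
      D.py_gap (x := ⟨mmY b s k (gapL b i), _⟩) (by simp only; omega)]
    simp only
    rw [mg]
    unfold mk1 gapU gapL
    split_ifs <;> omega

/-- the upper corner of a gap is a mark iff the gap has two colours (gaps behind the mark) -/
lemma mkU_iff {i : ℕ} (h1 : k ≤ i) (h2 : i < nP b) : Mk (D.C w s o cl) (D.c0 w s) (gapU b i) ↔
    cU b w s o cl {c3, c4} k i ≠ cU b w s o cl {c3, c4} k (i + 1) := by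
  have hτ : (0 : ℤ) < b.τ := by exact_mod_cast D.hb.τ0
  rw [← mem_MkF, D.mem_iff]
  constructor
  · rintro (⟨j, j1, j2, j3, j4⟩ | h | h)
    · unfold gapU gapL at j3
      have : j = i := by omega
      rw [← this]; exact j4
    · exfalso
      have hk := D.hk
      unfold mk1 gapU gapL at h
      split_ifs at h <;> omega
    · exfalso
      have hth := thick D.hb D.hd
      have key : ∀ q, gapU b i ≠ kn b q := by
        intro q e
        have := (kn_range D.hb q).1
        rw [← e] at this
        unfold gapU at this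
        omega
      rcases h with h | h
      · exact key _ h
      · exact key _ h
  · intro h
    exact Or.inl ⟨i, h2, by omega, Or.inl rfl, h⟩

end YD

end Pool.Agent.H25.W
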