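import Mathlib
import Pool.Agent.H25.W.JY6

set_option autoImplicit false
open Finset

/-! # J4: the functional `VU` in terms of the connections in the `Y` worlds

`reach_GM` : the room graph with the arcs joins two names iff the link structure does. `VU_eq` : the value of 73's
functional. `cnt_eq` : the number of straddling links in the component of `x3` = number of gaps behind the mark. -/

namespace Pool.Agent.H25.W

open Pool.Agent.Q1.M4 (lat)
open Pool.Agent.H6.W Pool.Agent.H21.W Pool.Agent.H20.W Pool.Agent.H61.W Pool.Agent.H99.W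
open Pool.Agent.H33.Q1 hiding cf
open Pool.Agent.H54.W (CD)
open Pool.Agent.H73.W (ph NX Rt Outs VU vm cnt)
open Pool.Agent.H13.W
open Pool.Agent.H47.W (sgp Act)
open Pool.Agent.H29.W (reach_sup_iff)

section
variable {C : CD} {c0 : Bool} {n c : ℤ} {v : ℤ × ℤ} {ω : Finset (ℤ × ℤ)} (R : RIn C c0 n v ω)
  {Θ : Na C c0 → Na C c0} (hinv : ∀ e, Θ (Θ e) = e) (mm : ℤ → ℤ)
  (hmm : ∀ k : Nm C c0, ∃ h, Θ (some k) = some ⟨mm k.1, h⟩)

/-- the arcs -/
def AG (C : CD) (c0 : Bool) (n : ℤ) (mm : ℤ → ℤ) : SimpleGraph (ℤ × ℤ) :=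
  SimpleGraph.fromRel fun a b => ∃ k, Mk C c0 k ∧ a = nm C c0 n k ∧ b = nm C c0 n (mm k)

include hinv hmm in
lemma ag_adj {a b : ℤ × ℤ} (h : (AG C c0 n mm).Adj a b) : ∃ k : Nm C c0,
    a = crn C c0 n v (some k) ∧ b = crn C c0 n v (Θ (some k)) := by
  unfold AG at h
  rw [SimpleGraph.fromRel_adj] at h
  obtain ⟨-, ⟨k, h1, h2, h3⟩ | ⟨k, h1, h2, h3⟩⟩ := h
  · have hk := (mem_MkF C c0).2 h1
    obtain ⟨h4, h5⟩ := hmm ⟨k, hk⟩
    refine ⟨⟨k, hk⟩, h2, ?_⟩
    rw [h5]
    exact h3
  · have hk := (mem_MkF C c0).2 h1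
    obtain ⟨h4, h5⟩ := hmm ⟨k, hk⟩
    refine ⟨⟨mm k, h4⟩, h3, ?_⟩
    have := hinv (some ⟨k, hk⟩)
    rw [h5] at this
    rw [this]
    exact h2

include hmm in
lemma adj_ag {k : Nm C c0} (hne : crn C c0 n v (some k) ≠ crn C c0 n v (Θ (some k))) :
    (AG C c0 n mm).Adj (crn C c0 n v (some k)) (crn C c0 n v (Θ (some k))) := by
  unfold AG
  rw [SimpleGraph.fromRel_adj]
  refine ⟨hne, Or.inl ⟨k.1, (mem_MkF C c0).1 k.2, rfl, ?_⟩⟩
  obtain ⟨h4, h5⟩ := hmm k
  rw [h5]
  rfl

include hmm in
lemma ag_reach {x : Na C c0} {b : ℤ × ℤ} (h : (AG C c0 n mm).Reachable (crn C c0 n v x) b) :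
    ∃ y, b = crn C c0 n v y ∧ (lko R hinv).G.Reachable x y := by
  obtain ⟨p⟩ := h
  have key : ∀ (a b : ℤ × ℤ) (_ : (AG C c0 n mm).Walk a b) (x : Na C c0), a = crn C c0 n v x →
      ∃ y, b = crn C c0 n v y ∧ (lko R hinv).G.Reachable x y := by
    intro a b p
    induction p with
    | nil => exact fun x hx => ⟨x, hx, SimpleGraph.Reachable.refl _⟩
    | @cons a d b h _ ih =>
      intro x hx
      obtain ⟨k, h1, h2⟩ := ag_adj (v := v) hinv mm hmm h
      have hxk : x = some k := R.act.inj x (some k) trivial trivial (hx.symm.trans h1)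
      obtain ⟨y, h3, h4⟩ := ih _ h2
      refine ⟨y, h3, SimpleGraph.Reachable.trans ?_ h4⟩
      rw [hxk]
      by_cases he : Θ (some k) = some k
      · rw [he]
      · have : (lko R hinv).G.Adj (some k) (Θ (some k)) :=
          ⟨fun e => he e.symm, Or.inr rfl⟩
        exact this.reachable
  exact key _ _ p x rfl

include hmm in
/-- **The room graph with the arcs.** -/
theorem reach_GM (hz : Θ none = none) (x y : Na C c0) :
    (GM C c0 mm n v ω).Reachable (crn C c0 n v x) (crn C c0 n v y) ↔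
      (lko R hinv).G.Reachable x y := by
  have inj : ∀ x y : Na C c0, crn C c0 n v x = crn C c0 n v y → x = y := fun x y h =>
    R.act.inj x y trivial trivial h
  have eG : GM C c0 mm n v ω = GR C c0 n v ω ⊔ AG C c0 n mm := rfl
  rw [eG, reach_sup_iff (S := Set.range (crn C c0 n v))
    (fun u a b _ hb => by obtain ⟨k, h1, -⟩ := ag_adj (v := v) hinv mm hmm hb; exact ⟨_, h1.symm⟩)
    ⟨x, rfl⟩ ⟨y, rfl⟩]
  constructor
  · intro h
    have key : ∀ a b : ℤ × ℤ, Relation.ReflTransGen (fun a b => a ∈ Set.range (crn C c0 n v) ∧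
        b ∈ Set.range (crn C c0 n v) ∧ ((GR C c0 n v ω).Reachable a b ∨
        (AG C c0 n mm).Reachable a b)) a b → ∀ x, a = crn C c0 n v x →
        ∃ y, b = crn C c0 n v y ∧ (lko R hinv).G.Reachable x y := by
      intro a b h
      induction h with
      | refl => exact fun x hx => ⟨x, hx, SimpleGraph.Reachable.refl _⟩
      | @tail d e _ hs ih =>
        intro x hx
        obtain ⟨y, h1, h2⟩ := ih x hx
        obtain ⟨-, ⟨u, hu⟩, h3⟩ := hs
        rcases h3 with h3 | h3
        · refine ⟨u, hu.symm, h2.trans ?_⟩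
          rw [h1, ← hu] at h3
          rcases (R.act.reach trivial trivial).1 h3 with h4 | h4
          · rw [h4]
          · have h5 : sg C c0 n v ω y ≠ y := (R.act.alive y).2 trivial
            have h6 : (lko R hinv).G.Adj y u := by
              refine ⟨fun e => h5 ?_, Or.inl h4.symm⟩
              show sgp _ _ _ y = y
              rw [← h4, e]
            exact h6.reachable
        · rw [h1] at h3
          obtain ⟨y', h4, h5⟩ := ag_reach R hinv mm hmm h3
          exact ⟨y', h4, h2.trans h5⟩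
    obtain ⟨y', h1, h2⟩ := key _ _ h x rfl
    rw [inj _ _ h1]
    exact h2
  · rintro ⟨p⟩
    induction p with
    | nil => exact Relation.ReflTransGen.refl
    | @cons a d b h _ ih =>
      refine Relation.ReflTransGen.head ⟨⟨a, rfl⟩, ⟨d, rfl⟩, ?_⟩ ih
      obtain ⟨h1, h2 | h2⟩ := h
      · left
        have := (R.act.sgp_mem (a := a) trivial).2.2
        have e : sgp (GR C c0 n v ω) (fun _ => True) (crn C c0 n v) a = d := h2
        rwa [e] at this
      · right
        have e : Θ a = d := h2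
        cases a with
        | none => exact absurd (e.symm.trans hz).symm h1
        | some k =>
          rw [← e]
          exact (adj_ag (v := v) mm hmm (fun h' => h1 (e ▸ inj _ _ h'))).reachable

/-! ### The value of `VU` -/

variable {m x3 x4 : Nm C c0} {θ : Na C c0 → Na C c0} (O : OutY c m x3 x4 θ)

lemma OutY.far_mem : (lko R O.out.inv).far none = some m ∨ (lko R O.out.inv).far none = some x3 ∨
    (lko R O.out.inv).far none = some x4 := by
  have hz : (lko R O.out.inv).θ none = none := O.z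
  have hz' : (lko R O.out.inv).σ none ≠ none := (R.act.alive none).2 trivial
  have h1 := Lk.far_θ hz hz' (fun e _ => (R.act.alive e).2 trivial)
  have h2 := (Lk.far_spec hz hz').1
  rcases O.al _ h1 with h | h | h | h
  · exact absurd h h2
  · exact Or.inl h
  · exact Or.inr (Or.inl h)
  · exact Or.inr (Or.inr h)

lemma OutY.reach_far {k : Nm C c0} (hk : θ (some k) = some k) :
    (lko R O.out.inv).G.Reachable none (some k) ↔ (lko R O.out.inv).far none = some k := by
  have hz : (lko R O.out.inv).θ none = none := O.z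
  have hz' : (lko R O.out.inv).σ none ≠ none := (R.act.alive none).2 trivial
  constructor
  · exact fun h => Lk.far_eq hz hz' (by simp) (Or.inr hk) h
  · intro h
    rw [← h]
    exact (Lk.far_spec hz hz').2.2

open Classical in
/-- **The value of `VU`.** `A` : `z` is joined to `x3`, `B` : to the mark of `P`, `N` : number of straddling links in
the component of `x3` (used only if `B`, then `x3` is not joined to the mark). -/
theorem VU_eq {A B : Prop} {N : ℕ} (hA : A ↔ (lko R O.out.inv).G.Reachable none (some x3))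
    (hB : B ↔ (lko R O.out.inv).G.Reachable none (some m))
    (hN : (lko R O.out.inv).G.Reachable none (some m) →
      ¬ (lko R O.out.inv).G.Reachable (some x3) (some m) →
      N = cnt (lko R O.out.inv) (py C c0 c) (some m) (some x3)) :
    ((if A then 1 else 0) + ph * (if B ∧ Even N then 1 else 0) + ph⁻¹ * (if B ∧ ¬ Even N then 1 else 0) : ℂ) =
      VU (lko R O.out.inv) (py C c0 c) (some m) (some x3) (some x4) 1 0 none := by
  have d1 : (some m : Na C c0) ≠ some x3 := fun e => by
    have := O.out.m3; rw [e] at this; omega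
  have d2 : (some m : Na C c0) ≠ some x4 := fun e => by
    have := O.out.m3; have := O.out.o34; rw [e] at *; omega
  have d3 : (some x3 : Na C c0) ≠ some x4 := fun e => by
    have := O.out.o34; rw [e] at this; omega
  have rm := O.reach_far R O.out.fm
  have r3 := O.reach_far R O.out.f3
  unfold VU
  rcases O.far_mem R with h | h | h
  · have hA' : ¬ A := by rw [hA, r3, h]; exact d1
    have hB' : B := by rw [hB, rm, h]
    have hx : ¬ (lko R O.out.inv).G.Reachable (some x3) (some m) := by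
      intro h1
      apply hA'
      rw [hA]
      exact (hB.1 hB').trans h1.symm
    have hN' := hN (hB.1 hB') hx
    rw [h, if_neg d1, if_neg d2, if_neg hA', hN']
    unfold vm
    by_cases he : Even (cnt (lko R O.out.inv) (py C c0 c) (some m) (some x3))
    · rw [if_pos ⟨hB', he⟩, if_neg (fun h => h.2 he), if_pos he]; ring
    · rw [if_neg (fun h => he h.2), if_pos ⟨hB', he⟩, if_neg he]; ring
  · have hA' : A := by rw [hA, r3, h]
    have hB' : ¬ B := by rw [hB, rm, h]; exact d1.symm
    rw [h, if_pos rfl, if_pos hA', if_neg (fun h => hB' h.1), if_neg (fun h => hB' h.1)]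
    ring
  · have hA' : ¬ A := by rw [hA, r3, h]; exact d3.symm
    have hB' : ¬ B := by rw [hB, rm, h]; exact d2.symm
    rw [h, if_neg d3.symm, if_pos rfl, if_neg hA', if_neg (fun h => hB' h.1), if_neg (fun h => hB' h.1)]
    ring

end

/-! ### The number of straddling links -/

variable {b : JBox} {δ σ : ℝ} {h : ℕ} {w s o : Bool} {cl : Fin (nP b) → Bool} {k : ℕ} {c3 c4 : Bool × ℕ}
  (D : YD b δ σ k c3 c4) {n : ℤ} {v : ℤ × ℤ} {ω : Finset (ℤ × ℤ)}

lemma YD.hmm (x : Nm (D.C w s o cl) (D.c0 w s)) : ∃ h, D.thY w s o cl (some x) =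
    some ⟨mmY b s k x.1, h⟩ := ⟨D.mm_mem x.2, rfl⟩

lemma cnt_ncard {α : Type*} [Fintype α] (L : Lk α) (pos : α → ℤ) (m x : α) :
    cnt L pos m x = Set.ncard {y | Rt pos L.θ m y ∧ L.G.Reachable x y} := by
  classical
  unfold cnt
  rw [← Set.ncard_coe_finset]
  congr 1
  ext y
  simp

open Classical in
/-- **The number of straddling links** in the component of `x3`. -/
theorem YD.cnt_eq (R : RIn (D.C w s o cl) (D.c0 w s) n v ω) :
    cnt (lko R (D.outY (w := w) (s := s) (o := o) (cl := cl)).out.inv)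
      (py (D.C w s o cl) (D.c0 w s) (Ht b + b.H)) (some (D.mY w s o cl)) (some (D.x3Y w s o cl)) =
      Set.ncard {i : ℕ | k ≤ i ∧ i < nP b ∧ Mk (D.C w s o cl) (D.c0 w s) (gapU b i) ∧
        (GM (D.C w s o cl) (D.c0 w s) (mmY b s k) n v ω).Reachable
          (nm (D.C w s o cl) (D.c0 w s) n (kn b (fst2 b c3 c4)))
          (nm (D.C w s o cl) (D.c0 w s) n (gapU b i))} := by
  set L := lko R (D.outY (w := w) (s := s) (o := o) (cl := cl)).out.inv with hL
  set f : ℕ → Na (D.C w s o cl) (D.c0 w s) := fun i =>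
    if h : gapL b i ∈ MkF (D.C w s o cl) (D.c0 w s) then some ⟨gapL b i, h⟩ else none with hf
  -- the gap `i` : both corners are marks, linked
  have key : ∀ i, k ≤ i → i < nP b →
      cU b w s o cl {c3, c4} k i ≠ cU b w s o cl {c3, c4} k (i + 1) →
      ∃ (hL' : gapL b i ∈ MkF (D.C w s o cl) (D.c0 w s)) (hU : gapU b i ∈ MkF (D.C w s o cl) (D.c0 w s)),
        (L.G.Reachable (some (D.x3Y w s o cl)) (some ⟨gapL b i, hL'⟩) ↔
          (GM (D.C w s o cl) (D.c0 w s) (mmY b s k) n v ω).Reachable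
          (nm (D.C w s o cl) (D.c0 w s) n (kn b (fst2 b c3 c4)))
          (nm (D.C w s o cl) (D.c0 w s) n (gapU b i))) := by
    intro i h1 h2 h3
    have gU : GapY b w s o cl {c3, c4} k (gapU b i) := ⟨i, h2, by omega, Or.inl rfl, h3⟩
    have gL : GapY b w s o cl {c3, c4} k (gapL b i) := ⟨i, h2, by omega, Or.inr rfl, h3⟩
    have mU : gapU b i ∈ MkF (D.C w s o cl) (D.c0 w s) := (D.mem_iff _).2 (Or.inl gU)
    have mL : gapL b i ∈ MkF (D.C w s o cl) (D.c0 w s) := (D.mem_iff _).2 (Or.inl gL)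
    refine ⟨mL, mU, ?_⟩
    have e1 := reach_GM R D.outY.out.inv (mmY b s k) D.hmm rfl (some (D.x3Y w s o cl))
      (some ⟨gapU b i, mU⟩)
    have e2 : (GM (D.C w s o cl) (D.c0 w s) (mmY b s k) n v ω).Reachable
          (nm (D.C w s o cl) (D.c0 w s) n (kn b (fst2 b c3 c4)))
          (nm (D.C w s o cl) (D.c0 w s) n (gapU b i)) ↔
        L.G.Reachable (some (D.x3Y w s o cl)) (some ⟨gapU b i, mU⟩) := e1
    rw [e2]
    have hm := mmY_gap D.hb D.hd D.hk gU
    have e3 : D.thY w s o cl (some ⟨gapU b i, mU⟩) = some ⟨gapL b i, mL⟩ := by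
      rw [YD.thY_some]
      congr 1
      apply Subtype.ext
      show mmY b s k (gapU b i) = gapL b i
      rw [hm]
      unfold gapU gapL
      ring
    have e4 : L.G.Adj (some ⟨gapU b i, mU⟩) (some ⟨gapL b i, mL⟩) := by
      refine ⟨?_, Or.inr e3⟩
      intro e
      have e5 : gapU b i = gapL b i := congrArg Subtype.val (Option.some.inj e)
      have hτ : (0 : ℤ) < b.τ := by exact_mod_cast D.hb.τ0
      unfold gapU gapL at e5
      omega
    exact ⟨fun h => h.trans e4.reachable.symm, fun h => h.trans e4.reachable⟩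
  rw [cnt_ncard]
  symm
  refine Set.ncard_congr (fun i _ => f i) ?_ ?_ ?_
  · rintro i ⟨h1, h2, h3, h4⟩
    obtain ⟨mL, mU, e⟩ := key i h1 h2 ((D.mkU_iff h1 h2).1 h3)
    have ef : f i = some ⟨gapL b i, mL⟩ := by rw [hf]; simp only; rw [dif_pos mL]
    refine ⟨?_, ?_⟩
    · show Rt _ (D.thY w s o cl) _ _
      rw [D.rtY_iff]
      exact ⟨i, h1, h2, (D.mkU_iff h1 h2).1 h3, mL, ef⟩
    · rw [ef]; exact e.2 h4
  · rintro i j ⟨h1, h2, h3, -⟩ ⟨h1', h2', h3', -⟩ e
    obtain ⟨mL, -, -⟩ := key i h1 h2 ((D.mkU_iff h1 h2).1 h3)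
    obtain ⟨mL', -, -⟩ := key j h1' h2' ((D.mkU_iff h1' h2').1 h3')
    have ef : f i = some ⟨gapL b i, mL⟩ := by rw [hf]; simp only; rw [dif_pos mL]
    have ef' : f j = some ⟨gapL b j, mL'⟩ := by rw [hf]; simp only; rw [dif_pos mL']
    have e' : f i = f j := e
    rw [ef, ef'] at e'
    have : gapL b i = gapL b j := congrArg Subtype.val (Option.some.inj e')
    unfold gapL at this
    omega
  · rintro y ⟨h1, h2⟩
    have h1' : Rt (py (D.C w s o cl) (D.c0 w s) (Ht b + b.H)) (D.thY w s o cl)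
      (some (D.mY w s o cl)) y := h1
    rw [D.rtY_iff] at h1'
    obtain ⟨i, g1, g2, g3, g4, rfl⟩ := h1'
    obtain ⟨mL, mU, e⟩ := key i g1 g2 g3
    refine ⟨i, ⟨g1, g2, (D.mkU_iff g1 g2).2 g3, e.1 h2⟩, ?_⟩
    rw [hf]; simp only; rw [dif_pos mL]

end Pool.Agent.H25.W
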