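import Mathlib
import Pool.Agent.H25.W.JY7

set_option autoImplicit false
open Finset

/-! # J4: `YHolC`

`yHolC_of : StS → KeyY σ → RInAll → YHolC`. -/

namespace Pool.Agent.H25.W

open Filter Topology
open Pool.Agent.Q1.M4 (lat)
open Pool.Agent.H75.Perc (Pr Pr_map Pr_congr)
open Pool.Agent.H6.W Pool.Agent.H21.W Pool.Agent.H20.W Pool.Agent.H61.W Pool.Agent.H99.W
open Pool.Agent.H33.Q1 hiding cf
open Pool.Agent.H54.W (CD)
open Pool.Agent.H73.W (ph NX Rt Outs VU vm cnt)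
open Pool.Agent.H13.W
open Pool.Agent.H44.W (WLim)

/-- **Limit of the junction functional**, second form. -/
theorem wlim_VU2 {C : CD} {c0 : Bool} {c : ℤ} (H : StS) {m x3 x4 : Nm C c0} {θ : Na C c0 → Na C c0}
    (O : OutY c m x3 x4 θ)
    (n : ℕ → ℤ) (he : ∀ j, n j % 2 = 0) (hn : Tendsto n atTop atTop) (U : Ultrafilter ℕ)
    (hU : (U : Filter ℕ) ≤ atTop) : ∃ (F : ℤ → ℤ × ℤ → ℂ) (g : ℂ → ℂ), DifferentiableOn ℂ g (OmC C) ∧
      WLim (fun j => (n j : ℝ)) U (OmC C) (fun j v => F (n j) v) g ∧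
      ∀ (n : ℤ) (v : ℤ × ℤ), (∀ ω ⊆ ER C n, RIn C c0 n v ω) → ∀ f : Finset (ℤ × ℤ) → ℂ,
        (∀ ω ⊆ ER C n, ∀ R : RIn C c0 n v ω,
          f ω = VU (lko R O.out.inv) (py C c0 c) (some m) (some x3) (some x4) 1 0 none) →
        (starRingEnd ℂ) (mn (ER C n) f) = F n v := by
  obtain ⟨ι, hι, θ', a, b, hab⟩ := mean_eq O
  have hg : ∀ i, ∃ g : ℂ → ℂ, DifferentiableOn ℂ g (OmC C) ∧ (∀ z ∈ OmC C, ‖g z‖ ≤ 1) ∧
      WLim (fun j => (n j : ℝ)) U (OmC C) (fun j => FT (θ' i) (n j)) g := fun i =>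
    H C c0 (θ' i) n he hn U hU
  choose g g1 g2 g3 using hg
  have hR : Tendsto (fun j => (n j : ℝ)) (U : Filter ℕ) atTop :=
    (tendsto_intCast_atTop_atTop.comp hn).mono_left hU
  refine ⟨fun n v => ∑ i, (a i + b i * FT (θ' i) n v), fun z => ∑ i, (a i + b i * g i z), ?_, ?_,
    fun n v h1 f h2 => hab n v h1 f h2⟩
  · exact DifferentiableOn.fun_sum fun i _ => ((g1 i).const_mul (b i)).const_add (a i)
  · have h1 : WLim (fun j => (n j : ℝ)) U (OmC C) (fun _ _ => ∑ i, a i) (fun _ => ∑ i, a i) :=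
      wlim_const hR tendsto_const_nhds
    have h2 := Pool.Agent.H61.W.WLim.sum (Finset.univ : Finset ι) b (f := fun i j => FT (θ' i) (n j)) (g := g)
      (R := fun j => (n j : ℝ)) (F := U) (Ω := OmC C) (fun i _ => g3 i)
    have h3 := Pool.Agent.H61.W.WLim.sum (Finset.univ : Finset Bool) (fun _ => 1)
      (f := fun s j v => if s then ∑ i, a i else ∑ i, b i * FT (θ' i) (n j) v)
      (g := fun s z => if s then ∑ i, a i else ∑ i, b i * g i z)
      (R := fun j => (n j : ℝ)) (F := U) (Ω := OmC C) (fun s _ => by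
        cases s
        · simpa using h2
        · simpa using h1)
    simp only [Fintype.sum_bool, one_mul, if_true, Bool.false_eq_true, if_false] at h3
    simpa only [Finset.sum_add_distrib] using h3

section box
variable {b : JBox} {δ σ : ℝ} {h : ℕ} {w s o : Bool} {cl : Fin (nP b) → Bool} {k : ℕ} {c3 c4 : Bool × ℕ}
  (D : YD b δ σ k c3 c4)

lemma YD.E1_eq (hh : 0 < h) : E1 b h = shR b h (ER (D.C w s o cl) (2 * h)) := by
  have := Pool.Agent.H21.W.E1_eq (u := (colM (bsP w s) {c3, c4} (some 0)).u)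
    (l := (colM (bsP w s) {c3, c4} (some 0)).l) D.hb D.hd (cY_zero (b := b) (o := o) (cl := cl) (s := s) D.hk) hh
  rw [neg_neg] at this
  exact this

/-- the tiles of the room in the coordinates of the coarse data -/
lemma YD.mem_ER' (hh : 0 < h) {u : ℤ × ℤ} : lt (upv b h u) ∈ ER (D.C w s o cl) (2 * h) ↔
    InR b (2 * h) u.1 u.2 := by
  have hn : (0 : ℤ) < 2 * h := by positivity
  unfold upv
  rw [mem_ER hn]
  exact rp_iff (u := (colM (bsP w s) {c3, c4} (some 0)).u) (l := (colM (bsP w s) {c3, c4} (some 0)).l)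
    D.hb D.hd hn (cY_zero (b := b) (o := o) (cl := cl) (s := s) D.hk)

/-- the room in the coordinates of `cdJ` -/
lemma YD.Ur_sub : Ur b ⊆ {z : ℂ | ((b.H : ℝ) : ℂ) * z + (Ht b : ℂ) * Complex.I ∈ OmC (D.C w s o cl)} := by
  have hH : (0 : ℝ) < b.H := by exact_mod_cast D.hb.H0
  unfold OmC
  rw [← interior_affine hH]
  unfold Ur
  apply interior_mono
  rintro z ⟨h1, h2⟩
  have h3 := (mem_roomJ D.hb D.hd).1 ⟨h1, h2⟩
  have f1 := Int.floor_le (z.im * b.H)
  have f2 := (Int.lt_floor_add_one (z.im * b.H)).le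
  have f3 := Int.floor_le (z.re * b.H)
  have f4 := (Int.lt_floor_add_one (z.re * b.H)).le
  have ere : (((b.H : ℝ) : ℂ) * z + (Ht b : ℂ) * Complex.I).re = z.re * b.H := by
    simp; ring
  have eim : (((b.H : ℝ) : ℂ) * z + (Ht b : ℂ) * Complex.I).im = z.im * b.H + Ht b := by
    simp; ring
  refine ⟨⌊z.im * b.H⌋ + Ht b, h3.1.1, h3.1.2, ?_, ?_, ?_, ?_⟩
  · rw [eim]; push_cast; linarith
  · rw [eim]; push_cast; linarith
  · rw [ere]
    have : (AJ b (⌊z.im * b.H⌋ + Ht b) : ℝ) ≤ ⌊z.re * b.H⌋ := by exact_mod_cast h3.2.1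
    exact this.trans f3
  · rw [ere]
    have : (⌊z.re * b.H⌋ : ℝ) + 1 ≤ b.X := by
      have := h3.2.2
      have h4 : ⌊z.re * b.H⌋ + 1 ≤ (b.X : ℤ) := by omega
      exact_mod_cast h4
    show z.re * b.H ≤ ((b.X : ℤ) : ℝ)
    push_cast
    linarith

open Classical in
/-- the integrand of `V1c` -/
noncomputable def YD.fY (_ : YD b δ σ k c3 c4) (h : ℕ) (w s o : Bool) (cl : Fin (nP b) → Bool) (x1 : ℤ)
    (v : ℤ × ℤ) (ω : Finset (ℤ × ℤ)) : ℂ :=
  (if RF b (2 * h) (GY b h w s x1 c3 c4 v o (shR b h ω ∪ plt b h cl)) (zc v) (fst2 b c3 c4) then 1 else 0) +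
  ph * (if (GY b h w s x1 c3 c4 v o (shR b h ω ∪ plt b h cl)).Reachable (zc v) (mc s x1) ∧
    Even (cntY b h s x1 c3 c4 (GY b h w s x1 c3 c4 v o (shR b h ω ∪ plt b h cl))) then 1 else 0) +
  ph⁻¹ * (if (GY b h w s x1 c3 c4 v o (shR b h ω ∪ plt b h cl)).Reachable (zc v) (mc s x1) ∧
    ¬ Even (cntY b h s x1 c3 c4 (GY b h w s x1 c3 c4 v o (shR b h ω ∪ plt b h cl))) then 1 else 0)

/-- `V1c` is the mean of the integrand -/
lemma YD.V1c_eq (hh : 0 < h) (x1 : ℤ) (v : ℤ × ℤ) :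
    V1c b h cl s x1 c3 c4 (GY b h w s x1 c3 c4 v o) (zc v) =
      mn (ER (D.C w s o cl) (2 * h)) (D.fY h w s o cl x1 v) := by
  unfold V1c
  rw [D.E1_eq (w := w) (s := s) (o := o) (cl := cl) hh, Pr_shR, Pr_shR, Pr_shR, Pr_mn, Pr_mn, Pr_mn]
  unfold YD.fY
  rw [mn_add, mn_add, mn_mul, mn_mul]
  congr!

end box

end Pool.Agent.H25.W

namespace Pool.Agent.H61.W.Setup

open Filter Topology
open Pool.Agent.Q1.M4 (lat)
open Pool.Agent.H75.Perc (Pr Pr_map Pr_congr)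
open Pool.Agent.H6.W Pool.Agent.H21.W Pool.Agent.H20.W Pool.Agent.H61.W Pool.Agent.H99.W Pool.Agent.H25.W
open Pool.Agent.H33.Q1 hiding cf
open Pool.Agent.H54.W (CD)
open Pool.Agent.H73.W (ph NX Rt Outs VU vm cnt)
open Pool.Agent.H13.W
open Pool.Agent.H44.W (WLim)

/-- **`YHolC`.** -/
theorem yHolC_of {σ : ℝ} (hS : StS) (key : KeyY σ) (hRI : RInAll) (S : Setup σ) : S.YHolC := by
  intro c hc
  have hσ : 0 < σ := by linarith [hc.1, hc.2]
  filter_upwards [Pool.Agent.H71.W.Setup.ev_d S one_pos, Pool.Agent.H71.W.Setup.ev_d S (inv_pos.2 hσ),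
    Pool.Agent.H71.W.Setup.cor_spec S S.b3, Pool.Agent.H71.W.Setup.cor_spec S S.b4,
    Pool.Agent.H71.W.Setup.cor_ne S S.ne, Pool.Agent.H71.W.Setup.gp_spec S hc]
    with k hd' hσd ⟨g3, _⟩ ⟨g4, _⟩ n34 ⟨j, j0, j1, j2, _, _⟩ 𝒰 hU o cl
  have hb := S.ok k
  have hd := hd'.le
  have hm : (S.B k).m ≤ nP (S.B k) := by
    refine m_le_nP hb ?_
    have := mul_lt_mul_of_pos_left hσd hσ
    rw [mul_inv_cancel₀ hσ.ne'] at this
    exact this.le
  have D : YD (S.B k) (S.δ k) σ j (cor (S.B k) S.b3) (cor (S.B k) S.b4) :=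
    ⟨hb, hd, j0, j1, hm, n34, g3, g4⟩
  have hH : (0 : ℝ) < (S.B k).H := by exact_mod_cast hb.H0
  have O := D.outY (w := S.w) (s := c.1) (o := o) (cl := cl)
  obtain ⟨F, g, hg, hW, hF⟩ := wlim_VU2 hS O (fun n => 2 * (S.h k n : ℤ)) (fun n => by simp)
    (by
      have h1 : Tendsto (fun n => (S.h k n : ℤ)) atTop atTop :=
        tendsto_natCast_atTop_atTop.comp (S.mono k).tendsto_atTop
      exact h1.const_mul_atTop' (by norm_num)) 𝒰 hU
  have hpos : ∀ᶠ n in (𝒰 : Filter ℕ), 0 < (((2 * (S.h k n : ℤ) : ℤ)) : ℝ) := by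
    filter_upwards [hU (S.ev_h0 k)] with n hn
    push_cast
    positivity
  have hW1 := WLim.affine hW hH hpos (fun n => (0, 2 * (S.h k n : ℤ) * Ht (S.B k)))
    ((Ht (S.B k) : ℂ) * Complex.I) (by
      intro n
      apply Complex.ext
      · have := Pool.Agent.H71.W.lat_re (0, 2 * (S.h k n : ℤ) * Ht (S.B k)) 1
        simp only [Complex.ofReal_one, div_one, Int.cast_zero] at this
        rw [this]
        simp
      · have := Pool.Agent.H71.W.lat_im (0, 2 * (S.h k n : ℤ) * Ht (S.B k)) 1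
        simp only [Complex.ofReal_one, div_one] at this
        rw [this]
        simp
        ring)
  have eR : (fun n => ((S.B k).H : ℝ) * (((2 * (S.h k n : ℤ) : ℤ)) : ℝ)) = S.R k := by
    funext n
    unfold Setup.R
    push_cast
    ring
  rw [eR] at hW1
  have hR : Tendsto (S.R k) 𝒰 atTop := (S.R_lim k).mono_left hU
  have hW2 := WLim.mono le_rfl (D.Ur_sub (w := S.w) (s := c.1) (o := o) (cl := cl)) hW1
  refine ⟨_, ?_, WLim.congr_small hR isOpen_interior hW2 ?_⟩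
  · exact (differentiableOn_affine (a := ((S.B k).H : ℝ)) (τ := (Ht (S.B k) : ℂ) * Complex.I) hg).mono
      (D.Ur_sub (w := S.w) (s := c.1) (o := o) (cl := cl))
  · intro K hK hKc ε hε
    obtain ⟨h1, H1⟩ := key (S.B k) (S.δ k) hb hd hm S.w c.1 o cl j j0 j1 _ _ n34 g3 g4 K hK hKc
    obtain ⟨η, hη, H2⟩ := Pool.Agent.H71.W.Setup.room_margin S (k := k) (K := K) hK hKc
    obtain ⟨n0, H3⟩ := hRI (D.C S.w c.1 o cl) (D.c0 S.w c.1)
    have hev : ∀ᶠ n in atTop, max h1 n0.toNat ≤ S.h k n :=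
      (S.mono k).tendsto_atTop.eventually_ge_atTop _
    have hev3 : ∀ᶠ n in atTop, 3 / η ≤ S.R k n := (S.R_lim k).eventually_ge_atTop _
    filter_upwards [hU hev, hU (S.ev_h0 k), hU H2, hU hev3] with n hn hn0 hn2 hn3 v hv
    have hn1 : h1 ≤ S.h k n := (le_max_left _ _).trans hn
    have hn4 : n0.toNat ≤ S.h k n := (le_max_right _ _).trans hn
    have hvK : lat v / ((2 * (S.h k n) * (S.B k).H : ℝ) : ℂ) ∈ K := hv
    have K1 := H1 _ hn1 v hvK _ (j2 (2 * S.h k n))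
    have K2 := hn2 v hv
    rw [div_le_iff₀ hη] at hn3
    set h := S.h k n with hh
    have hRI' : ∀ ω ⊆ ER (D.C S.w c.1 o cl) (2 * h), RIn (D.C S.w c.1 o cl) (D.c0 S.w c.1) (2 * h)
        (upv (S.B k) h v) ω := by
      refine H3 (2 * h) (by omega) (by omega) _ fun u h5 h6 => ?_
      have e : u = upv (S.B k) h (u.1, u.2 - 2 * h * Ht (S.B k)) := by
        unfold upv; ext <;> simp
      rw [e, D.mem_ER' hn0]
      unfold upv at h5 h6
      simp only at h5 h6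
      refine K2 _ ?_ ?_
      · have : |((u.1 - v.1 : ℤ) : ℝ)| ≤ 3 := by exact_mod_cast h5
        simp only
        linarith
      · have h7 : |u.2 - 2 * h * Ht (S.B k) - v.2| ≤ 3 := by
          rw [show u.2 - 2 * h * Ht (S.B k) - v.2 = u.2 - (v.2 + 2 * h * Ht (S.B k)) by ring]
          exact h6
        have : |((u.2 - 2 * h * Ht (S.B k) - v.2 : ℤ) : ℝ)| ≤ 3 := by exact_mod_cast h7
        simp only
        linarith
    have key1 := hF (2 * h) (upv (S.B k) h v) hRI'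
      (D.fY h S.w c.1 o cl (gp (S.B k) (2 * h) c.2) v) (by
        intro ω hω R
        obtain ⟨k1, k2, k3⟩ := K1 ω hω
        have q1 := reach_GM R D.outY.out.inv (mmY (S.B k) c.1 j) D.hmm rfl
        refine VU_eq R O ?_ ?_ ?_
        · rw [k1 _ (YD.fst2_or)]
          exact q1 none (some (D.x3Y S.w c.1 o cl))
        · rw [k2]
          exact q1 none (some (D.mY S.w c.1 o cl))
        · intro a1 a2
          rw [D.cnt_eq R]
          refine k3 ?_ ?_
          · exact (q1 none (some (D.mY S.w c.1 o cl))).2 a1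
          · intro a3
            exact a2 ((q1 (some (D.x3Y S.w c.1 o cl)) (some (D.mY S.w c.1 o cl))).1 a3))
    have e3 : v + (0, 2 * (h : ℤ) * Ht (S.B k)) = upv (S.B k) h v := by
      unfold upv
      ext <;> simp
    have e4 : S.Yc k n o cl c v = mn (ER (D.C S.w c.1 o cl) (2 * h))
        (D.fY h S.w c.1 o cl (gp (S.B k) (2 * h) c.2) v) := D.V1c_eq hn0 _ v
    rw [e3, e4, key1, sub_self, norm_zero]
    exact hε.le

end Pool.Agent.H61.W.Setup
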