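import Mathlib
import Pool.Agent.H73.W.Tangle0

set_option autoImplicit false
open Finset SimpleGraph

/-! # Parity of crossings of two components of a link structure

`par` : two disjoint sets which are closed under the same non crossing involution without fixed points
cross evenly. `comp_par` : for the components of two far ends `x`, `y` of a link structure, ends
`{x, x'}`, `{y, y'}`: the number of pairs (end of the first, member of the second in front of it) and
(linked member of the first, end of the second in front of it) is even. -/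

namespace Pool.Agent.H25.W

open Pool.Agent.H99.W Pool.Agent.H73.W

variable {α : Type*}

/-- `1` if `y` is in front of `x` -/
def lt2 (pos : α → ℤ) (x y : α) : ZMod 2 := if pos y < pos x then 1 else 0

/-- number of pairs `x ∈ S`, `y ∈ T` with `y` in front of `x`, mod 2 -/
def cr (pos : α → ℤ) (S T : Finset α) : ZMod 2 := ∑ x ∈ S, ∑ y ∈ T, lt2 pos x y

/-- the pairs `x ~ s x` and `y ~ s y` do not cross, in any order -/
def NC2 (pos : α → ℤ) (s : α → α) (x y : α) : Prop := NX pos s x y ∧ NX pos s y x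

/-- **Parity.** -/
theorem par {pos : α → ℤ} {s : α → α} {S T : Finset α} (inv : ∀ e, s (s e) = e)
    (hS : ∀ x ∈ S, s x ∈ S ∧ s x ≠ x) (hT : ∀ x ∈ T, s x ∈ T ∧ s x ≠ x)
    (ne : ∀ x ∈ S, ∀ y ∈ T, pos x ≠ pos y) (nc : ∀ x ∈ S, ∀ y ∈ T, NC2 pos s x y) :
    cr pos S T = 0 := by
  unfold cr
  refine Finset.sum_involution (fun x _ => s x) ?_ (fun x hx _ => (hS x hx).2)
    (fun x hx => (hS x hx).1) (fun x _ => inv x)
  intro x hx
  rw [← Finset.sum_add_distrib]
  refine Finset.sum_involution (fun y _ => s y) ?_ (fun y hy _ => (hT y hy).2)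
    (fun y hy => (hT y hy).1) (fun y _ => inv y)
  intro y hy
  have hx' := (hS x hx).1
  have hy' := (hT y hy).1
  have n1 := ne x hx y hy
  have n2 := ne _ hx' y hy
  have n3 := ne x hx _ hy'
  have n4 := ne _ hx' _ hy'
  have c1 := nc x hx y hy
  have c2 := nc _ hx' y hy
  have c3 := nc x hx _ hy'
  have c4 := nc _ hx' _ hy'
  unfold NC2 NX at c1 c2 c3 c4
  rw [inv] at c2 c3 c4
  rw [inv] at c4
  unfold lt2
  split_ifs <;> first | rfl | (exfalso; omega)

lemma cr_union_left {pos : α → ℤ} {S S' T : Finset α} [DecidableEq α] (h : Disjoint S S') :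
    cr pos (S ∪ S') T = cr pos S T + cr pos S' T := sum_union h

lemma cr_union_right {pos : α → ℤ} {S T T' : Finset α} [DecidableEq α] (h : Disjoint T T') :
    cr pos S (T ∪ T') = cr pos S T + cr pos S T' := by
  unfold cr
  rw [← Finset.sum_add_distrib]
  exact sum_congr rfl fun x _ => sum_union h

/-- an even number of members -/
lemma card_even {s : α → α} {S : Finset α} (inv : ∀ e, s (s e) = e)
    (hS : ∀ x ∈ S, s x ∈ S ∧ s x ≠ x) : (S.card : ZMod 2) = 0 := by
  rw [card_eq_sum_ones, Nat.cast_sum]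
  exact Finset.sum_involution (fun x _ => s x) (fun _ _ => rfl) (fun x hx _ => (hS x hx).2)
    (fun x hx => (hS x hx).1) (fun x _ => inv x)

/-! ### Components -/

section comp

variable [Fintype α] {L : Lk α}

open Classical in
/-- the component of `x` -/
noncomputable def comp (L : Lk α) (x : α) : Finset α := univ.filter fun y => L.G.Reachable x y

lemma mem_comp {x y : α} : y ∈ comp L x ↔ L.G.Reachable x y := by
  classical
  unfold comp
  simp

open Classical in
/-- the component of `x` without `x` and `x'` -/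
noncomputable def comp0 (L : Lk α) (x x' : α) : Finset α := comp L x \ {x, x'}

lemma mem_comp0 {x x' y : α} : y ∈ comp0 L x x' ↔ L.G.Reachable x y ∧ y ≠ x ∧ y ≠ x' := by
  classical
  unfold comp0
  simp [mem_comp]

/-- every end with a link outside is an end of a strand of the room -/
def Mat (L : Lk α) : Prop := ∀ e, L.θ e ≠ e → L.σ e ≠ e

omit [Fintype α] in
lemma comp_act (hm : Mat L) {x y : α} (hx : L.σ x ≠ x) (h : L.G.Reachable x y) : L.σ y ≠ y := by
  obtain ⟨p⟩ := h.symm
  cases p with
  | nil => exact hx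
  | cons h _ =>
    obtain ⟨h1, h2 | h2⟩ := h
    · intro h3; exact h1 (h3.symm.trans h2)
    · exact hm _ fun h3 => h1 (h3.symm.trans h2)

/-- a strand with ends `x ≠ x'` -/
structure Str (L : Lk α) (x x' : α) : Prop where
  ne : x ≠ x'
  fx : L.θ x = x
  fx' : L.θ x' = x'
  act : L.σ x ≠ x
  r : L.G.Reachable x x'

omit [Fintype α] in
lemma Str.two {x x' y : α} (h : Str L x x') (hy : L.θ y = y) (hr : L.G.Reachable x y) :
    y = x ∨ y = x' :=
  ends_two L.deg2 (L.isEnd_of_θ h.fx) (L.isEnd_of_θ h.fx') (L.isEnd_of_θ hy) h.r hr h.ne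

lemma Str.σ_mem (hm : Mat L) {x x' : α} (h : Str L x x') :
    ∀ y ∈ comp L x, L.σ y ∈ comp L x ∧ L.σ y ≠ y := by
  intro y hy
  rw [mem_comp] at hy
  exact ⟨mem_comp.2 (hy.trans (L.reach_σ y)), comp_act hm h.act hy⟩

lemma Str.θ_mem {x x' : α} (h : Str L x x') :
    ∀ y ∈ comp0 L x x', L.θ y ∈ comp0 L x x' ∧ L.θ y ≠ y := by
  intro y hy
  rw [mem_comp0] at hy
  obtain ⟨h1, h2, h3⟩ := hy
  have h4 : L.θ y ≠ y := fun h5 => (h.two h5 h1).elim h2 h3
  refine ⟨mem_comp0.2 ⟨h1.trans (L.reach_θ y), ?_, ?_⟩, h4⟩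
  · intro h5
    have h6 := L.hθ y
    rw [h5, h.fx] at h6
    exact h2 h6.symm
  · intro h5
    have h6 := L.hθ y
    rw [h5, h.fx'] at h6
    exact h3 h6.symm

open Classical in
lemma Str.split {x x' : α} (h : Str L x x') : comp L x = {x, x'} ∪ comp0 L x x' := by
  unfold comp0
  rw [union_sdiff_self_eq_union, union_eq_right.2]
  intro y hy
  rw [mem_insert, mem_singleton] at hy
  rw [mem_comp]
  rcases hy with rfl | rfl
  · exact Reachable.refl _
  · exact h.r

open Classical in
lemma disj0 (x x' : α) : Disjoint ({x, x'} : Finset α) (comp0 L x x') := by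
  unfold comp0
  exact disjoint_sdiff

open Classical in
/-- **Parity for two strands.** -/
theorem comp_par (hm : Mat L) {pos : α → ℤ} {x x' y y' : α} (hx : Str L x x') (hy : Str L y y')
    (ne : ∀ a b, L.G.Reachable x a → L.G.Reachable y b → pos a ≠ pos b)
    (nσ : ∀ a b, L.G.Reachable x a → L.G.Reachable y b → NC2 pos L.σ a b)
    (nθ : ∀ a b, NX pos L.θ a b) :
    cr pos {x, x'} (comp0 L y y') + cr pos {x, x'} {y, y'} + cr pos (comp0 L x x') {y, y'} = 0 := by
  have h1 : cr pos (comp L x) (comp L y) = 0 :=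
    par L.hσ (hx.σ_mem hm) (hy.σ_mem hm) (fun a ha b hb => ne a b (mem_comp.1 ha) (mem_comp.1 hb))
      (fun a ha b hb => nσ a b (mem_comp.1 ha) (mem_comp.1 hb))
  have h2 : cr pos (comp0 L x x') (comp0 L y y') = 0 :=
    par L.hθ hx.θ_mem hy.θ_mem
      (fun a ha b hb => ne a b (mem_comp0.1 ha).1 (mem_comp0.1 hb).1)
      (fun a _ b _ => ⟨nθ a b, nθ b a⟩)
  rw [hx.split, hy.split, cr_union_left (disj0 x x'), cr_union_right (disj0 y y'),
    cr_union_right (disj0 y y'), h2, add_zero] at h1
  rw [← h1]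
  ring

end comp

end Pool.Agent.H25.W
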