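import Mathlib
import Pool.Agent.H25.W.TabPar

set_option autoImplicit false
open Finset SimpleGraph

/-! # The tangle table on the boundary

Notation of `H73/W/Tangle0.lean`. `KB` : the value of the far end when there is no mark on `P` and the
marks on the outer wall are `x2`, `x3`, `x4`; `V0` : the functional of the far end. `VU_bdry` : if `x2` is
a corner of the outer wall then `VU` (mark `m` on `P`, moving end at `x2`) is `V0` (marks `x2`, `x3`, `x4`,
moving end at `m`). `far_nc4` : four marks on the wall are joined without crossing. `phase_table` : the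
difference of the values of the two partners of `z`. -/

namespace Pool.Agent.H25.W

open Pool.Agent.H99.W Pool.Agent.H73.W

variable {α : Type*}

open Classical in
/-- the value of the far end `e`, marks `x2`, `x3`, `x4` on the wall -/
noncomputable def KB (pos : α → ℤ) (x2 x3 x4 : α) (u3 u4 : ℂ) (e : α) : ℂ :=
  if e = x3 then u4 else if e = x4 then u3
  else if pos x3 < pos x2 ∧ pos x2 < pos x4 then ph⁻¹ * u3 + ph * u4 else ph * u3 + ph⁻¹ * u4

/-- **The functional without a mark on `P`.** -/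
noncomputable def V0 (L : Lk α) (pos : α → ℤ) (x2 x3 x4 : α) (u3 u4 : ℂ) (z : α) : ℂ :=
  KB pos x2 x3 x4 u3 u4 (L.far z)

lemma KB_norm_le (pos : α → ℤ) (x2 x3 x4 : α) (u3 u4 : ℂ) (e : α) :
    ‖KB pos x2 x3 x4 u3 u4 e‖ ≤ ‖u3‖ + ‖u4‖ := by
  have h3 := norm_nonneg u3
  have h4 := norm_nonneg u4
  unfold KB
  split_ifs
  · linarith
  · linarith
  · exact (norm_add_le _ _).trans (by rw [norm_mul, norm_mul, ph_norm, ph_inv_norm]; simp)
  · exact (norm_add_le _ _).trans (by rw [norm_mul, norm_mul, ph_norm, ph_inv_norm]; simp)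

lemma V0_norm_le (L : Lk α) (pos : α → ℤ) (x2 x3 x4 : α) (u3 u4 : ℂ) (z : α) :
    ‖V0 L pos x2 x3 x4 u3 u4 z‖ ≤ ‖u3‖ + ‖u4‖ := KB_norm_le _ _ _ _ _ _ _

/-- The inside of the room with the corner `x2` on the wall. -/
structure InB (pos : α → ℤ) (m x2 x3 x4 : α) (σ θ : α → α) : Prop where
  inv : ∀ e, σ (σ e) = e
  inj : ∀ x y, pos x = pos y → x = y
  nc : ∀ x y, NX pos σ x y
  f2 : θ x2 = x2
  n3 : x2 ≠ x3
  n4 : x2 ≠ x4
  m2 : pos m < pos x2
  lt2 : ∀ y, θ y ≠ y → pos y < pos x2
  act : ∀ y, σ y ≠ y ↔ (θ y ≠ y ∨ y = x2 ∨ y = m ∨ y = x3 ∨ y = x4)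

section

variable {L : Lk α} {pos : α → ℤ} {m x2 x3 x4 : α}

/-- the corner `x2` as the moving end -/
lemma InB.ins (h : InB pos m x2 x3 x4 L.σ L.θ) : Ins pos x2 m x3 x4 L.σ L.θ where
  inv := h.inv
  inj x y _ _ := h.inj x y
  nc x y _ _ _ _ := h.nc x y
  zθ := h.f2
  zσ := (h.act x2).2 (by simp)
  zm := fun e => by have := h.m2; rw [e] at this; exact lt_irrefl _ this
  z3 := h.n3
  z4 := h.n4
  act := h.act

lemma Ins.mat {z : α} (h : Ins pos z m x3 x4 L.σ L.θ) : Mat L := fun e he => (h.act e).2 (Or.inl he)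

/-- the far end is one of the marks -/
lemma Ins.far_mem [Finite α] {z : α} (h : Ins pos z m x3 x4 L.σ L.θ) :
    L.far z = m ∨ L.far z = x3 ∨ L.far z = x4 := by
  obtain ⟨h1, -, -⟩ := Lk.far_spec h.zθ h.zσ
  have h2 := Lk.far_θ h.zθ h.zσ (Ins.mat h)
  have h3 := Lk.far_σ h.zθ h.zσ (Ins.mat h)
  rcases (h.act _).1 h3 with h4 | h4 | h4
  · exact absurd h2 h4
  · exact absurd h4 h1
  · exact h4

lemma Ins.str [Finite α] {z : α} (h : Ins pos z m x3 x4 L.σ L.θ) : Str L z (L.far z) where
  ne := (Lk.far_spec h.zθ h.zσ).1.symm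
  fx := h.zθ
  fx' := Lk.far_θ h.zθ h.zσ (Ins.mat h)
  act := h.zσ
  r := (Lk.far_spec h.zθ h.zσ).2.2

/-- a strand which starts at an active far end -/
lemma str_far [Finite α] (hm : Mat L) {x : α} (h1 : L.θ x = x) (h2 : L.σ x ≠ x) :
    Str L x (L.far x) where
  ne := (Lk.far_spec h1 h2).1.symm
  fx := h1
  fx' := Lk.far_θ h1 h2 hm
  act := h2
  r := (Lk.far_spec h1 h2).2.2

lemma Str.symm (hm : Mat L) {x x' : α} (h : Str L x x') : Str L x' x where
  ne := h.ne.symm
  fx := h.fx'
  fx' := h.fx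
  act := comp_act hm h.act h.r
  r := h.r.symm

lemma Str.far [Finite α] {x x' : α} (h : Str L x x') : L.far x = x' :=
  Lk.far_eq h.fx h.act h.ne.symm (Or.inr h.fx') h.r

/-- the strands of different ends are different -/
lemma Str.nr {x x' y : α} (h : Str L x x') (hy : L.θ y = y) (h1 : y ≠ x) (h2 : y ≠ x') :
    ¬ L.G.Reachable x y := fun hr => (h.two hy hr).elim h1 h2

end

/-! ### Counting right legs -/

section count

variable [Fintype α] {L : Lk α} {pos : α → ℤ} {m x3 x4 : α}

/-- the number of right legs of a strand mod 2 -/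
lemma cnt_mod {y y' : α} (hy : Str L y y') (hym : ∀ b ∈ comp0 L y y', pos b ≠ pos m)
    (h1 : ¬ Rt pos L.θ m y) (h2 : ¬ Rt pos L.θ m y') :
    (cnt L pos m y : ZMod 2) = ∑ b ∈ comp0 L y y', lt2 pos m b := by
  classical
  have e1 : (cnt L pos m y : ZMod 2) = ∑ b ∈ comp0 L y y', if Rt pos L.θ m b then 1 else 0 := by
    unfold cnt
    rw [Finset.sum_ite, Finset.sum_const_zero, add_zero, Finset.sum_const, nsmul_eq_mul, mul_one]
    congr 2
    ext b
    simp only [mem_filter, mem_univ, true_and, mem_comp0]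
    constructor
    · rintro ⟨h3, h4⟩
      exact ⟨⟨h4, fun h5 => h1 (h5 ▸ h3), fun h5 => h2 (h5 ▸ h3)⟩, h3⟩
    · rintro ⟨⟨h3, -, -⟩, h4⟩
      exact ⟨h4, h3⟩
  rw [e1, ← sub_eq_zero, ← Finset.sum_sub_distrib]
  refine Finset.sum_involution (fun y _ => L.θ y) ?_ (fun y hy' _ => (hy.θ_mem y hy').2)
    (fun y hy' => (hy.θ_mem y hy').1) (fun y _ => L.hθ y)
  intro b hb
  have k1 := hym b hb
  have k2 := hym _ (hy.θ_mem b hb).1
  unfold Rt lt2
  rw [L.hθ]
  split_ifs <;> first | rfl | (exfalso; omega)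

/-- an end to the right of all linked ends -/
lemma all_mod {y y' a : α} (hy : Str L y y') (h : ∀ b, L.θ b ≠ b → pos b < pos a) :
    ∑ b ∈ comp0 L y y', lt2 pos a b = 0 := by
  have : ∀ b ∈ comp0 L y y', lt2 pos a b = 1 := by
    intro b hb
    unfold lt2
    rw [if_pos (h b (hy.θ_mem b hb).2)]
  rw [Finset.sum_congr rfl this, Finset.sum_const, nsmul_eq_mul, mul_one]
  exact card_even L.hθ hy.θ_mem

/-- ends to the right of all linked ends -/
lemma cr_zero {x x' y y' : α} (hx : Str L x x') (h : ∀ b, L.θ b ≠ b → pos b < pos y)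
    (h' : ∀ b, L.θ b ≠ b → pos b < pos y') [DecidableEq α] :
    cr pos (comp0 L x x') {y, y'} = 0 := by
  unfold cr
  refine Finset.sum_eq_zero fun a ha => Finset.sum_eq_zero fun b hb => ?_
  have k := (hx.θ_mem a ha).2
  have k1 := h a k
  have k2 := h' a k
  unfold lt2
  rw [mem_insert, mem_singleton] at hb
  rcases hb with rfl | rfl
  · rw [if_neg (by omega)]
  · rw [if_neg (by omega)]

end count

/-! ### The boundary values -/

section bdry

variable [Fintype α] {L : Lk α} {pos : α → ℤ} {m x2 x3 x4 : α}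

/-- the parity of the number of links of the strand `x3`, `x4` -/
theorem cnt_bdry (hO : Outs pos m x3 x4 L.θ) (hI : InB pos m x2 x3 x4 L.σ L.θ)
    (h : L.far x2 = m) :
    Even (cnt L pos m x3) ↔ ¬ (pos x3 < pos x2 ∧ pos x2 < pos x4) := by
  classical
  have hm : Mat L := Ins.mat hI.ins
  have hmx2 : m ≠ x2 := hI.ins.zm.symm
  have s2 : Str L m x2 := (h ▸ Ins.str hI.ins : Str L x2 m).symm hm
  have e34 : x3 ≠ x4 := fun e => by have := hO.o34; rw [e] at this; exact lt_irrefl _ this
  have em3 : x3 ≠ m := fun e => by have := hO.m3; rw [e] at this; exact lt_irrefl _ this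
  have em4 : x4 ≠ m := fun e => by have := hO.m3.trans hO.o34; rw [e] at this; exact lt_irrefl _ this
  have a3 : L.σ x3 ≠ x3 := (hI.act x3).2 (by simp)
  have f3 : L.far x3 = x4 := by
    have k1 := str_far hm hO.f3 a3
    have k2 := (hI.act _).1 (k1.symm hm).act
    rcases k2 with k2 | k2 | k2 | k2 | k2
    · exact absurd k1.fx' k2
    · exfalso
      rw [k2] at k1
      exact s2.nr hO.f3 em3 hI.n3.symm (s2.r.trans k1.r.symm)
    · exfalso
      rw [k2] at k1
      exact s2.nr hO.f3 em3 hI.n3.symm k1.r.symm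
    · exact absurd k2 k1.ne.symm
    · exact k2
  have s3 : Str L x3 x4 := f3 ▸ str_far hm hO.f3 a3
  have nr : ¬ L.G.Reachable m x3 := s2.nr hO.f3 em3 hI.n3.symm
  have ne : ∀ a b, L.G.Reachable m a → L.G.Reachable x3 b → pos a ≠ pos b := by
    intro a b ha hb e
    rw [hI.inj _ _ e] at ha
    exact nr (ha.trans hb.symm)
  have key := comp_par hm s2 s3 ne (fun a b _ _ => ⟨hI.nc a b, hI.nc b a⟩) hO.nc
  have l4 : ∀ b, L.θ b ≠ b → pos b < pos x4 := fun b hb => (hO.lt3 b hb).trans hO.o34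
  rw [cr_zero s2 hO.lt3 l4, add_zero] at key
  unfold cr at key
  rw [Finset.sum_pair hmx2, Finset.sum_pair hmx2, all_mod s3 hI.lt2, add_zero,
    Finset.sum_pair e34, Finset.sum_pair e34] at key
  have r3 : ¬ Rt pos L.θ m x3 := by
    rintro ⟨h1, h2⟩
    rw [hO.f3] at h2
    omega
  have r4 : ¬ Rt pos L.θ m x4 := by
    rintro ⟨h1, h2⟩
    rw [hO.f4] at h2
    omega
  rw [← cnt_mod s3 (fun b hb e => by
    rw [mem_comp0] at hb
    rw [hI.inj _ _ e] at hb
    exact nr hb.1.symm) r3 r4] at key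
  have h3 := hO.m3
  have h4 := hO.o34
  have h5 := hI.m2
  have h6 : pos x2 ≠ pos x3 := fun e => hI.n3 (hI.inj _ _ e)
  have h7 : pos x2 ≠ pos x4 := fun e => hI.n4 (hI.inj _ _ e)
  have c0 : (cnt L pos m x3 : ZMod 2) = lt2 pos x2 x3 + lt2 pos x2 x4 := by
    have z1 : lt2 pos m x3 = 0 := by unfold lt2; rw [if_neg (by omega)]
    have z2 : lt2 pos m x4 = 0 := by unfold lt2; rw [if_neg (by omega)]
    rw [z1, z2, add_zero, zero_add] at key
    have := add_eq_zero_iff_eq_neg.1 key
    rw [this]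
    exact ZMod.neg_eq_self_mod_two _
  rw [← ZMod.natCast_eq_zero_iff_even, c0]
  unfold lt2
  split_ifs with g1 g2 g2
  · simp only [show (1 : ZMod 2) + 1 = 0 from rfl, true_iff]
    omega
  · simp only [add_zero, one_ne_zero, false_iff]
    omega
  · exfalso; omega
  · simp only [add_zero, true_iff]
    omega

/-- **The boundary value**: the moving end at the corner `x2`, the mark `m` on `P` = the moving end at
`m`, the mark `x2` on the wall. -/
theorem VU_bdry (hO : Outs pos m x3 x4 L.θ) (hI : InB pos m x2 x3 x4 L.σ L.θ) (u3 u4 : ℂ) :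
    VU L pos m x3 x4 u3 u4 x2 = V0 L pos x2 x3 x4 u3 u4 m := by
  classical
  have hm : Mat L := Ins.mat hI.ins
  have e34 : x3 ≠ x4 := fun e => by have := hO.o34; rw [e] at this; exact lt_irrefl _ this
  have em3 : x3 ≠ m := fun e => by have := hO.m3; rw [e] at this; exact lt_irrefl _ this
  have em4 : x4 ≠ m := fun e => by have := hO.m3.trans hO.o34; rw [e] at this; exact lt_irrefl _ this
  have am : L.σ m ≠ m := (hI.act m).2 (by simp)
  have sm := str_far hm hO.fm am
  have s2 := Ins.str hI.ins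
  have kf := (hI.act _).1 (sm.symm hm).act
  -- the far end of `m`
  have fm : L.far m = x2 ∨ L.far m = x3 ∨ L.far m = x4 := by
    rcases kf with k | k | k | k | k
    · exact absurd sm.fx' k
    · exact Or.inl k
    · exact absurd k sm.ne.symm
    · exact Or.inr (Or.inl k)
    · exact Or.inr (Or.inr k)
  unfold VU V0 KB
  rcases Ins.far_mem hI.ins with h | h | h
  · -- `x2 ~ m`
    have hf : L.far m = x2 := by
      rw [h] at s2
      exact (s2.symm hm).far
    rw [h, if_neg (fun e => em3 e.symm), if_neg (fun e => em4 e.symm), hf, if_neg hI.n3,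
      if_neg hI.n4]
    have c := cnt_bdry hO hI h
    unfold vm
    by_cases c1 : pos x3 < pos x2 ∧ pos x2 < pos x4
    · rw [if_pos c1, if_neg (fun c2 => (c.1 c2) c1)]
    · rw [if_neg c1, if_pos (c.2 c1)]
  · -- `x2 ~ x3`
    have hf : L.far m = x4 := by
      rw [h] at s2
      rcases fm with k | k | k
      · exfalso
        rw [k] at sm
        exact s2.nr hO.fm hI.ins.zm.symm em3.symm sm.r.symm
      · exfalso
        rw [k] at sm
        exact s2.nr hO.fm hI.ins.zm.symm em3.symm (s2.r.trans sm.r.symm)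
      · exact k
    rw [if_pos h, hf, if_neg e34.symm, if_pos rfl]
  · -- `x2 ~ x4`
    have hf : L.far m = x3 := by
      rw [h] at s2
      rcases fm with k | k | k
      · exfalso
        rw [k] at sm
        exact s2.nr hO.fm hI.ins.zm.symm em4.symm sm.r.symm
      · exact k
      · exfalso
        rw [k] at sm
        exact s2.nr hO.fm hI.ins.zm.symm em4.symm (s2.r.trans sm.r.symm)
    rw [h, if_neg e34.symm, if_pos rfl, hf, if_pos rfl]

end bdry

end Pool.Agent.H25.W
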