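import Mathlib
import Pool.Agent.H25.W.TabBd

set_option autoImplicit false
open Finset SimpleGraph

/-! # The phase table: four marks on the wall

`InW` : the room with the four marks `z`, `x2`, `x3`, `x4` on the wall. `far_nc4` : the marks are joined
without crossing, so `z` is joined to a neighbour (`TyA`: `y1 y2 | y3 y4`, `TyB`: `y1 y4 | y2 y3` in the
order `y1 < y2 < y3 < y4` of the marks). `phase_table` : the difference of the values of the partners of
`z` in the two cases is `(u3 - u4) ph^2 ph^(-N)`, `N` = number of marks among `x2`, `x3`, `x4` in front of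
`z` minus number of marks among `x3`, `x4` in front of `x2`. `V0_wall` : the resulting formula for `V0`
in two worlds. -/

namespace Pool.Agent.H25.W

open Pool.Agent.H99.W Pool.Agent.H73.W

variable {α : Type*}

/-- the room with four marks on the wall -/
structure InW (pos : α → ℤ) (z x2 x3 x4 : α) (σ θ : α → α) : Prop where
  inv : ∀ e, σ (σ e) = e
  inj : ∀ x y, pos x = pos y → x = y
  nc : ∀ x y, NX pos σ x y
  nθ : ∀ x y, NX pos θ x y
  fz : θ z = z
  f2 : θ x2 = x2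
  f3 : θ x3 = x3
  f4 : θ x4 = x4
  z2 : z ≠ x2
  z3 : z ≠ x3
  z4 : z ≠ x4
  n3 : x2 ≠ x3
  n4 : x2 ≠ x4
  o34 : pos x3 < pos x4
  lz : ∀ y, θ y ≠ y → pos y < pos z
  l2 : ∀ y, θ y ≠ y → pos y < pos x2
  l3 : ∀ y, θ y ≠ y → pos y < pos x3
  act : ∀ y, σ y ≠ y ↔ (θ y ≠ y ∨ y = z ∨ y = x2 ∨ y = x3 ∨ y = x4)

/-- number of marks in front of `x` -/
def rk (pos : α → ℤ) (z x2 x3 x4 x : α) : ℤ :=
  (if pos z < pos x then 1 else 0) + (if pos x2 < pos x then 1 else 0) +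
    (if pos x3 < pos x then 1 else 0) + (if pos x4 < pos x then 1 else 0)

/-- type `y1 y2 | y3 y4`, partner `a` of `z` -/
def TyA (pos : α → ℤ) (z x2 x3 x4 a : α) : Prop :=
  rk pos z x2 x3 x4 z + rk pos z x2 x3 x4 a = 1 ∨ rk pos z x2 x3 x4 z + rk pos z x2 x3 x4 a = 5

/-- type `y1 y4 | y2 y3`, partner `a` of `z` -/
def TyB (pos : α → ℤ) (z x2 x3 x4 a : α) : Prop :=
  rk pos z x2 x3 x4 z + rk pos z x2 x3 x4 a = 3

/-- the exponent of the phase -/
def NN (pos : α → ℤ) (z x2 x3 x4 : α) : ℤ :=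
  (if pos x2 < pos z then 1 else 0) + (if pos x3 < pos z then 1 else 0) +
    (if pos x4 < pos z then 1 else 0) - (if pos x3 < pos x2 then 1 else 0) -
    (if pos x4 < pos x2 then 1 else 0)

/-- the phase -/
noncomputable def E (n : ℤ) : ℂ := ph ^ 2 * (ph⁻¹) ^ n

lemma E_0 : E 0 = ph - 1 := by
  unfold E; rw [zpow_zero, mul_one, sq, ph_sq]

lemma E_1 : E 1 = ph := by
  unfold E; rw [zpow_one, sq, mul_assoc, ph_mul, mul_one]

lemma E_2 : E 2 = 1 := by
  unfold E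
  rw [show (2 : ℤ) = ((2 : ℕ) : ℤ) from rfl, zpow_natCast, ← mul_pow, ph_mul, one_pow]

lemma E_3 : E 3 = 1 - ph := by
  unfold E
  rw [show (3 : ℤ) = 2 + 1 from rfl, zpow_add₀ (inv_ne_zero ph_ne), zpow_one,
    show (2 : ℤ) = ((2 : ℕ) : ℤ) from rfl, zpow_natCast, ← mul_assoc, ← mul_pow, ph_mul, one_pow,
    one_mul, ph_inv]

lemma ph_cu : ph ^ 3 = -1 := by
  have h := ph_sq
  linear_combination (ph + 1) * h

lemma E_m1 : E (-1) = -1 := by
  unfold E
  rw [zpow_neg_one, inv_inv, ← ph_cu]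
  ring

lemma E_m2 : E (-2) = -ph := by
  unfold E
  rw [show (-2 : ℤ) = -((2 : ℕ) : ℤ) from rfl, zpow_neg, zpow_natCast, ← inv_pow, inv_inv]
  linear_combination ph * ph_cu

lemma E_norm (n : ℤ) : ‖E n‖ = 1 := by
  unfold E
  rw [norm_mul, norm_pow, norm_zpow, ph_norm, ph_inv_norm, one_pow, one_zpow, mul_one]

lemma KB_3 (pos : α → ℤ) (x2 x3 x4 : α) (u3 u4 : ℂ) : KB pos x2 x3 x4 u3 u4 x3 = u4 := by
  unfold KB; rw [if_pos rfl]

lemma KB_4 (pos : α → ℤ) {x2 x3 x4 : α} (h : x3 ≠ x4) (u3 u4 : ℂ) :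
    KB pos x2 x3 x4 u3 u4 x4 = u3 := by
  unfold KB; rw [if_neg h.symm, if_pos rfl]

lemma KB_2i (pos : α → ℤ) {x2 x3 x4 : α} (h3 : x2 ≠ x3) (h4 : x2 ≠ x4)
    (h : pos x3 < pos x2 ∧ pos x2 < pos x4) (u3 u4 : ℂ) :
    KB pos x2 x3 x4 u3 u4 x2 = ph⁻¹ * u3 + ph * u4 := by
  unfold KB; rw [if_neg h3, if_neg h4, if_pos h]

lemma KB_2o (pos : α → ℤ) {x2 x3 x4 : α} (h3 : x2 ≠ x3) (h4 : x2 ≠ x4)
    (h : ¬ (pos x3 < pos x2 ∧ pos x2 < pos x4)) (u3 u4 : ℂ) :
    KB pos x2 x3 x4 u3 u4 x2 = ph * u3 + ph⁻¹ * u4 := by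
  unfold KB; rw [if_neg h3, if_neg h4, if_neg h]

/-- **The phase table.** -/
theorem phase_table {pos : α → ℤ} {z x2 x3 x4 a b : α} (p2 : pos z ≠ pos x2) (p3 : pos z ≠ pos x3)
    (p4 : pos z ≠ pos x4) (q3 : pos x2 ≠ pos x3) (q4 : pos x2 ≠ pos x4) (o34 : pos x3 < pos x4)
    (ha : a = x2 ∨ a = x3 ∨ a = x4) (hb : b = x2 ∨ b = x3 ∨ b = x4)
    (hA : TyA pos z x2 x3 x4 a) (hB : TyB pos z x2 x3 x4 b) (u3 u4 : ℂ) :
    KB pos x2 x3 x4 u3 u4 a - KB pos x2 x3 x4 u3 u4 b = (u3 - u4) * E (NN pos z x2 x3 x4) := by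
  have n3 : x2 ≠ x3 := fun e => q3 (by rw [e])
  have n4 : x2 ≠ x4 := fun e => q4 (by rw [e])
  have n34 : x3 ≠ x4 := fun e => by rw [e] at o34; exact lt_irrefl _ o34
  unfold TyA rk at hA
  unfold TyB rk at hB
  unfold NN
  have k3 := KB_3 pos x2 x3 x4 u3 u4
  have k4 := KB_4 pos (x2 := x2) n34 u3 u4
  have ki := KB_2i pos n3 n4 (u3 := u3) (u4 := u4)
  have ko := KB_2o pos n3 n4 (u3 := u3) (u4 := u4)
  generalize KB pos x2 x3 x4 u3 u4 = K at *
  have o34' := o34.not_gt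
  rcases lt_or_gt_of_ne p2 with h2 | h2 <;> rcases lt_or_gt_of_ne p3 with h3 | h3 <;>
    rcases lt_or_gt_of_ne p4 with h4 | h4 <;> rcases lt_or_gt_of_ne q3 with h5 | h5 <;>
    rcases lt_or_gt_of_ne q4 with h6 | h6 <;>
    first
    | (exfalso; omega)
    | (have g2 := h2.not_gt
       have g3 := h3.not_gt
       have g4 := h4.not_gt
       have g5 := h5.not_gt
       have g6 := h6.not_gt
       simp only [h5, h6, g5, g6, true_and, and_true, false_and, and_false, not_true, not_false_iff,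
         forall_const, IsEmpty.forall_iff, and_self] at ki ko
       simp only [h2, h3, h4, h5, h6, g2, g3, g4, g5, g6, o34, o34', if_true, if_false]
       rcases ha with rfl | rfl | rfl <;> rcases hb with rfl | rfl | rfl <;>
         simp only [h2, h3, h4, h5, h6, g2, g3, g4, g5, g6, o34, o34', if_true, if_false,
           lt_irrefl] at hA hB <;>
         first
         | (exfalso; omega)
         | (norm_num [E_0, E_1, E_2, E_3, E_m1, E_m2, k3, k4, ki, ko, ph_inv] <;> done)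
         | (norm_num [E_0, E_1, E_2, E_3, E_m1, E_m2, k3, k4, ki, ko, ph_inv]
            ring))

section wall

variable [Fintype α] {L : Lk α} {pos : α → ℤ} {z x2 x3 x4 : α}

lemma InW.mat (h : InW pos z x2 x3 x4 L.σ L.θ) : Mat L := fun e he => (h.act e).2 (Or.inl he)

lemma InW.az (h : InW pos z x2 x3 x4 L.σ L.θ) : L.σ z ≠ z := (h.act z).2 (by simp)

lemma InW.l4 (h : InW pos z x2 x3 x4 L.σ L.θ) : ∀ y, L.θ y ≠ y → pos y < pos x4 :=
  fun y hy => (h.l3 y hy).trans h.o34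

/-- the far end of `z` -/
lemma InW.far_mem (h : InW pos z x2 x3 x4 L.σ L.θ) :
    L.far z = x2 ∨ L.far z = x3 ∨ L.far z = x4 := by
  have s := str_far h.mat h.fz h.az
  rcases (h.act _).1 (s.symm h.mat).act with k | k | k
  · exact absurd s.fx' k
  · exact absurd k s.ne.symm
  · exact k

/-- the two other marks form a strand -/
lemma InW.str2 (h : InW pos z x2 x3 x4 L.σ L.θ) {b c : α} (hb : L.θ b = b) (ab : L.σ b ≠ b)
    (hbz : b ≠ z) (hbf : b ≠ L.far z) (hc : ∀ e, L.σ e ≠ e → L.θ e = e → e = z ∨ e = L.far z ∨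
      e = b ∨ e = c) : Str L b c := by
  have s := str_far h.mat h.fz h.az
  have s' := str_far h.mat hb ab
  rcases hc _ (s'.symm h.mat).act s'.fx' with k | k | k | k
  · exfalso
    rw [k] at s'
    exact s.nr hb hbz hbf s'.r.symm
  · exfalso
    rw [k] at s'
    exact s.nr hb hbz hbf (s.r.trans s'.r.symm)
  · exact absurd k s'.ne.symm
  · rw [← k]
    exact s'

open Classical in
/-- two strands with their ends in the outer wall cross evenly -/
lemma InW.cross (h : InW pos z x2 x3 x4 L.σ L.θ) {b c : α} (s' : Str L b c) (hbz : b ≠ z)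
    (hbf : b ≠ L.far z) (lf : ∀ y, L.θ y ≠ y → pos y < pos (L.far z))
    (lb : ∀ y, L.θ y ≠ y → pos y < pos b) (lc : ∀ y, L.θ y ≠ y → pos y < pos c) :
    lt2 pos z b + lt2 pos z c + (lt2 pos (L.far z) b + lt2 pos (L.far z) c) = 0 := by
  have s := str_far h.mat h.fz h.az
  have nr : ¬ L.G.Reachable z b := s.nr s'.fx hbz hbf
  have ne : ∀ a d, L.G.Reachable z a → L.G.Reachable b d → pos a ≠ pos d := by
    intro a d ha hd e
    rw [h.inj _ _ e] at ha
    exact nr (ha.trans hd.symm)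
  have key := comp_par h.mat s s' ne (fun a d _ _ => ⟨h.nc a d, h.nc d a⟩) h.nθ
  rw [cr_zero s lb lc, add_zero] at key
  unfold cr at key
  rw [Finset.sum_pair s.ne, Finset.sum_pair s.ne, all_mod s' h.lz, all_mod s' lf,
    Finset.sum_pair s'.ne, Finset.sum_pair s'.ne] at key
  simpa using key

/-- **The four marks are joined without crossing.** -/
theorem far_nc4 (h : InW pos z x2 x3 x4 L.σ L.θ) :
    TyA pos z x2 x3 x4 (L.far z) ∨ TyB pos z x2 x3 x4 (L.far z) := by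
  have p2 : pos z ≠ pos x2 := fun e => h.z2 (h.inj _ _ e)
  have p3 : pos z ≠ pos x3 := fun e => h.z3 (h.inj _ _ e)
  have p4 : pos z ≠ pos x4 := fun e => h.z4 (h.inj _ _ e)
  have q3 : pos x2 ≠ pos x3 := fun e => h.n3 (h.inj _ _ e)
  have q4 : pos x2 ≠ pos x4 := fun e => h.n4 (h.inj _ _ e)
  have o34 := h.o34
  have n34 : x3 ≠ x4 := fun e => by rw [e] at o34; exact lt_irrefl _ o34
  have hall : ∀ e, L.σ e ≠ e → L.θ e = e → e = z ∨ e = x2 ∨ e = x3 ∨ e = x4 := by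
    intro e h1 h2
    rcases (h.act e).1 h1 with k | k
    · exact absurd h2 k
    · exact k
  have key : ∃ b c, lt2 pos z b + lt2 pos z c + (lt2 pos (L.far z) b + lt2 pos (L.far z) c) = 0 ∧
      ((L.far z = x2 ∧ b = x3 ∧ c = x4) ∨ (L.far z = x3 ∧ b = x2 ∧ c = x4) ∨
        (L.far z = x4 ∧ b = x2 ∧ c = x3)) := by
    rcases h.far_mem with hf | hf | hf
    · have s' := h.str2 (c := x4) h.f3 ((h.act _).2 (by simp)) h.z3.symm (hf ▸ h.n3.symm)
        (fun e h1 h2 => by rw [hf]; have := hall e h1 h2; tauto)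
      exact ⟨x3, x4, h.cross s' h.z3.symm (hf ▸ h.n3.symm) (hf ▸ h.l2) h.l3 h.l4,
        Or.inl ⟨hf, rfl, rfl⟩⟩
    · have s' := h.str2 (c := x4) h.f2 ((h.act _).2 (by simp)) h.z2.symm (hf ▸ h.n3)
        (fun e h1 h2 => by rw [hf]; have := hall e h1 h2; tauto)
      exact ⟨x2, x4, h.cross s' h.z2.symm (hf ▸ h.n3) (hf ▸ h.l3) h.l2 h.l4,
        Or.inr (Or.inl ⟨hf, rfl, rfl⟩)⟩
    · have s' := h.str2 (c := x3) h.f2 ((h.act _).2 (by simp)) h.z2.symm (hf ▸ h.n4)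
        (fun e h1 h2 => by rw [hf]; have := hall e h1 h2; tauto)
      exact ⟨x2, x3, h.cross s' h.z2.symm (hf ▸ h.n4) (hf ▸ h.l4) h.l2 h.l3,
        Or.inr (Or.inr ⟨hf, rfl, rfl⟩)⟩
  obtain ⟨b, c, key, hc⟩ := key
  unfold TyA TyB rk
  unfold lt2 at key
  rcases hc with ⟨hf, rfl, rfl⟩ | ⟨hf, rfl, rfl⟩ | ⟨hf, rfl, rfl⟩ <;> rw [hf] at key ⊢ <;>
    rcases lt_or_gt_of_ne p2 with h2 | h2 <;> rcases lt_or_gt_of_ne p3 with h3 | h3 <;>
    rcases lt_or_gt_of_ne p4 with h4 | h4 <;> rcases lt_or_gt_of_ne q3 with h5 | h5 <;>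
    rcases lt_or_gt_of_ne q4 with h6 | h6 <;>
    first
    | (exfalso; omega)
    | (have g2 := h2.not_gt
       have g3 := h3.not_gt
       have g4 := h4.not_gt
       have g5 := h5.not_gt
       have g6 := h6.not_gt
       simp only [h2, h3, h4, h5, h6, g2, g3, g4, g5, g6, o34, o34.not_gt, if_true, if_false,
           lt_irrefl] at key ⊢
       first | (exfalso; revert key; decide) | norm_num)

omit [Fintype α] in
/-- the type determines the partner -/
lemma Ty_inj {a b : α} (p2 : pos z ≠ pos x2) (p3 : pos z ≠ pos x3)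
    (p4 : pos z ≠ pos x4) (q3 : pos x2 ≠ pos x3) (q4 : pos x2 ≠ pos x4) (o34 : pos x3 < pos x4)
    (ha : a = x2 ∨ a = x3 ∨ a = x4) (hb : b = x2 ∨ b = x3 ∨ b = x4)
    (h : TyA pos z x2 x3 x4 a ∧ TyA pos z x2 x3 x4 b ∨ TyB pos z x2 x3 x4 a ∧ TyB pos z x2 x3 x4 b) :
    a = b := by
  unfold TyA TyB rk at h
  rcases lt_or_gt_of_ne p2 with h2 | h2 <;> rcases lt_or_gt_of_ne p3 with h3 | h3 <;>
    rcases lt_or_gt_of_ne p4 with h4 | h4 <;> rcases lt_or_gt_of_ne q3 with h5 | h5 <;>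
    rcases lt_or_gt_of_ne q4 with h6 | h6 <;>
    first
    | (exfalso; omega)
    | (have g2 := h2.not_gt
       have g3 := h3.not_gt
       have g4 := h4.not_gt
       have g5 := h5.not_gt
       have g6 := h6.not_gt
       rcases ha with rfl | rfl | rfl <;> rcases hb with rfl | rfl | rfl <;>
         first
         | rfl
         | (exfalso
            simp only [h2, h3, h4, h5, h6, g2, g3, g4, g5, g6, o34, o34.not_gt, if_true, if_false,
              lt_irrefl] at h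
            omega))

omit [Fintype α] in
/-- the partner of type B exists -/
lemma exists_TyB (p2 : pos z ≠ pos x2) (p3 : pos z ≠ pos x3)
    (p4 : pos z ≠ pos x4) (q3 : pos x2 ≠ pos x3) (q4 : pos x2 ≠ pos x4) (o34 : pos x3 < pos x4) :
    TyB pos z x2 x3 x4 x2 ∨ TyB pos z x2 x3 x4 x3 ∨ TyB pos z x2 x3 x4 x4 := by
  unfold TyB rk
  rcases lt_or_gt_of_ne p2 with h2 | h2 <;> rcases lt_or_gt_of_ne p3 with h3 | h3 <;>
    rcases lt_or_gt_of_ne p4 with h4 | h4 <;> rcases lt_or_gt_of_ne q3 with h5 | h5 <;>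
    rcases lt_or_gt_of_ne q4 with h6 | h6 <;>
    first
    | (exfalso; omega)
    | (have g2 := h2.not_gt
       have g3 := h3.not_gt
       have g4 := h4.not_gt
       have g5 := h5.not_gt
       have g6 := h6.not_gt
       simp only [h2, h3, h4, h5, h6, g2, g3, g4, g5, g6, o34, o34.not_gt, if_true, if_false,
              lt_irrefl]
       norm_num)

open Classical in
omit [Fintype α] in
/-- **The wall formula**: in all worlds with the marks `z`, `x2`, `x3`, `x4` on the wall the functional is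
a constant plus the indicator of type A times `(u3 - u4) ph^2 ph^(-N)`. -/
theorem V0_wall [Finite α] (p2 : pos z ≠ pos x2) (p3 : pos z ≠ pos x3)
    (p4 : pos z ≠ pos x4) (q3 : pos x2 ≠ pos x3) (q4 : pos x2 ≠ pos x4) (o34 : pos x3 < pos x4)
    (u3 u4 : ℂ) : ∃ C : ℂ, ∀ L : Lk α, InW pos z x2 x3 x4 L.σ L.θ →
      V0 L pos x2 x3 x4 u3 u4 z = C +
        (if TyA pos z x2 x3 x4 (L.far z) then (u3 - u4) * E (NN pos z x2 x3 x4) else 0) := by
  have : Fintype α := Fintype.ofFinite α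
  obtain ⟨b, hb, hB⟩ : ∃ b, (b = x2 ∨ b = x3 ∨ b = x4) ∧ TyB pos z x2 x3 x4 b := by
    rcases exists_TyB p2 p3 p4 q3 q4 o34 with h | h | h
    · exact ⟨x2, Or.inl rfl, h⟩
    · exact ⟨x3, Or.inr (Or.inl rfl), h⟩
    · exact ⟨x4, Or.inr (Or.inr rfl), h⟩
  refine ⟨KB pos x2 x3 x4 u3 u4 b, fun L h => ?_⟩
  unfold V0
  by_cases hA : TyA pos z x2 x3 x4 (L.far z)
  · rw [if_pos hA, ← phase_table p2 p3 p4 q3 q4 o34 h.far_mem hb hA hB]
    ring
  · rw [if_neg hA, add_zero]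
    have hB' := (far_nc4 h).resolve_left hA
    rw [Ty_inj p2 p3 p4 q3 q4 o34 h.far_mem hb (Or.inr ⟨hB', hB⟩)]

end wall

end Pool.Agent.H25.W
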