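import Mathlib
import Pool.Agent.H25.W.RotPlane
import Pool.Agent.H54.W.Def
import Pool.Agent.H64.Win.Geo

set_option autoImplicit false
open Finset

/-! # The horizontal copy of the environments of a window

`XH O τ` : the environment `XJ O τ` of `H54/W/Def.lean` rotated by a right angle, `WH O τ` : its open labels.
The tile `(x, y)` of the copy is the tile `(y, -x-1)` of the window (`lt_hor`), so the columns
`-h ≤ x < 0` of the copy are the rows of the window, the line tile of the column `x` is `(x, τ (-x-1) - 1)`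
and the line is horizontal. `sto_*` : states of the tiles of the copy (`some true`: {W-S, N-E}, `some false`:
{W-N, S-E}). `al e` : weight of the state {W-N, S-E} of the copy; if the weights of `XJ O τ` are
`qJ a b c` then it is `1 - wA a b c` (`al_hor`): the triple of the copy in the conventions of
`H46/Sp/Def.lean` is `(1 - a, 1 - c, 1 - b)`. -/

namespace Pool.Agent.H25.W

open Pool.Agent.H75.Perc Pool.Agent.H75.TwoArm Pool.Agent.Q1
open Pool.Agent.H33.Q1 (lt tt lt_inj tt_lt)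
open Pool.Agent.H54.W
open Pool.Agent.H64.Win (sto sto_none sto_some IsEnv)

/-! ### Labels -/

lemma lt_hor (x y : ℤ) : lt (x, y) = rotL (lt (y, -x - 1)) := by
  rw [rotL_lt]
  congr 1
  ext
  · simp only; ring
  · rfl

lemma mem_hor {A : Finset (ℤ × ℤ)} {x y : ℤ} : lt (x, y) ∈ A.map rotL ↔ lt (y, -x - 1) ∈ A := by
  rw [lt_hor, mem_map_rotL]

lemma rotLI_hor (x y : ℤ) : rotLI (lt (x, y)) = lt (y, -x - 1) := rotLI_lt x y

/-! ### Rotated environments -/

/-- the deterministic part of a rotated environment -/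
lemma isEnv_rot {X : Env} {E W : Finset (ℤ × ℤ)} (h : IsEnv X E W) :
    IsEnv (rotE X) (E.map rotL) (W.map rotL) where
  E := by rw [rotE_E, h.E]
  out c := by
    show rotc (X.out (rotcI c)) = _
    rw [h.out, ← nx_rot, rotc_rotcI]
  dout c := by
    show X.dout (rotcI c) = _
    rw [h.dout, ← del_rot, rotc_rotcI]

section env

variable {D : Win} (O : Out D) (τ : ℤ → ℤ)

/-- **The horizontal copy of `XJ O τ`.** -/
noncomputable def XH : Env := rotE (Win.XJ O τ)

/-- the open labels of the horizontal copy -/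
noncomputable def WH : Finset (ℤ × ℤ) := (D.WJ τ O.Wo).map rotL

lemma isEnv_XJ : IsEnv (Win.XJ O τ) (D.EJ τ) (D.WJ τ O.Wo) where
  E := rfl
  out _ := rfl
  dout _ := rfl

lemma isEnv_XH : IsEnv (XH O τ) (XH O τ).E (WH O τ) := isEnv_rot (isEnv_XJ O τ)

@[simp] lemma XH_E : (XH O τ).E = (D.EJ τ).map rotL := rfl
@[simp] lemma XH_c0 : (XH O τ).c0 = rotc O.c0 := rfl
@[simp] lemma XH_k0 : (XH O τ).k0 = O.k0 + 1 := rfl
@[simp] lemma XH_T : (XH O τ).T = 4 := rfl

/-- **Transfer of the increments.** -/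
theorem incW_XH (q : ℤ × ℤ → ℂ) (c : ℤ × ℤ) :
    (XH O τ).incW (fun e => q (rotLI e)) (rotc c) = w6 * (Win.XJ O τ).incW q c := incW_rot' q c

/-- **Transfer of the increments.** -/
theorem incW_XH' (q : ℤ × ℤ → ℂ) (c : ℤ × ℤ) :
    (Win.XJ O τ).incW q (rotcI c) = w6⁻¹ * (XH O τ).incW (fun e => q (rotLI e)) c := by
  have h := incW_XH O τ q (rotcI c)
  rw [rotc_rotcI] at h
  rw [h, inv_mul_cancel_left₀ w6_ne]

variable {O τ}

/-! ### Membership -/

lemma mem_XHE (H : Pos D τ) {x y : ℤ} : lt (x, y) ∈ (XH O τ).E ↔ D.InE τ y (-x - 1) := by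
  rw [XH_E, mem_hor, Win.mem_EJ H]

lemma mem_XHE_q (H : Pos D τ) (q : ℤ × ℤ) : lt q ∈ (XH O τ).E ↔ D.InE τ q.2 (-q.1 - 1) :=
  mem_XHE (O := O) H (x := q.1) (y := q.2)

lemma mem_WH {x y : ℤ} : lt (x, y) ∈ WH O τ ↔ D.InO τ y (-x - 1) ∨ lt (y, -x - 1) ∈ O.Wo := by
  unfold WH
  rw [mem_hor]
  unfold Win.WJ
  rw [mem_union, Win.mem_WR]

lemma mem_WH_box {x y : ℤ} (h : D.InZ y (-x - 1)) : lt (x, y) ∈ WH O τ ↔ D.InO τ y (-x - 1) := by
  rw [mem_WH]
  constructor
  · rintro (h2 | h2)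
    · exact h2
    · exact absurd h (O.far _ _ h2)
  · exact Or.inl

/-! ### States -/

lemma sto_E (H : Pos D τ) {x y : ℤ} : sto (XH O τ).E (WH O τ) (x, y) = none ↔ D.InE τ y (-x - 1) := by
  rw [sto_none, mem_XHE H]

/-- a turn tile in the state {W-S, N-E} -/
lemma sto_TA (H : Pos D τ) {x y : ℤ} (h : D.TA τ y (-x - 1)) :
    sto (XH O τ).E (WH O τ) (x, y) = some true := by
  have hz := h.z H
  have hZ : D.InZ y (-x - 1) := by unfold Win.InZ; omega
  rw [sto_some]
  refine ⟨by rw [mem_XHE H]; exact h.not_InE H, ?_⟩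
  have : lt (x, y) ∈ WH O τ ↔ (x + y) % 2 = 1 := by
    rw [mem_WH_box hZ]
    unfold Win.InO
    have h1 := h.not_InE H
    have h2 := h.not_TB H
    constructor
    · rintro ⟨-, -, ⟨-, h3⟩ | ⟨h3, -⟩ | ⟨h3, -⟩⟩
      · omega
      · exact absurd h3 h2
      · exact absurd h h3
    · intro h3
      exact ⟨hZ, h1, Or.inl ⟨h, by omega⟩⟩
  simp only [this]
  by_cases hp : (x + y) % 2 = 1 <;> simp [hp]

/-- a turn tile in the state {W-N, S-E} -/
lemma sto_TB (H : Pos D τ) {x y : ℤ} (h : D.TB τ y (-x - 1)) :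
    sto (XH O τ).E (WH O τ) (x, y) = some false := by
  have hz := h.z H
  have hZ : D.InZ y (-x - 1) := by unfold Win.InZ; omega
  rw [sto_some]
  refine ⟨by rw [mem_XHE H]; exact h.not_InE H, ?_⟩
  have : lt (x, y) ∈ WH O τ ↔ ¬ (x + y) % 2 = 1 := by
    rw [mem_WH_box hZ]
    unfold Win.InO
    have h1 := h.not_InE H
    constructor
    · rintro ⟨-, -, ⟨h3, -⟩ | ⟨-, h3⟩ | ⟨-, h3, -⟩⟩
      · exact absurd h (h3.not_TB H)
      · omega
      · exact absurd h h3
    · intro h3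
      exact ⟨hZ, h1, Or.inr (Or.inl ⟨h, by omega⟩)⟩
  simp only [this]
  by_cases hp : (x + y) % 2 = 1 <;> simp [hp]

/-- a tile of the exterior in the box -/
lemma sto_fill (H : Pos D τ) {x y : ℤ} (hZ : D.InZ y (-x - 1)) (h1 : ¬ D.InE τ y (-x - 1))
    (h2 : ¬ D.TA τ y (-x - 1)) (h3 : ¬ D.TB τ y (-x - 1)) :
    sto (XH O τ).E (WH O τ) (x, y) = some (D.fill y (-x - 1) == decide ((x + y) % 2 = 1)) := by
  rw [sto_some]
  refine ⟨by rw [mem_XHE H]; exact h1, ?_⟩
  have : lt (x, y) ∈ WH O τ ↔ D.fill y (-x - 1) = true := by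
    rw [mem_WH_box hZ]
    unfold Win.InO
    constructor
    · rintro ⟨-, -, ⟨h, -⟩ | ⟨h, -⟩ | ⟨-, -, h⟩⟩
      · exact absurd h h2
      · exact absurd h h3
      · exact h
    · intro h
      exact ⟨hZ, h1, Or.inr (Or.inr ⟨h2, h3, h⟩)⟩
  simp only [this]
  simp

/-- two positions have the same state at a tile where they have the same kinds -/
lemma sto_eq {τ' : ℤ → ℤ} {x y : ℤ} (h1 : D.InE τ y (-x - 1) ↔ D.InE τ' y (-x - 1))
    (h2 : D.TA τ y (-x - 1) ↔ D.TA τ' y (-x - 1)) (h3 : D.TB τ y (-x - 1) ↔ D.TB τ' y (-x - 1))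
    (H : Pos D τ) (H' : Pos D τ') :
    sto (XH O τ).E (WH O τ) (x, y) = sto (XH O τ').E (WH O τ') (x, y) := by
  unfold sto
  have e1 : lt (x, y) ∈ (XH O τ).E ↔ lt (x, y) ∈ (XH O τ').E := by
    rw [mem_XHE H, mem_XHE H', h1]
  have e2 : lt (x, y) ∈ WH O τ ↔ lt (x, y) ∈ WH O τ' := by
    rw [mem_WH, mem_WH]
    unfold Win.InO
    rw [h1, h2, h3]
  simp only [e1, e2]

end env

/-! ### Weights -/

/-- weight of the state {W-N, S-E} of the tile `q`, if the open weights are `w` -/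
noncomputable def al (w : ℤ × ℤ → ℂ) (q : ℤ × ℤ) : ℂ :=
  if (q.1 + q.2) % 2 = 0 then w (lt q) else 1 - w (lt q)

/-- **The weights of the horizontal copy.** -/
lemma al_hor {D : Win} {τ : ℤ → ℤ} (a b c : ℂ) (x y : ℤ) :
    al (fun e => D.qJ τ a b c (rotLI e)) (x, y) = 1 - D.wA τ a b c y (-x - 1) := by
  unfold al
  simp only [rotLI_hor]
  unfold Win.qJ
  rw [tt_lt]
  simp only
  unfold Win.wal
  by_cases h : (x + y) % 2 = 0
  · rw [if_pos h, if_neg (by omega)]
  · rw [if_neg h, if_pos (by omega)]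

end Pool.Agent.H25.W
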