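import Mathlib
import Pool.Agent.H25.W.TabBd

set_option autoImplicit false
open Finset SimpleGraph

/-! # Blocks for the functional of the junction world

Two worlds `L`, `L'` which agree outside of a set `I` of ends. `VU_block` : every room strand which leaves
`I` leads to the same end `b`, moving ends `z`, `z'` in `I`, marks outside. `VU_closed` : `z`, `z'` and the
mark `m` in `I`, nothing leaves `I`: then only the strand `x3 - x4`, which is the same in both worlds,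
decides. `VU_contract` : several regions, in terms of the passages (`far_contract` of `H99/W/Block.lean`),
if no right leg lies in them. -/

namespace Pool.Agent.H25.W

open Pool.Agent.H99.W Pool.Agent.H73.W

variable {α : Type*}

/-! ### A component which does not meet `I` -/

/-- the component of `x` avoids `I` and is contained in a component of the other world -/
lemma comp_off {L L' : Lk α} {I : Set α} {x : α} (hx : x ∉ I)
    (hI : ∀ u v, L.G.Reachable x u → u ∉ I → v ∈ I → ¬ L.G.Adj u v)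
    (aσ : ∀ e, e ∉ I → L.σ e ∉ I → L.σ e = L'.σ e) (aθ : ∀ e, e ∉ I → L.θ e = L'.θ e) {y : α}
    (h : L.G.Reachable x y) : y ∉ I ∧ L'.G.Reachable x y := by
  obtain ⟨p⟩ := h
  have key : ∀ (a y : α) (p : L.G.Walk a y), L.G.Reachable x a → a ∉ I → L'.G.Reachable x a →
      y ∉ I ∧ L'.G.Reachable x y := by
    intro a y p
    induction p with
    | nil => exact fun _ h1 h2 => ⟨h1, h2⟩
    | @cons a v w h _ ih =>
      intro h0 h1 h2
      have hv : v ∉ I := fun hv => hI a v h0 h1 hv h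
      refine ih (h0.trans h.reachable) hv (h2.trans ?_)
      have h3 : L'.G.Adj a v := by
        obtain ⟨k1, k2 | k2⟩ := h
        · exact ⟨k1, Or.inl (by rw [← aσ a h1 (k2 ▸ hv), k2])⟩
        · exact ⟨k1, Or.inr (by rw [← aθ a h1, k2])⟩
      exact h3.reachable
  exact key x y p (Reachable.refl _) hx (Reachable.refl _)

/-- the number of right legs is the same if the component avoids `I` in both worlds -/
lemma cnt_off [Fintype α] {L L' : Lk α} {pos : α → ℤ} {m : α} {I : Set α} {x : α} (hx : x ∉ I)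
    (hI : ∀ u v, L.G.Reachable x u → u ∉ I → v ∈ I → ¬ L.G.Adj u v)
    (hI' : ∀ u v, L'.G.Reachable x u → u ∉ I → v ∈ I → ¬ L'.G.Adj u v)
    (aσ : ∀ e, e ∉ I → L.σ e ∉ I → L.σ e = L'.σ e)
    (aσ' : ∀ e, e ∉ I → L'.σ e ∉ I → L.σ e = L'.σ e)
    (aθ : ∀ e, e ∉ I → L.θ e = L'.θ e) : cnt L pos m x = cnt L' pos m x := by
  classical
  unfold cnt
  congr 1
  ext y
  simp only [mem_filter, mem_univ, true_and]
  constructor
  · rintro ⟨h1, h2⟩
    obtain ⟨h3, h4⟩ := comp_off hx hI aσ aθ h2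
    refine ⟨?_, h4⟩
    unfold Rt at h1 ⊢
    rwa [← aθ y h3]
  · rintro ⟨h1, h2⟩
    obtain ⟨h3, h4⟩ := comp_off (L := L') (L' := L) hx hI' (fun e h5 h6 => (aσ' e h5 h6).symm)
      (fun e h5 => (aθ e h5).symm) h2
    refine ⟨?_, h4⟩
    unfold Rt at h1 ⊢
    rwa [aθ y h3]

section

variable [Fintype α] {L L' : Lk α} {pos : α → ℤ} {m x3 x4 : α} {I : Set α} {b z z' : α}

omit [Fintype α] in
/-- the exit of the strand of `z` -/
lemma exit_reach (hθ : ∀ e ∈ I, L.θ e ∈ I) (hσ : ∀ e ∈ I, L.σ e ∉ I → L.σ e = b) (hz : z ∈ I)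
    {x : α} (hx : x ∉ I) (h : L.G.Reachable z x) : L.G.Reachable z b := by
  obtain ⟨u, hu, hub, hb, hr⟩ := last_exit (G := L.G) (I := I) (b := b) (fun u v hu hv => by
    rintro ⟨-, h | h⟩
    · rw [← h] at hv ⊢
      exact hσ u hu hv
    · exact absurd (h ▸ hθ u hu) hv) hz hx h
  exact h.trans (hr.mono (off_le _ _)).symm

omit [Fintype α] in
/-- an edge into `I` starts at `b` -/
lemma enter (hθ : ∀ e ∈ I, L.θ e ∈ I) (hσ : ∀ e ∈ I, L.σ e ∉ I → L.σ e = b) {u v : α}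
    (hu : u ∉ I) (hv : v ∈ I) (h : L.G.Adj u v) : u = b := by
  obtain ⟨-, h | h⟩ := h
  · have h1 : L.σ v = u := by rw [← h, L.hσ]
    rw [← h1]
    exact hσ v hv (h1 ▸ hu)
  · exfalso
    have h1 : L.θ v = u := by rw [← h, L.hθ]
    exact hu (h1 ▸ hθ v hv)

omit [Fintype α] in
/-- a strand with both ends outside which is not the strand of `z` does not enter `I` -/
lemma no_enter (hθ : ∀ e ∈ I, L.θ e ∈ I) (hσ : ∀ e ∈ I, L.σ e ∉ I → L.σ e = b)
    (hzb : L.G.Reachable z b) {x : α} (hx : ¬ L.G.Reachable z x) :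
    ∀ u v, L.G.Reachable x u → u ∉ I → v ∈ I → ¬ L.G.Adj u v := by
  intro u v h1 h2 h3 h4
  have := enter hθ hσ h2 h3 h4
  rw [this] at h1
  exact hx (hzb.trans h1.symm)

/-- **Block lemma for the functional of the junction world.** -/
theorem VU_block (hI : Ins pos z m x3 x4 L.σ L.θ) (hI' : Ins pos z' m x3 x4 L'.σ L'.θ)
    (f3 : L.θ x3 = x3) (f3' : L'.θ x3 = x3) (h3m : x3 ≠ m)
    (hzI : z ∈ I) (hzI' : z' ∈ I) (hm : m ∉ I) (h3 : x3 ∉ I) (h4 : x4 ∉ I)
    (hθ : ∀ e ∈ I, L.θ e ∈ I) (hθ' : ∀ e ∈ I, L'.θ e ∈ I)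
    (hσ : ∀ e ∈ I, L.σ e ∉ I → L.σ e = b) (hσ' : ∀ e ∈ I, L'.σ e ∉ I → L'.σ e = b)
    (aσ : ∀ e, e ∉ I → L.σ e ∉ I → L.σ e = L'.σ e)
    (aσ' : ∀ e, e ∉ I → L'.σ e ∉ I → L.σ e = L'.σ e)
    (aθ : ∀ e, e ∉ I → L.θ e = L'.θ e) (u3 u4 : ℂ) :
    VU L pos m x3 x4 u3 u4 z = VU L' pos m x3 x4 u3 u4 z' := by
  classical
  have hf : L.far z ∉ I := by
    rcases Ins.far_mem hI with h | h | h <;> rw [h] <;> assumption
  have hf' : L'.far z' ∉ I := by
    rcases Ins.far_mem hI' with h | h | h <;> rw [h] <;> assumption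
  have hfar : L.far z = L'.far z' := Lk.far_block hI.zθ hI.zσ hI'.zθ hI'.zσ hzI hzI' hθ hθ' hσ hσ'
    aσ aσ' aθ hf hf'
  unfold VU
  rw [← hfar]
  by_cases e3 : L.far z = x3
  · rw [if_pos e3, if_pos e3]
  by_cases e4 : L.far z = x4
  · rw [if_neg e3, if_neg e3, if_pos e4, if_pos e4]
  rw [if_neg e3, if_neg e3, if_neg e4, if_neg e4]
  congr 1
  have em : L.far z = m := by
    rcases Ins.far_mem hI with h | h | h
    · exact h
    · exact absurd h e3
    · exact absurd h e4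
  have s : Str L z m := em ▸ Ins.str hI
  have s' : Str L' z' m := (hfar ▸ em : L'.far z' = m) ▸ Ins.str hI'
  have n3 : ¬ L.G.Reachable z x3 := s.nr f3 hI.z3.symm h3m
  have n3' : ¬ L'.G.Reachable z' x3 := s'.nr f3' hI'.z3.symm h3m
  exact cnt_off h3 (no_enter hθ hσ (exit_reach hθ hσ hzI hm s.r) n3)
    (no_enter hθ' hσ' (exit_reach hθ' hσ' hzI' hm s'.r) n3') aσ aσ' aθ

omit [Fintype α] in
/-- nothing leaves `I` -/
lemma closed_mem (hθ : ∀ e ∈ I, L.θ e ∈ I) (hσ : ∀ e ∈ I, L.σ e ∈ I) {u v : α} (hu : u ∈ I)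
    (h : L.G.Reachable u v) : v ∈ I := by
  obtain ⟨p⟩ := h
  induction p with
  | nil => exact hu
  | cons h _ ih =>
    apply ih
    obtain ⟨-, h | h⟩ := h
    · exact h ▸ hσ _ hu
    · exact h ▸ hθ _ hu

/-- **Closed block**: `z` and the mark `m` in `I`, nothing leaves `I`: the functional is a function of
the strands outside of `I`. -/
theorem VU_closed (hI : Ins pos z m x3 x4 L.σ L.θ) (hI' : Ins pos z' m x3 x4 L'.σ L'.θ)
    (hzI : z ∈ I) (hzI' : z' ∈ I) (h3 : x3 ∉ I) (h4 : x4 ∉ I)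
    (hθ : ∀ e ∈ I, L.θ e ∈ I) (hθ' : ∀ e ∈ I, L'.θ e ∈ I)
    (hσ : ∀ e ∈ I, L.σ e ∈ I) (hσ' : ∀ e ∈ I, L'.σ e ∈ I)
    (aσ : ∀ e, e ∉ I → L.σ e = L'.σ e)
    (aθ : ∀ e, e ∉ I → L.θ e = L'.θ e) (u3 u4 : ℂ) :
    VU L pos m x3 x4 u3 u4 z = VU L' pos m x3 x4 u3 u4 z' := by
  classical
  have g : L.far z ∈ I := closed_mem hθ hσ hzI (Ins.str hI).r
  have g' : L'.far z' ∈ I := closed_mem hθ' hσ' hzI' (Ins.str hI').r
  have n3 : L.far z ≠ x3 := fun h => h3 (by rw [← h]; exact g)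
  have n4 : L.far z ≠ x4 := fun h => h4 (by rw [← h]; exact g)
  have n3' : L'.far z' ≠ x3 := fun h => h3 (by rw [← h]; exact g')
  have n4' : L'.far z' ≠ x4 := fun h => h4 (by rw [← h]; exact g')
  unfold VU
  rw [if_neg n3, if_neg n4, if_neg n3', if_neg n4']
  congr 1
  refine cnt_off h3 ?_ ?_ (fun e h _ => aσ e h) (fun e h _ => aσ e h) aθ
  · intro u v _ hu hv h
    exact hu (closed_mem hθ hσ hv h.symm.reachable)
  · intro u v _ hu hv h
    exact hu (closed_mem hθ' hσ' hv h.symm.reachable)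

/-- **Contraction of several regions**, if no right leg lies in them. -/
theorem VU_contract {U : Set α} (hI : Ins pos z m x3 x4 L.σ L.θ)
    (hI' : Ins pos z' m x3 x4 L'.σ L'.θ)
    (hag : ∀ u v, u ∉ U → v ∉ U → L.G.Adj u v → L'.G.Reachable u v)
    (hag' : ∀ u v, u ∉ U → v ∉ U → L'.G.Adj u v → L.G.Reachable u v)
    (hR : ∀ b c, b ∉ U → c ∉ U → InR L.G U b c → L'.G.Reachable b c)
    (hR' : ∀ b c, b ∉ U → c ∉ U → InR L'.G U b c → L.G.Reachable b c)
    (hzU : z ∈ U) (hzU' : z' ∈ U) (hE : ∀ b, b ∉ U → ExR L.G U z b → L'.G.Reachable z' b)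
    (hm : m ∉ U) (h3 : x3 ∉ U) (h4 : x4 ∉ U) (fm' : L'.θ m = m) (f3' : L'.θ x3 = x3)
    (f4' : L'.θ x4 = x4)
    (hr : ∀ y, y ∈ U → ¬ Rt pos L.θ m y) (hr' : ∀ y, y ∈ U → ¬ Rt pos L'.θ m y)
    (hrr : ∀ y, y ∉ U → (Rt pos L.θ m y ↔ Rt pos L'.θ m y)) (u3 u4 : ℂ) :
    VU L pos m x3 x4 u3 u4 z = VU L' pos m x3 x4 u3 u4 z' := by
  classical
  have hf : L.far z ∉ U := by
    rcases Ins.far_mem hI with h | h | h <;> rw [h] <;> assumption
  have hfar : L.far z = L'.far z' := Lk.far_contract hI.zθ hI.zσ hI'.zθ hI'.zσ hag hR hzU hE hf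
    (fun e => hf (e ▸ hzU')) (by
      right
      rcases Ins.far_mem hI with h | h | h <;> rw [h] <;> assumption)
  have hc : cnt L pos m x3 = cnt L' pos m x3 := by
    unfold cnt
    congr 1
    ext y
    simp only [mem_filter, mem_univ, true_and]
    constructor
    · rintro ⟨h1, h2⟩
      have hy : y ∉ U := fun h => hr y h h1
      exact ⟨(hrr y hy).1 h1, reach_contract hag hR h3 hy h2⟩
    · rintro ⟨h1, h2⟩
      have hy : y ∉ U := fun h => hr' y h h1
      exact ⟨(hrr y hy).2 h1, reach_contract hag' hR' h3 hy h2⟩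
  unfold VU
  rw [← hfar, hc]

end

end Pool.Agent.H25.W
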